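import Pool.Agent.Lib.MP_72e2e6_nt.Sm.G.SpecD

/-!
# MP_72e2e6_nt, `Sm`, block G: module Ari (the arithmetic of the finite places)
-/

set_option autoImplicit false

namespace Pool.Agent.MP72S.Lv

open Finset Polynomial MP72e2e6

private theorem zm2_eq {a b : ZMod 2} (h : a = 0 ↔ b = 0) : a = b := by
  revert a b
  decide

private theorem fc_q4 {F : Type} [Field F] {a : Fin 3 → F[X]} {d : F[X]} (h : HD.Hy a d) :
    4 ∣ Nat.card F - 1 := by
  have := h.q4
  omega

private theorem fc_two {F : Type} [Field F] [Finite F] {a : Fin 3 → F[X]} {d : F[X]}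
    (h : HD.Hy a d) : (2 : F) ≠ 0 := by
  intro h2
  have q4 := h.q4
  have : Fintype F := Fintype.ofFinite F
  rw [Nat.card_eq_fintype_card] at q4
  have h3 : ringChar F = 2 := by
    have h4 : ringChar F ∣ 2 := by
      rw [← ringChar.spec]
      exact_mod_cast h2
    rcases (Nat.dvd_prime Nat.prime_two).1 h4 with h5 | h5
    · exact absurd h5 (CharP.ringChar_ne_one)
    · exact h5
  have h4 := FiniteField.even_card_of_char_two h3
  omega

theorem tAri (h1 : StmtSuSy.{0}) (h2 : StmtPeSyl.{0}) (h3 : D.S_Kl) (h4 : HD.S_Vl)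
    (h5 : HD.S_Irf) (h6 : S_Ksy) : S_Ari := by
  intro F _ _ a d u S A hy _ hS hA
  have two := fc_two hy
  have q4 := fc_q4 hy
  have q2 : 2 ∣ Nat.card F - 1 := (by norm_num : 2 ∣ 4).trans q4
  obtain ⟨lg, -, -⟩ := h2 F q2
  obtain ⟨-, -, su⟩ := h1 F 2 Nat.prime_two q2 cs lg
  obtain ⟨-, vl2, -, vl4, -, -⟩ := h4 F A hA
  obtain ⟨-, -, irf⟩ := h5 F a d A hy hA
  obtain ⟨irf, -, -⟩ := irf S
  refine ⟨?_, ?_, ?_, ?_, ?_, ?_⟩
  · intro v hv
    cases v with
    | none => exact absurd rfl hv
    | some P => exact P.2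
  · intro v w hv hw e
    cases v with
    | none => exact absurd rfl hv
    | some P =>
      cases w with
      | none => exact absurd rfl hw
      | some R => exact congrArg some (Subtype.ext e)
  · intro Q hQ hQ'
    refine ⟨some ⟨Q, hQ, hQ'⟩, ?_, rfl⟩
    exact Option.some_ne_none _
  · intro v hv
    cases v with
    | none => exact absurd rfl hv
    | some P =>
      have e1 := (h3 F two none (A none) (hA.ok none)).1 (algebraMap F[X] (RatFunc F) P.1)
        (-(P.1.natDegree : ℤ)) (vl2 P.1 P.2.2.ne_zero)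
      have e2 : (HD.DD F a d u S A).ch (some P)
          ((HD.DD F a d u S A).tau (HD.DD F a d u S A).inf) = ((-(P.1.natDegree : ℤ) : ℤ) : ZMod 2) :=
        e1
      rw [e2, Int.cast_neg, Int.cast_natCast, ZMod.neg_eq_self_mod_two]
      rfl
  · intro v w hv hw hvw
    cases v with
    | none => exact absurd rfl hv
    | some P =>
      cases w with
      | none => exact absurd rfl hw
      | some R =>
        have hRP : ¬ R.1 ∣ P.1 := vl4 R P fun e => hvw (congrArg some e.symm)
        have e1 := h6 F two R.1 R.2.1 R.2.2 (A (some R)) (hA.ok (some R)) P.1 hRP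
        obtain ⟨-, -, -, e2⟩ := (su R.1 R.2.1 R.2.2).2.1 P.1 hRP
        have e3 : (HD.DD F a d u S A).ch (some P) ((HD.DD F a d u S A).phi (some R)) =
            D.hK (algebraMap F[X] (RatFunc F) P.1) ((A (some R)).rQ (A (some R)).f) := rfl
        have e4 : syl cs (pq (some R)) (pq (some P)) = syl cs R.1 P.1 := rfl
        rw [e3, e4]
        apply zm2_eq
        rw [e1, e2, isSquare_iff_exists_sq]
  · intro n v
    rw [irf n v]
    constructor
    · rintro ⟨⟨P, rfl, hP⟩, hv⟩
      exact ⟨hv, hP⟩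
    · rintro ⟨hv, hn⟩
      have hv' : v ∉ S := hv
      refine ⟨?_, hv'⟩
      cases v with
      | none => exact absurd ((hS none).2 (Or.inl rfl)) hv'
      | some P => exact ⟨P, rfl, hn⟩

end Pool.Agent.MP72S.Lv
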