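import Pool.Agent.Lib.MP_72e2e6_nt.Sm.G.SpecA

set_option autoImplicit false

namespace Pool.Agent.MP72S.Lv

open Finset Filter Topology

private theorem bin_term (N L m j : ℕ) (hN : 1 ≤ N) (hj : j ∈ range (L + 1)) (hm : L + 1 ≤ m) :
    m.choose j * (N - 1) ^ (m - j) ≤ m ^ j * (N - 1) ^ m := by
  rw [mem_range] at hj
  apply Nat.mul_le_mul (Nat.choose_le_pow m j)
  rcases Nat.eq_or_lt_of_le hN with h | h
  · rw [← h, Nat.sub_self, zero_pow (by omega)]
    exact Nat.zero_le _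
  · exact Nat.pow_le_pow_right (by omega) (Nat.sub_le _ _)

theorem tBin : S_Bin := by
  intro N L hN ε hε
  have hN0 : (0 : ℝ) < N := by
    have : 0 < N := hN
    exact_mod_cast this
  have hr : |(((N - 1 : ℕ) : ℝ) / N)| < 1 := by
    rw [abs_of_nonneg (by positivity), div_lt_one hN0]
    have : N - 1 < N := by omega
    exact_mod_cast this
  have h1 : Tendsto (fun m : ℕ => ∑ j ∈ range (L + 1),
      (m : ℝ) ^ j * (((N - 1 : ℕ) : ℝ) / N) ^ m) atTop (𝓝 0) := by
    have h2 := tendsto_finsetSum (range (L + 1)) fun j _ =>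
      tendsto_pow_const_mul_const_pow_of_abs_lt_one j hr
    simpa using h2
  obtain ⟨m₁, hm₁⟩ := eventually_atTop.1 (h1.eventually (ge_mem_nhds hε))
  refine ⟨max m₁ (L + 1), fun m hm => ?_⟩
  have h3 := hm₁ m (le_trans (le_max_left _ _) hm)
  have h4 : L + 1 ≤ m := le_trans (le_max_right _ _) hm
  have h5 : few N L m ≤ ∑ j ∈ range (L + 1), m ^ j * (N - 1) ^ m :=
    sum_le_sum fun j hj => bin_term N L m j hN hj h4
  calc (few N L m : ℝ) ≤ ((∑ j ∈ range (L + 1), m ^ j * (N - 1) ^ m : ℕ) : ℝ) := by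
        exact_mod_cast h5
    _ = (∑ j ∈ range (L + 1), (m : ℝ) ^ j * (((N - 1 : ℕ) : ℝ) / N) ^ m) * (N : ℝ) ^ m := by
        rw [sum_mul, Nat.cast_sum]
        apply sum_congr rfl
        intro j _
        rw [div_pow, mul_assoc, div_mul_cancel₀ _ (by positivity)]
        push_cast
        ring
    _ ≤ ε * (N : ℝ) ^ m := mul_le_mul_of_nonneg_right h3 (by positivity)

end Pool.Agent.MP72S.Lv
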