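import Pool.Agent.Lib.MP_72e2e6_nt.Sm.G.SpecB
import Pool.Agent.Lib.MP_72e2e6_nt.PeWei
import Pool.Agent.Lib.MP_72e2e6_nt.PeExt

/-!
# MP_72e2e6_nt, `Sm`, block G, module `Chs`: character sums over the primes of degree `n`
-/

set_option autoImplicit false

namespace Pool.Agent.MP72S.Lv

open Finset Polynomial MP72e2e6

private theorem geo {q : ℕ} (hq : 2 ≤ q) (m : ℕ) : ∑ d ∈ range (m + 1), q ^ d ≤ 2 * q ^ m := by
  induction m with
  | zero => simp
  | succ m ih =>
    rw [sum_range_succ]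
    have h : 2 * q ^ m ≤ q ^ (m + 1) := by
      rw [pow_succ, mul_comm]
      exact Nat.mul_le_mul_left _ hq
    omega

private theorem sq_le {n : ℕ} (hn : 4 ≤ n) : n * n ≤ 2 ^ n := by
  induction n, hn using Nat.le_induction with
  | base => norm_num
  | succ n hn ih =>
    rw [pow_succ]
    nlinarith

private theorem sgn_eq (a : ZMod 2) : (ZMod.stdAddChar a : ℂ) = ((sgn a : ℝ) : ℂ) := by
  rcases zmod2 a with rfl | rfl
  · rw [AddChar.map_zero_eq_one, sgn, if_pos rfl, Complex.ofReal_one]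
  · rw [peext_psi_one, sgn, if_neg one_ne_zero, Complex.ofReal_neg, Complex.ofReal_one]

/-- The proper divisors. -/
private theorem prop_le {F : Type} [Field F] [Finite F] (h2 : StmtSuPsi.{0}) (n : ℕ) :
    ∑ d ∈ n.properDivisors, d * #(irr F d) ≤ 2 * Nat.card F ^ (n / 2) := by
  obtain ⟨-, -, -, -, h5⟩ := h2 F 2 Nat.prime_two
  have hq2 : 2 ≤ Nat.card F := Finite.one_lt_card
  refine le_trans ?_ (geo hq2 (n / 2))
  calc ∑ d ∈ n.properDivisors, d * #(irr F d) ≤ ∑ d ∈ n.properDivisors, Nat.card F ^ d := by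
        refine sum_le_sum fun d hd => h5 d ?_
        exact Nat.pos_of_mem_properDivisors hd
    _ ≤ ∑ d ∈ range (n / 2 + 1), Nat.card F ^ d := by
        refine sum_le_sum_of_subset fun d hd => ?_
        rw [mem_range]
        obtain ⟨⟨e, he⟩, hlt⟩ := Nat.mem_properDivisors.1 hd
        have he2 : 2 ≤ e := by
          by_contra hcon
          have : e = 0 ∨ e = 1 := by omega
          rcases this with rfl | rfl
          · omega
          · omega
        have : 2 * d ≤ n := by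
          rw [he, mul_comm 2 d]
          exact Nat.mul_le_mul_left d he2
        omega

private theorem phi_eq {F : Type} [Field F] [Finite F] (h1 : StmtSuSy.{0})
    (hq : 2 ∣ Nat.card F - 1) (hcs : IsLg 2 (cs : F → ZMod 2)) {ι : Type} [Fintype ι]
    (pr : ι → F[X]) (hpr : Fam pr) (P : F[X]) (hP : P.Monic) (hi : Irreducible P) :
    phE cs pr 0 P = ((fch pr P : ℝ) : ℂ) := by
  classical
  unfold phE fch
  rw [AddChar.map_zero_eq_one, one_pow, one_mul]
  by_cases h : ∃ b, pr b = P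
  · rw [if_pos h]
    obtain ⟨b, hb⟩ := h
    rw [Complex.ofReal_zero]
    refine prod_eq_zero (mem_univ b) ?_
    rw [lgc, if_pos (by rw [hb])]
  · rw [if_neg h, ← sgn_eq, ← suprime_std_sum]
    refine prod_congr rfl fun b _ => ?_
    have hb : ¬ pr b ∣ P := by
      intro hd
      exact h ⟨b, eq_of_monic_of_associated (hpr.monic b) hP
        ((hpr.irr b).associated_of_dvd hi hd)⟩
    have h3 := (suprime_lgc h1 Nat.prime_two hq cs hcs (pr b) (hpr.monic b) (hpr.irr b)).1 1 P hb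
    rw [h3, one_mul]

private theorem phi_norm {F : Type} [Field F] {ι : Type} [Fintype ι] (pr : ι → F[X]) (h : F[X]) :
    ‖phE (cs : F → ZMod 2) pr 0 h‖ ≤ 1 := by
  classical
  unfold phE
  rw [AddChar.map_zero_eq_one, one_pow, one_mul, norm_prod]
  refine prod_le_one (fun _ _ => norm_nonneg _) fun b _ => ?_
  unfold lgc
  split_ifs
  · rw [norm_zero]
    exact zero_le_one
  · rw [suprime_std_norm]

private theorem psi_split {F : Type} [Field F] [Finite F] (h2 : StmtSuPsi.{0}) {n : ℕ}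
    (hn : n ≠ 0) (φ : F[X] → ℂ) (hφ : ∀ h, ‖φ h‖ ≤ 1) :
    n * ‖∑ P ∈ irr F n, φ P‖ ≤ ‖psiC φ n‖ + 2 * (Nat.card F : ℝ) ^ (n / 2) := by
  have e1 : psiC φ n = (n : ℂ) * ∑ P ∈ irr F n, φ P +
      ∑ d ∈ n.properDivisors, ∑ P ∈ irr F d, (d : ℂ) * φ P ^ (n / d) := by
    unfold psiC
    rw [← Nat.cons_self_properDivisors hn, sum_cons, Nat.div_self (Nat.pos_of_ne_zero hn),
      mul_sum]
    simp only [pow_one]
  have e2 : ‖∑ d ∈ n.properDivisors, ∑ P ∈ irr F d, (d : ℂ) * φ P ^ (n / d)‖ ≤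
      2 * (Nat.card F : ℝ) ^ (n / 2) := by
    calc ‖∑ d ∈ n.properDivisors, ∑ P ∈ irr F d, (d : ℂ) * φ P ^ (n / d)‖ ≤
          ∑ d ∈ n.properDivisors, ((d * #(irr F d) : ℕ) : ℝ) := by
          refine (norm_sum_le _ _).trans (sum_le_sum fun d _ => ?_)
          refine (norm_sum_le _ _).trans ?_
          have h3 : ∀ P ∈ irr F d, ‖(d : ℂ) * φ P ^ (n / d)‖ ≤ (d : ℝ) := by
            intro P _
            rw [norm_mul, norm_pow, Complex.norm_natCast]
            exact mul_le_of_le_one_right (Nat.cast_nonneg _) (pow_le_one₀ (norm_nonneg _) (hφ P))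
          refine (sum_le_card_nsmul _ _ _ h3).trans (le_of_eq ?_)
          rw [nsmul_eq_mul]
          push_cast
          ring
      _ ≤ _ := by
          have h4 := prop_le (F := F) h2 n
          rw [← Nat.cast_sum]
          exact_mod_cast h4
  have e3 : (n : ℝ) * ‖∑ P ∈ irr F n, φ P‖ = ‖(n : ℂ) * ∑ P ∈ irr F n, φ P‖ := by
    rw [norm_mul, Complex.norm_natCast]
  rw [e3]
  have e4 : (n : ℂ) * ∑ P ∈ irr F n, φ P = psiC φ n -
      ∑ d ∈ n.properDivisors, ∑ P ∈ irr F d, (d : ℂ) * φ P ^ (n / d) := by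
    rw [e1]
    ring
  rw [e4]
  exact (norm_sub_le _ _).trans (add_le_add_right e2 _)

theorem tChs (h1 : StmtSuSy.{0}) (h2 : StmtSuPsi.{0}) (h3 : StmtPeChr.{0}) (h4 : StmtPeExt.{0})
    (h5 : StmtPeSyl.{0}) (h6 : S_Nir) : S_Chs := by
  intro F _ _ hq4 C ε hε
  have hq : 2 ∣ Nat.card F - 1 := (by norm_num : 2 ∣ 4).trans hq4
  obtain ⟨hcs, -, hrc⟩ := h5 F hq
  have hR := (hrc hq4).2
  obtain ⟨n6, -⟩ := h6 F
  have hq5 : 4 ≤ Nat.card F := by
    have hc : 1 < Nat.card F := Finite.one_lt_card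
    obtain ⟨c, hc'⟩ := hq4
    have : c ≠ 0 := by
      rintro rfl
      omega
    omega
  refine ⟨max 4 (max (40 * C + 1) ⌈(60 * C + 4 : ℝ) / ε⌉₊), fun n hn ι _ _ pr hpr hd => ?_⟩
  have hn4 : 4 ≤ n := (le_max_left _ _).trans hn
  have hnC : 40 * C + 1 ≤ n := ((le_max_left _ _).trans (le_max_right _ _)).trans hn
  have hnε : (60 * C + 4 : ℝ) / ε ≤ n := by
    refine (Nat.le_ceil _).trans ?_
    exact_mod_cast ((le_max_right _ _).trans (le_max_right _ _)).trans hn
  have hsq := sq_le hn4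
  set q := Nat.card F with hqd
  set m : ℕ := (∏ b, pr b).natDegree with hm
  have hmC : m ≤ C * (n + 1) := by
    rw [hm, pewei_natDegree hpr]
    exact hd
  have hm1 : 1 ≤ m := by
    rw [hm, pewei_natDegree hpr]
    obtain ⟨b⟩ := ‹Nonempty ι›
    exact (Nat.succ_le_of_lt (hpr.irr b).natDegree_pos).trans
      (Finset.single_le_sum (f := fun b => (pr b).natDegree) (fun _ _ => Nat.zero_le _)
        (Finset.mem_univ b))
  have h4n : 2 ^ n * 2 ^ n ≤ q ^ n := by
    calc 2 ^ n * 2 ^ n = 4 ^ n := by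
          rw [← mul_pow]
          norm_num
      _ ≤ q ^ n := Nat.pow_le_pow_left hq5 n
  have h2n : 16 ≤ 2 ^ n := by nlinarith
  have h2q : 2 ^ n ≤ q ^ n := (Nat.le_mul_of_pos_right _ (by omega)).trans h4n
  have hm20 : 20 * m < q ^ n := by
    have e1 : 20 * m ≤ 40 * C * n := by nlinarith
    have e2 : 40 * C * n < n * n := by nlinarith
    omega
  have hgood := pewei_good h3 h4 hq cs hcs hR pr hpr 0 n (by omega) hm1 hm20
    (h2n.trans h2q)
  rw [← hqd, ← hm] at hgood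
  have hsplit := psi_split (F := F) h2 (n := n) (by omega) (phE cs pr 0) (phi_norm pr)
  have hsum : ∑ P ∈ irr F n, phE cs pr 0 P = ((∑ P ∈ irr F n, fch pr P : ℝ) : ℂ) := by
    rw [Complex.ofReal_sum]
    refine sum_congr rfl fun P hP => ?_
    have hP2 : (P.Monic ∧ P.natDegree = n) ∧ Irreducible P := by
      classical
      unfold irr at hP
      rwa [mem_filter, mem_mon] at hP
    exact phi_eq h1 hq hcs pr hpr P hP2.1.1 hP2.2
  rw [hsum, Complex.norm_real, Real.norm_eq_abs] at hsplit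
  set A := |∑ P ∈ irr F n, fch pr P| with hA
  set I : ℝ := (#(irr F n) : ℝ) with hI
  have hN : (q : ℝ) ^ n ≤ 2 * n * I := n6 n hn4
  set X := Real.sqrt ((q : ℝ) ^ n) with hX
  have hq0 : (0 : ℝ) ≤ (q : ℝ) ^ n := by positivity
  have hXX : X * X = (q : ℝ) ^ n := Real.mul_self_sqrt hq0
  have hX0 : 0 ≤ X := Real.sqrt_nonneg _
  have hX2 : (2 : ℝ) ^ n ≤ X := by
    rw [hX]
    refine Real.le_sqrt_of_sq_le ?_
    rw [pow_two]
    exact_mod_cast h4n
  have hXs : (Nat.sqrt (q ^ n) : ℝ) ≤ X := by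
    have := Real.nat_sqrt_le_real_sqrt (a := q ^ n)
    rw [hX]
    exact_mod_cast this
  have hXh : (q : ℝ) ^ (n / 2) ≤ X := by
    rw [hX]
    refine Real.le_sqrt_of_sq_le ?_
    rw [← pow_mul]
    refine pow_le_pow_right₀ ?_ (by omega)
    have : 1 ≤ q := by omega
    exact_mod_cast this
  have hn0 : (4 : ℝ) ≤ n := by exact_mod_cast hn4
  have hmR : (m : ℝ) ≤ C * (n + 1) := by exact_mod_cast hmC
  have hm0 : (0 : ℝ) ≤ m := Nat.cast_nonneg m
  have hC0 : (0 : ℝ) ≤ C := Nat.cast_nonneg C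
  have k1 : n * A ≤ (15 * (C * (n + 1)) + 2) * X := by
    have e1 : 15 * (m : ℝ) * Nat.sqrt (q ^ n) ≤ 15 * (C * (n + 1)) * X := by
      have e2 : 15 * (m : ℝ) ≤ 15 * (C * (n + 1)) := by linarith
      exact mul_le_mul e2 hXs (Nat.cast_nonneg _) (by positivity)
    calc n * A ≤ _ := hsplit
      _ ≤ 15 * (C * (n + 1)) * X + 2 * X := add_le_add (hgood.trans e1) (by linarith)
      _ = _ := by ring
  have k2 : 2 * (15 * (C * (n + 1)) + 2) ≤ ε * X := by
    have e1 : 2 * (15 * ((C : ℝ) * (n + 1)) + 2) ≤ (60 * C + 4) * n := by nlinarith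
    have e2 : (60 * (C : ℝ) + 4) ≤ ε * n := by
      rw [div_le_iff₀ hε] at hnε
      linarith
    have e3 : (60 * (C : ℝ) + 4) * n ≤ ε * n * n := mul_le_mul_of_nonneg_right e2 (by linarith)
    have e4 : (n : ℝ) * n ≤ X := by
      refine le_trans ?_ hX2
      exact_mod_cast hsq
    calc 2 * (15 * ((C : ℝ) * (n + 1)) + 2) ≤ ε * n * n := e1.trans e3
      _ = ε * (n * n) := by ring
      _ ≤ ε * X := mul_le_mul_of_nonneg_left e4 hε.le
  have k3 : 2 * (n * A) ≤ ε * (2 * n * I) := by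
    calc 2 * (n * A) ≤ 2 * ((15 * (C * (n + 1)) + 2) * X) := by linarith
      _ = (2 * (15 * (C * (n + 1)) + 2)) * X := by ring
      _ ≤ ε * X * X := mul_le_mul_of_nonneg_right k2 hX0
      _ = ε * (X * X) := by ring
      _ = ε * (q : ℝ) ^ n := by rw [hXX]
      _ ≤ _ := mul_le_mul_of_nonneg_left hN hε.le
  have k4 : (2 * n) * A ≤ (2 * n) * (ε * I) := by linarith
  exact le_of_mul_le_mul_left k4 (by linarith)

end Pool.Agent.MP72S.Lv
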