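import Pool.Agent.Lib.MP_72e2e6_nt.Sm.G.SpecC

/-!
# MP_72e2e6_nt, `Sm`, block G, module `Cmm`: inertia and Frobenius operators commute
-/

set_option autoImplicit false

namespace Pool.Agent.MP72S.Lv

open Finset

private theorem add_self_two {N : Type} [AddCommGroup N] {u : N} (h : 2 • u = 0) : u + u = 0 := by
  rwa [two_nsmul] at h

private theorem tw_pow {G N : Type} [Group G] [AddCommGroup N] [DistribMulAction G N]
    {χ : G → ZMod 2} (hχ : ∀ σ τ, χ (σ * τ) = χ σ + χ τ) (g : G) (n : ℕ) (y : N) :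
    tw χ (g ^ n * g) y = tw χ (g ^ n) (tw χ g y) :=
  tw_mul (hχ _ _) y

private theorem tw_one' {G N : Type} [Group G] [AddCommGroup N] [DistribMulAction G N]
    {χ : G → ZMod 2} (hχ : ∀ σ τ, χ (σ * τ) = χ σ + χ τ) (y : N) : tw χ 1 y = y := by
  have h : χ 1 = 0 := by
    have h1 := hχ 1 1
    rw [mul_one] at h1
    exact add_eq_left.1 h1.symm
  rw [tw, h, sg_zero', one_smul]

/-- If `a (a y) = y + u` with `u` fixed of order two then `a ^ 4` fixes `y`. -/
private theorem tw_four {G N : Type} [Group G] [AddCommGroup N] [DistribMulAction G N]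
    {χ : G → ZMod 2} (hχ : ∀ σ τ, χ (σ * τ) = χ σ + χ τ) (g : G) {y u : N}
    (hu : 2 • u = 0) (hf : tw χ g u = u) (hy : tw χ g (tw χ g y) = y + u) (n : ℕ) :
    tw χ (g ^ (4 * n + 1)) y = tw χ g y := by
  have h2 : ∀ w : N, tw χ (g ^ 2) w = tw χ g (tw χ g w) := by
    intro w
    rw [pow_two, tw_mul (hχ _ _)]
  have h4 : tw χ (g ^ 4) y = y := by
    rw [show g ^ 4 = g ^ 2 * g ^ 2 by rw [← pow_add], tw_mul (hχ _ _), h2 y, hy, tw_add, h2, h2,
      hy, hf, hf, add_assoc, add_self_two hu, add_zero]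
  have h4n : tw χ (g ^ (4 * n)) y = y := by
    induction n with
    | zero => rw [mul_zero, pow_zero, tw_one' hχ]
    | succ n ih => rw [Nat.mul_succ, pow_add, tw_mul (hχ _ _), h4, ih]
  rw [pow_succ', tw_mul (hχ _ _), h4n]

theorem tCmm (_h1 : S_Msa) : S_Cmm := by
  intro G N P _ _ _ _ D hA χ hχ g h q hq hrel L L' hL hL' x
  obtain ⟨Q, hQ⟩ := hA.dvs x.v
  obtain ⟨R, hR⟩ := hA.dvs Q
  have htw : ∀ (σ : G) (y : VN N), tw χ σ y.v = y.v := fun σ y => tw_two hA.tri y.two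
  have hP1 : 2 • (tw χ g R - R) = (L x).v := by
    rw [smul_sub, ← tw_nsmul, hR, hL x Q hQ]
  have hP2 : 2 • (tw χ h R - R) = (L' x).v := by
    rw [smul_sub, ← tw_nsmul, hR, hL' x Q hQ]
  have e1 := hL' (L x) _ hP1
  have e2 := hL (L x) _ hP1
  have e3 := hL (L' x) _ hP2
  set P1 := tw χ g R - R with hP1d
  set P2 := tw χ h R - R with hP2d
  have aR : tw χ g R = R + P1 := by rw [hP1d]; abel
  have bR : tw χ h R = R + P2 := by rw [hP2d]; abel
  have bP1 : tw χ h P1 = P1 + (L' (L x)).v := by rw [e1]; abel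
  have aP1 : tw χ g P1 = P1 + (L (L x)).v := by rw [e2]; abel
  have aP2 : tw χ g P2 = P2 + (L (L' x)).v := by rw [e3]; abel
  obtain ⟨n, rfl⟩ : ∃ n, q = 4 * n + 1 := ⟨q / 4, by omega⟩
  have aqR : tw χ (g ^ (4 * n + 1)) R = R + P1 := by
    have hu : 2 • ((L x).v + (L (L x)).v) = 0 := by
      rw [smul_add, VN.two, VN.two, add_zero]
    have hf : tw χ g ((L x).v + (L (L x)).v) = (L x).v + (L (L x)).v := by
      rw [tw_add, htw, htw]
    have hy : tw χ g (tw χ g R) = R + ((L x).v + (L (L x)).v) := by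
      rw [aR, tw_add, aR, aP1, ← hP1, two_nsmul]
      abel
    rw [tw_four hχ g hu hf hy n, aR]
  have aqP2 : tw χ (g ^ (4 * n + 1)) P2 = P2 + (L (L' x)).v := by
    have hy : tw χ g (tw χ g P2) = P2 + 0 := by
      rw [aP2, tw_add, aP2, htw, add_assoc, add_self_two (VN.two _)]
    rw [tw_four hχ g (smul_zero _) (tw_map_zero _ _) hy n, aP2]
  have k1 : tw χ (h * g) R = R + P2 + (P1 + (L' (L x)).v) := by
    rw [tw_mul (hχ _ _), aR, tw_add, bR, bP1]
  have k2 : tw χ (g ^ (4 * n + 1) * h) R = R + P1 + (P2 + (L (L' x)).v) := by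
    rw [tw_mul (hχ _ _), bR, tw_add, aqR, aqP2]
  rw [hrel] at k1
  rw [k2] at k1
  refine VN.inj ?_
  have k3 : R + P1 + P2 + (L (L' x)).v = R + P1 + P2 + (L' (L x)).v := by
    calc R + P1 + P2 + (L (L' x)).v = R + P1 + (P2 + (L (L' x)).v) := by abel
      _ = R + P2 + (P1 + (L' (L x)).v) := k1
      _ = _ := by abel
  exact add_left_cancel k3

end Pool.Agent.MP72S.Lv
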