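import Pool.Agent.Lib.MP_72e2e6_nt.Sm.G.SpecC

/-!
# MP_72e2e6_nt, `Sm`, block G, module `Dnz`: density
-/

set_option autoImplicit false

namespace Pool.Agent.MP72S.Lv

open Finset

theorem tDnz (h1 : S_Mop) (h2 : S_Dns) : S_Dnz := by
  intro G N P _ _ _ _ D hA hI S hS
  obtain ⟨hc, ⟨f, hf⟩, -, hsa, -⟩ := h1 D hA
  refine h2 (TT D) (VN N) hc f hf.alt hf.nd S (fun v x y => hsa f hf D.ch0 _ _ (hS.sg v) x y) ?_
  intro x hx
  obtain ⟨Q, hQ⟩ := hA.dvs x.v
  have hQ0 : 2 • Q ≠ 0 := by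
    intro h
    rw [hQ] at h
    exact hx (VN.inj h)
  have hQ4 : 4 • Q = 0 := by
    rw [show 4 = 2 * 2 from rfl, mul_smul, hQ, VN.two]
  have hQ4' : Q + Q + (Q + Q) = 0 := by
    rw [← hQ4]
    abel
  obtain ⟨v, hvS, hvi, hn1, hn2⟩ := hI Q hQ4 hQ0
  have key := hS.sg ⟨v, hvS, hvi⟩ x Q hQ
  rw [tw] at key
  rw [two_nsmul] at hQ
  refine ⟨⟨v, hvS, hvi⟩, ?_, ?_⟩
  · intro h
    rw [h, VN.v_zero] at key
    rcases zmod2 (D.ch0 (D.tau v)) with h0 | h0
    · rw [h0, sg_zero'] at key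
      exact hn1 (sub_eq_zero.1 key.symm)
    · rw [h0, sg_one'] at key
      refine hn2 ?_
      have h3 : -(D.tau v • Q) = Q := sub_eq_zero.1 key.symm
      rw [← h3, neg_neg, h3]
  · intro h
    rw [h, ← hQ] at key
    rcases zmod2 (D.ch0 (D.tau v)) with h0 | h0
    · rw [h0, sg_zero'] at key
      refine hn2 ?_
      have h3 : D.tau v • Q = Q + Q + Q := by
        rw [key]
        abel
      rw [h3, eq_neg_iff_add_eq_zero]
      rw [← hQ4']
      abel
    · rw [h0, sg_one'] at key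
      refine hn1 ?_
      have h3 : -(D.tau v • Q) = Q + Q + Q := by
        rw [key]
        abel
      have h4 : D.tau v • Q = -(Q + Q + Q) := by rw [← h3, neg_neg]
      rw [h4, neg_eq_iff_add_eq_zero, ← hQ4']
      abel

end Pool.Agent.MP72S.Lv
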