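import Pool.Agent.Lib.MP_72e2e6_nt.Sm.G.SpecB

/-!
# MP_72e2e6_nt, `Sm/G`, module `Eqz`: the symbols of the tuples are equidistributed
-/

set_option autoImplicit false

namespace Pool.Agent.MP72S.Lv

open Finset Polynomial MP72e2e6

private theorem eqzMem {F : Type} [Field F] [Finite F] {n : ℕ} {P : F[X]} :
    P ∈ irr F n ↔ (P.Monic ∧ P.natDegree = n) ∧ Irreducible P := by
  classical
  rw [irr, Finset.mem_filter, mem_mon]

private theorem eqzTup {P : Type} {m : ℕ} (Irr : ℕ → Finset P) (n : Fin m → ℕ) (z : Fin m → P) :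
    z ∈ tupF Irr n ↔ (∀ i, z i ∈ Irr (n i)) ∧ Function.Injective z := by
  simp [tupF, Fintype.mem_piFinset]

/-- The map from the places to the polynomials in a large degree. -/
private theorem eqzBij {G N P F : Type} [Group G] [TopologicalSpace G] [AddCommGroup N]
    [DistribMulAction G N] [Field F] [Finite F] (D : Dat G N P) (pi : P → F[X])
    (Irr : ℕ → Finset P) (hA : Ax D) (ar : Arith D pi Irr) (k : ℕ)
    (hk : ∀ v ∈ D.S, (pi v).natDegree < k) :
    (∀ v ∈ Irr k, v ≠ D.inf ∧ v ∉ D.S ∧ pi v ∈ irr F k) ∧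
      (∀ Q ∈ irr F k, ∃ v ∈ Irr k, pi v = Q) := by
  refine ⟨fun v hv => ?_, fun Q hQ => ?_⟩
  · obtain ⟨hS, hd⟩ := (ar.irr _ _).1 hv
    have hne : v ≠ D.inf := fun h => hS (by rw [h]; exact hA.infS)
    exact ⟨hne, hS, eqzMem.2 ⟨⟨(ar.mi v hne).1, hd⟩, (ar.mi v hne).2⟩⟩
  · obtain ⟨⟨hm, hd⟩, hi⟩ := eqzMem.1 hQ
    obtain ⟨v, _, rfl⟩ := ar.sur Q hm hi
    refine ⟨v, (ar.irr _ _).2 ⟨fun hS => ?_, hd⟩, rfl⟩
    have := hk v hS
    omega

theorem tEqz (h1 : S_Sym) (h2 : S_Tup) : S_Eqz := by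
  intro G N P F _ _ _ _ _ _ D pi Irr hA ar hq m ε hε
  classical
  have hfam : Fam (fun v : TT D => pi v.1) :=
    { inj := fun v w h => Subtype.ext (ar.inj _ _ v.2.2 w.2.2 h)
      monic := fun v => (ar.mi _ v.2.2).1
      irr := fun v => (ar.mi _ v.2.2).2 }
  obtain ⟨N₁, hN⟩ := h2 F hq (TT D) (fun v => pi v.1) hfam m ε hε
  refine ⟨N₁ + D.S.sup (fun v => (pi v).natDegree) + 1, fun n hn => ?_⟩
  have hlt : ∀ i, ∀ v ∈ D.S, (pi v).natDegree < n i := by
    intro i v hv
    have h3 : (pi v).natDegree ≤ D.S.sup fun v => (pi v).natDegree :=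
      Finset.le_sup (f := fun v => (pi v).natDegree) hv
    have h4 := hn i
    omega
  have hB := fun i => eqzBij D pi Irr hA ar (n i) (hlt i)
  have hcard : ∀ i, #(Irr (n i)) = #(irr F (n i)) := by
    intro i
    have h3 : (Irr (n i)).image pi = irr F (n i) := by
      ext Q
      rw [Finset.mem_image]
      constructor
      · rintro ⟨v, hv, rfl⟩
        exact ((hB i).1 v hv).2.2
      · intro hQ
        obtain ⟨v, hv, h⟩ := (hB i).2 Q hQ
        exact ⟨v, hv, h⟩
    rw [← h3, Finset.card_image_of_injOn]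
    intro v hv w hw h
    exact ar.inj v w ((hB i).1 v hv).1 ((hB i).1 w hw).1 h
  refine ⟨?_, ?_, ?_⟩
  · intro z hz i j hij
    obtain ⟨hz1, hz2⟩ := (eqzTup Irr n z).1 hz
    exact h1 D hA (z i) (z j) ((hB i).1 _ (hz1 i)).1 ((hB j).1 _ (hz1 j)).1
      fun h => hij (hz2 h)
  · have h3 : #(tupF Irr n) ≤ ∏ i, #(Irr (n i)) := by
      rw [tupF, ← Fintype.card_piFinset]
      exact Finset.card_filter_le _ _
    exact_mod_cast h3
  · intro α β hab
    have hinj : Set.InjOn (fun (z : Fin m → P) i => pi (z i)) (tupF Irr n : Set (Fin m → P)) := by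
      intro z hz w hw h
      obtain ⟨hz1, _⟩ := (eqzTup Irr n z).1 hz
      obtain ⟨hw1, _⟩ := (eqzTup Irr n w).1 hw
      funext i
      exact ar.inj _ _ ((hB i).1 _ (hz1 i)).1 ((hB i).1 _ (hw1 i)).1 (congrFun h i)
    have h3 := hN n (fun i => by have := hn i; omega)
      ((tupF Irr n).image fun z i => pi (z i)) (by
        intro z'
        rw [Finset.mem_image]
        constructor
        · rintro ⟨z, hz, rfl⟩
          obtain ⟨hz1, hz2⟩ := (eqzTup Irr n z).1 hz
          refine ⟨fun i => ((hB i).1 _ (hz1 i)).2.2, fun i j hij => hz2 ?_⟩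
          exact ar.inj _ _ ((hB i).1 _ (hz1 i)).1 ((hB j).1 _ (hz1 j)).1 hij
        · rintro ⟨h4, h5⟩
          choose z hz1 hz2 using fun i => (hB i).2 _ (h4 i)
          refine ⟨z, (eqzTup Irr n z).2 ⟨hz1, fun i j hij => h5 ?_⟩, funext hz2⟩
          rw [← hz2 i, ← hz2 j, hij]) α β hab
    rw [Finset.sum_image hinj] at h3
    have h4 : ∀ z ∈ tupF Irr n, bch α β (Az D z) (Bz D z) =
        bch α β (fun v i => syl cs (pi (z i)) (pi v.1))
          fun i j => syl cs (pi (z j)) (pi (z i)) := by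
      intro z hz
      obtain ⟨hz1, hz2⟩ := (eqzTup Irr n z).1 hz
      unfold bch
      congr 1
      · refine Finset.sum_congr rfl fun v _ => Finset.sum_congr rfl fun i _ => ?_
        rw [Az, ar.sym v.1 (z i) v.2.2 ((hB i).1 _ (hz1 i)).1]
        intro h
        exact ((hB i).1 _ (hz1 i)).2.1 (h ▸ v.2.1)
      · refine Finset.sum_congr rfl fun i _ => Finset.sum_congr rfl fun j hj => ?_
        have hij : i < j := (Finset.mem_filter.1 hj).2
        rw [Bz, ar.sym (z i) (z j) ((hB i).1 _ (hz1 i)).1 ((hB j).1 _ (hz1 j)).1]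
        intro h
        exact hij.ne (hz2 h)
    rw [Finset.sum_congr rfl fun z hz => by rw [h4 z hz]]
    refine h3.trans (le_of_eq ?_)
    congr 1
    exact Finset.prod_congr rfl fun i _ => by rw [hcard i]

end Pool.Agent.MP72S.Lv
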