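import Pool.Agent.Lib.MP_72e2e6_nt.Sm.G.SpecC

/-! # MP_72e2e6_nt, `Sm/G/Exp`: expansions in terms of the quadratic characters -/

set_option autoImplicit false

namespace Pool.Agent.MP72S.Lv

open Finset Polynomial MP72e2e6

private def br {N : Type} [AddCommGroup N] (a : ZMod 2) (u : N) : N := if a = 0 then 0 else u

private theorem br_add {N : Type} [AddCommGroup N] (a b : ZMod 2) {u : N} (hu : 2 • u = 0) :
    br (a + b) u = br a u + br b u := by
  rw [two_nsmul] at hu
  rcases zmod2 a with rfl | rfl <;> rcases zmod2 b with rfl | rfl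
  · simp [br]
  · simp [br]
  · simp [br]
  · rw [show (1 : ZMod 2) + 1 = 0 from rfl, br, if_pos rfl, br, if_neg one_ne_zero, hu]

private theorem br_zero {N : Type} [AddCommGroup N] (u : N) : br 0 u = 0 := if_pos rfl

private theorem br_two {N : Type} [AddCommGroup N] (a : ZMod 2) {u : N} (hu : 2 • u = 0) :
    2 • br a u = 0 := by
  unfold br
  split_ifs
  · exact smul_zero _
  · exact hu

private theorem sum_lc {G N : Type} [TopologicalSpace G] [AddCommGroup N] {κ : Type}
    (s : Finset κ) (f : κ → G → N) (hf : ∀ k ∈ s, IsLocallyConstant (f k)) :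
    IsLocallyConstant fun σ => ∑ k ∈ s, f k σ := by
  classical
  induction s using Finset.induction_on with
  | empty =>
    simp only [sum_empty]
    exact IsLocallyConstant.const (0 : N)
  | insert a s ha ih =>
    simp only [sum_insert ha]
    exact (hf a (mem_insert_self a s)).comp₂ (ih fun k hk => hf k (mem_insert_of_mem hk))
      (fun a b => a + b)

section

variable {G N P : Type} [Group G] [TopologicalSpace G] [AddCommGroup N] [DistribMulAction G N]
  {D : Dat G N P}

/-- (1) -/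
private theorem one (hA : Ax D) (v : P) (hv : v ≠ D.inf) :
    D.cst (D.phi v) = D.ch v (D.tau D.inf) := by
  classical
  have h := hA.rcp (D.ch v) D.cst (hA.chc v hv) hA.cstc
  rw [finsum_eq_sum_of_support_subset (s := {v, D.inf})] at h
  · rw [Finset.sum_pair hv] at h
    simp only [hA.cst_tau, mul_zero, add_zero, hA.ch_tau v hv, one_mul, hA.cst_inf, mul_one] at h
    rw [add_eq_zero_iff_eq_neg, ZModModule.neg_eq_self] at h
    exact h
  · intro w hw
    rw [Finset.coe_insert, Finset.coe_singleton]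
    by_contra hcon
    rw [Set.mem_insert_iff, Set.mem_singleton_iff, not_or] at hcon
    apply hw
    beta_reduce
    rw [hA.ch_tau' v w hv hcon.2 (Ne.symm hcon.1), hA.cst_tau, zero_mul, mul_zero, add_zero]

/-- (2) -/
private theorem two (hH : S_Hom) (hA : Ax D) (A : Finset P) (θ : G → N) (hinf : D.inf ∉ A)
    (hθ : IsHo θ) (hz : ∀ v, v ∉ A → v ≠ D.inf → θ (D.tau v) = 0) (σ : G) :
    θ σ = ∑ v ∈ A, br (D.ch v σ) (θ (D.tau v)) + br (D.cst σ) (θ (D.phi D.inf)) := by
  have hne : ∀ v ∈ A, v ≠ D.inf := fun v hv h => hinf (h ▸ hv)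
  have hd : IsHo fun σ => θ σ -
      (∑ v ∈ A, br (D.ch v σ) (θ (D.tau v)) + br (D.cst σ) (θ (D.phi D.inf))) := by
    refine ⟨hθ.lc.comp₂ (IsLocallyConstant.comp₂
      (sum_lc A (fun v σ => br (D.ch v σ) (θ (D.tau v))) ?_) ?_ (fun a b => a + b))
      (fun a b => a - b), ?_, ?_⟩
    · intro v hv
      exact (hA.chc v (hne v hv)).lc.comp fun a => br a (θ (D.tau v))
    · exact hA.cstc.lc.comp fun a => br a (θ (D.phi D.inf))
    · intro σ
      rw [smul_sub, hθ.two, smul_add, br_two _ (hθ.two _), add_zero, Finset.smul_sum,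
        Finset.sum_eq_zero fun v _ => br_two _ (hθ.two _), sub_zero]
    · intro σ τ
      have : ∑ v ∈ A, br (D.ch v (σ * τ)) (θ (D.tau v)) =
          ∑ v ∈ A, br (D.ch v σ) (θ (D.tau v)) + ∑ v ∈ A, br (D.ch v τ) (θ (D.tau v)) := by
        rw [← Finset.sum_add_distrib]
        apply Finset.sum_congr rfl
        intro v hv
        rw [(hA.chc v (hne v hv)).mul, br_add _ _ (hθ.two _)]
      rw [this, hA.cstc.mul, br_add _ _ (hθ.two _), hθ.mul]
      abel
  have ht : ∀ w, w ≠ D.inf → θ (D.tau w) -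
      (∑ v ∈ A, br (D.ch v (D.tau w)) (θ (D.tau v)) + br (D.cst (D.tau w)) (θ (D.phi D.inf))) =
        0 := by
    intro w hwi
    rw [hA.cst_tau]
    rw [br_zero, add_zero]
    by_cases hw : w ∈ A
    · rw [Finset.sum_eq_single w]
      · rw [hA.ch_tau w hwi, br, if_neg one_ne_zero, sub_self]
      · intro v hv hvw
        rw [hA.ch_tau' v w (hne v hv) hwi hvw, br, if_pos rfl]
      · intro h
        exact absurd hw h
    · rw [hz w hw hwi, zero_sub, neg_eq_zero]
      apply Finset.sum_eq_zero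
      intro v hv
      rw [hA.ch_tau' v w (hne v hv) hwi (fun h => hw (h ▸ hv)), br, if_pos rfl]
  have hp : θ (D.phi D.inf) - (∑ v ∈ A, br (D.ch v (D.phi D.inf)) (θ (D.tau v)) +
      br (D.cst (D.phi D.inf)) (θ (D.phi D.inf))) = 0 := by
    rw [Finset.sum_eq_zero, zero_add, hA.cst_inf, br, if_neg one_ne_zero, sub_self]
    intro v hv
    rw [hA.ch_inf v (hne v hv), br, if_pos rfl]
  generalize hρ : (fun σ => θ σ -
      (∑ v ∈ A, br (D.ch v σ) (θ (D.tau v)) + br (D.cst σ) (θ (D.phi D.inf)))) = ρ at hd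
  have hρ' : ∀ σ, ρ σ = θ σ -
      (∑ v ∈ A, br (D.ch v σ) (θ (D.tau v)) + br (D.cst σ) (θ (D.phi D.inf))) := fun σ => by
    rw [← hρ]
  have ht' : ∀ w, w ≠ D.inf → ρ (D.tau w) = 0 := fun w hw => (hρ' _).trans (ht w hw)
  have hp' : ρ (D.phi D.inf) = 0 := (hρ' _).trans hp
  have hti : ρ (D.tau D.inf) = 0 := by
    apply hA.e_nd _ (hd.two _)
    intro s hs
    have he0 : D.e 0 s = 0 := by
      have := hA.e_add 0 0 s (smul_zero _) (smul_zero _) hs
      rw [add_zero] at this
      exact left_eq_add.1 this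
    have hch : IsCh fun σ => D.e (ρ σ) s := by
      refine ⟨hd.lc.comp fun a => D.e a s, fun σ τ => ?_⟩
      simp only [hd.mul]
      exact hA.e_add _ _ _ (hd.two σ) (hd.two τ) hs
    have h := hA.rcp _ D.cst hch hA.cstc
    rw [finsum_eq_single _ D.inf] at h
    · simpa only [hA.cst_tau, mul_zero, add_zero, hA.cst_inf, mul_one] using h
    · intro w hw
      beta_reduce
      rw [ht' w hw, he0, hA.cst_tau, zero_mul, mul_zero, add_zero]
  have h0 : ρ σ = 0 := by
    refine (hH D hA).1 ρ hd (fun v => ?_) hp' σ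
    by_cases hv : v = D.inf
    · rw [hv]
      exact hti
    · exact ht' v hv
  exact sub_eq_zero.1 ((hρ' σ).symm.trans h0)

/-- the element of `N` as an additive map -/
private def vh (N : Type) [AddCommGroup N] : VN N →+ N where
  toFun := VN.v
  map_zero' := VN.v_zero
  map_add' := VN.v_add

private theorem vh_eq (y : VN N) : y.v = vh N y := rfl

private theorem vh_smul (a : ZMod 2) (y : VN N) : vh N (a • y) = br a (vh N y) := by
  rcases zmod2 a with rfl | rfl
  · rw [zero_smul, map_zero, br, if_pos rfl]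
  · rw [one_smul, br, if_neg one_ne_zero]

/-- (4) -/
private theorem four (hH : S_Hom) (hM : S_Mop) (hA : Ax D) (S : Opr (TT D) (VN N))
    (hS : IsSy D S) (g : G) (L : Module.End (ZMod 2) (VN N)) (hL : IsMo D.ch0 g L) (x : VN N) :
    L x = ∑ v, D.ch v.1 g • S.σ v x + D.cst g • S.Λ x := by
  classical
  obtain ⟨-, -, m3, -, -, m6, -, -⟩ := hM D hA
  obtain ⟨Q, hQ⟩ := hA.dvs x.v
  choose M hMo using fun σ => m3 D.ch0 σ
  have hth : ∀ σ, tw D.ch0 σ Q - Q = (M σ x).v := fun σ => (hMo σ x Q hQ).symm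
  have hθ : IsHo fun σ => tw D.ch0 σ Q - Q := by
    refine ⟨?_, ?_, ?_⟩
    · exact hA.ch0c.lc.comp₂ (hA.act Q) (fun a b => sg a b - Q)
    · intro σ
      rw [hth]
      exact VN.two _
    · intro σ τ
      rw [m6 D.ch0 σ τ (M σ) (M τ) (hA.ch0c.mul σ τ) (hMo σ) (hMo τ) x Q hQ |>.symm, hth, hth]
      rfl
  have h2 := two hH hA (D.S.erase D.inf) (fun σ => tw D.ch0 σ Q - Q) (Finset.notMem_erase _ _) hθ
    (fun v hv hvi => ?_) g
  · apply VN.inj
    rw [hL x Q hQ, h2]
    rw [vh_eq, map_add, map_sum, vh_smul]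
    have h3 : ∀ v : TT D, vh N (D.ch v.1 g • S.σ v x) =
        br (D.ch v.1 g) (tw D.ch0 (D.tau v.1) Q - Q) := by
      intro v
      rw [vh_smul]
      exact congrArg _ (hS.sg v x Q hQ)
    rw [Finset.sum_congr rfl fun v _ => h3 v,
      Finset.sum_subtype (D.S.erase D.inf) (p := fun v => v ∈ D.S ∧ v ≠ D.inf)
      (fun v => by rw [Finset.mem_erase, and_comm])
      (fun v => br (D.ch v g) (tw D.ch0 (D.tau v) Q - Q))]
    congr 1
    exact congrArg _ (hS.la x Q hQ).symm
  · have hvS : v ∉ D.S := fun h => hv (Finset.mem_erase.2 ⟨hvi, h⟩)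
    beta_reduce
    rw [tw, hA.unr v hvS, hA.ch0_tau v hvS, sg_zero', sub_self]

end

theorem tExp (hH : S_Hom) (hM : S_Mop) : S_Exp := by
  intro G N P _ _ _ _ D hA
  refine ⟨one hA, two hH hA, ?_, four hH hM hA⟩
  obtain ⟨-, -, m3, -⟩ := hM D hA
  choose M hMo using fun σ => m3 D.ch0 σ
  exact ⟨⟨fun v => M (D.tau v.1), M (D.phi D.inf), fun v v' => D.ch v'.1 (D.phi v.1),
    fun v => D.ch v.1 (D.tau D.inf)⟩, fun v => hMo _, hMo _, fun _ _ => rfl, fun _ => rfl⟩

end Pool.Agent.MP72S.Lv
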