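import Pool.Agent.Lib.MP_72e2e6_nt.Sm.G.SpecA

/-!
# MP_72e2e6_nt, `Sm`, block G, module `Fct`: the number of solutions is a power of four
-/

set_option autoImplicit false

namespace Pool.Agent.MP72S.Lv

open Finset

section

variable {ι V : Type} [Fintype ι] [AddCommGroup V] [Module (ZMod 2) V]

/-- The hypotheses of `StmtPgFrm` follow from `S_Two`. -/
private theorem fct_frm (hTwo : S_Two) (hPg : MP72e2e6.StmtPgFrm.{0}) (hV : Nat.card V = 4)
    (f : V →ₗ[ZMod 2] Module.Dual (ZMod 2) V) (alt : ∀ x, f x x = 0)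
    (nd : ∀ x, (∀ y, f x y = 0) → x = 0) (h : ι → V) (h₀ : V)
    (σ : ι → Module.End (ZMod 2) V) (Λ : Module.End (ZMod 2) V)
    (inj : ∀ β y, σ β y = 0 → y = 0)
    (sa : ∀ β x y, f x (σ β y) = f (σ β x) y) (saΛ : ∀ x y, f x (Λ y) = f (Λ x) y)
    (l : ι → ι → ZMod 2) (lsym : ∀ β β', l β β' = l β' β) (D : ι → ZMod 2)
    (comm : ∀ β y, σ β (∑ β', l β β' • σ β' y + D β • Λ y) =
      ∑ β', l β β' • σ β' (σ β y) + D β • Λ (σ β y))
    (hv : ∀ β x, f x (σ β x) = f (h β) x) (hv0 : ∀ x, f x (Λ x) = f h₀ x)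
    (tinj : ∀ y, ∑ β, D β • σ β y = 0 → y = 0)
    (tcomm : ∀ y, ∑ β, D β • σ β (Λ y) = Λ (∑ β, D β • σ β y)) :
    ∃ a : ℕ, Nat.card {c : ι → V // ∑ β, D β • σ β (c β) = 0 ∧
      ∀ β, ∑ β', l β β' • σ β' (c β' - c β) = D β • Λ (c β)} = 4 ^ a := by
  haveI : Finite V := Nat.finite_of_card_ne_zero (by rw [hV]; norm_num)
  have h2 := (hTwo V hV f alt nd).2
  -- the operators `M β`
  let M : ι → Module.End (ZMod 2) V := fun β => ∑ β', l β β' • σ β' + D β • Λ
  have hM : ∀ β x, M β x = ∑ β', l β β' • σ β' x + D β • Λ x := by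
    intro β x
    simp [M]
  have h3 := fun β => h2 (σ β) (M β) (sa β) (by
      intro x y
      rw [hM, hM]
      simp only [map_add, map_sum, map_smul, LinearMap.add_apply, LinearMap.sum_apply,
        LinearMap.smul_apply, sa, saΛ]) (inj β)
    (by
      intro x
      rw [hM, hM]
      exact comm β x) (h β) (∑ β', l β β' • h β' + D β • h₀) (hv β)
    (by
      intro x
      rw [hM]
      simp only [map_add, map_sum, map_smul, LinearMap.add_apply, LinearMap.sum_apply,
        LinearMap.smul_apply, hv, hv0])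
  let τ : Module.End (ZMod 2) V := ∑ β, D β • σ β
  have hτ : ∀ x, τ x = ∑ β, D β • σ β x := by
    intro x
    simp [τ]
  have h4 := h2 τ Λ (by
      intro x y
      rw [hτ, hτ]
      simp only [map_sum, map_smul, LinearMap.sum_apply, LinearMap.smul_apply, sa]) saΛ
    (fun x hx => tinj x (by rw [← hτ]; exact hx))
    (by
      intro x
      rw [hτ, hτ]
      exact tcomm x) (∑ β, D β • h β) h₀
    (by
      intro x
      rw [hτ]
      simp only [map_sum, map_smul, LinearMap.sum_apply, LinearMap.smul_apply, hv]) hv0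
  refine hPg ι V f nd alt h h₀ σ Λ inj sa saΛ l lsym D comm ?_ ?_ ?_ ?_ ?_ tinj
  · intro β x
    have := (h3 β).1 x
    rw [hM, hM] at this
    exact this
  · intro β
    exact (h3 β).2.1
  · intro β
    have := (h3 β).2.2
    rw [hM] at this
    exact this
  · have := h4.2.1
    rw [hτ] at this
    exact this
  · exact h4.2.2

end

section

variable {T V : Type} [Fintype T] [AddCommGroup V] [Module (ZMod 2) V] {m : ℕ}

private def fctS (S : Opr T V) : T ⊕ Fin m → Module.End (ZMod 2) V :=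
  Sum.elim S.σ (fun _ => LinearMap.id)

private def fctL (S : Opr T V) (A : T → Fin m → ZMod 2) (B : Fin m → Fin m → ZMod 2) :
    T ⊕ Fin m → T ⊕ Fin m → ZMod 2 :=
  Sum.elim (fun v => Sum.elim (fun v' => S.l v v') (fun i => A v i))
    (fun i => Sum.elim (fun v => A v i) (fun j => if i = j then 0 else B i j))

private def fctD (S : Opr T V) (n : Fin m → ZMod 2) : T ⊕ Fin m → ZMod 2 := Sum.elim S.d n

private theorem fct_sum (S : Opr T V) (A : T → Fin m → ZMod 2) (B : Fin m → Fin m → ZMod 2)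
    (v : T) (y : T ⊕ Fin m → V) :
    ∑ β', fctL S A B (Sum.inl v) β' • fctS S β' (y β') =
      ∑ v', S.l v v' • S.σ v' (y (Sum.inl v')) + ∑ i, A v i • y (Sum.inr i) := by
  rw [Fintype.sum_sum_type]
  rfl

private theorem fct_sum' (S : Opr T V) (A : T → Fin m → ZMod 2) (B : Fin m → Fin m → ZMod 2)
    (i : Fin m) (y : T ⊕ Fin m → V) (h0 : y (Sum.inr i) = 0) :
    ∑ β', fctL S A B (Sum.inr i) β' • fctS S β' (y β') =
      ∑ v, A v i • S.σ v (y (Sum.inl v)) + ∑ j, B i j • y (Sum.inr j) := by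
  rw [Fintype.sum_sum_type]
  refine congrArg₂ (· + ·) rfl ?_
  refine Finset.sum_congr rfl fun j _ => ?_
  change (if i = j then (0 : ZMod 2) else B i j) • y (Sum.inr j) = B i j • y (Sum.inr j)
  by_cases hij : i = j
  · subst hij
    rw [h0, smul_zero, smul_zero]
  · rw [if_neg hij]

private theorem fct_sumD (S : Opr T V) (n : Fin m → ZMod 2) (y : T ⊕ Fin m → V) :
    ∑ β', fctD S n β' • fctS S β' (y β') =
      ∑ v, S.d v • S.σ v (y (Sum.inl v)) + ∑ i, n i • y (Sum.inr i) := by
  rw [Fintype.sum_sum_type]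
  rfl

/-- The translated solution. -/
private def fctY (x : Unk T V m) : T ⊕ Fin m → V :=
  Sum.elim (fun v => x.1 v - x.2.1) (fun i => x.2.2 i - x.2.1)

private theorem fct_iff (S : Opr T V) (n : Fin m → ZMod 2) (A : T → Fin m → ZMod 2)
    (B : Fin m → Fin m → ZMod 2) (x : Unk T V m) :
    S.Sol n A B x ↔ (∑ β, fctD S n β • fctS S β (fctY x β) = 0 ∧
      ∀ β, ∑ β', fctL S A B β β' • fctS S β' (fctY x β' - fctY x β) =
        fctD S n β • S.Λ (fctY x β)) := by
  have hb : ∀ v, (∑ v', S.l v v' • S.σ v' (x.1 v' - x.1 v) + ∑ i, A v i • (x.2.2 i - x.1 v) +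
      S.d v • S.Λ (x.2.1 - x.1 v) = 0) ↔
      ∑ β', fctL S A B (Sum.inl v) β' • fctS S β' (fctY x β' - fctY x (Sum.inl v)) =
        fctD S n (Sum.inl v) • S.Λ (fctY x (Sum.inl v)) := by
    intro v
    rw [fct_sum S A B v (fun β' => fctY x β' - fctY x (Sum.inl v))]
    have e1 : ∀ v', fctY x (Sum.inl v') - fctY x (Sum.inl v) = x.1 v' - x.1 v := fun v' =>
      sub_sub_sub_cancel_right _ _ _
    have e2 : ∀ i, fctY x (Sum.inr i) - fctY x (Sum.inl v) = x.2.2 i - x.1 v := fun i =>
      sub_sub_sub_cancel_right _ _ _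
    simp only [e1, e2]
    have e3 : fctD S n (Sum.inl v) • S.Λ (fctY x (Sum.inl v)) =
        -(S.d v • S.Λ (x.2.1 - x.1 v)) := by
      rw [← smul_neg, ← map_neg, neg_sub]
      rfl
    rw [e3, eq_neg_iff_add_eq_zero]
  have hg : ∀ i, (∑ v, A v i • S.σ v (x.1 v - x.2.2 i) + ∑ j, B i j • (x.2.2 j - x.2.2 i) +
      n i • S.Λ (x.2.1 - x.2.2 i) = 0) ↔
      ∑ β', fctL S A B (Sum.inr i) β' • fctS S β' (fctY x β' - fctY x (Sum.inr i)) =
        fctD S n (Sum.inr i) • S.Λ (fctY x (Sum.inr i)) := by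
    intro i
    rw [fct_sum' S A B i (fun β' => fctY x β' - fctY x (Sum.inr i)) (sub_self _)]
    have e1 : ∀ v', fctY x (Sum.inl v') - fctY x (Sum.inr i) = x.1 v' - x.2.2 i := fun v' =>
      sub_sub_sub_cancel_right _ _ _
    have e2 : ∀ j, fctY x (Sum.inr j) - fctY x (Sum.inr i) = x.2.2 j - x.2.2 i := fun j =>
      sub_sub_sub_cancel_right _ _ _
    simp only [e1, e2]
    have e3 : fctD S n (Sum.inr i) • S.Λ (fctY x (Sum.inr i)) =
        -(n i • S.Λ (x.2.1 - x.2.2 i)) := by
      rw [← smul_neg, ← map_neg, neg_sub]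
      rfl
    rw [e3, eq_neg_iff_add_eq_zero]
  rw [fct_sumD S n (fctY x)]
  constructor
  · rintro ⟨h1, h2⟩
    refine ⟨h1, ?_⟩
    rintro (v | i)
    · exact (hb v).1 (h2.bad v)
    · exact (hg i).1 (h2.good i)
  · rintro ⟨h1, h2⟩
    exact ⟨h1, fun v => (hb v).2 (h2 (Sum.inl v)), fun i => (hg i).2 (h2 (Sum.inr i))⟩

private def fctE (S : Opr T V) (n : Fin m → ZMod 2) (A : T → Fin m → ZMod 2)
    (B : Fin m → Fin m → ZMod 2) :
    {x : Unk T V m // S.Sol n A B x} ≃ V × {c : T ⊕ Fin m → V //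
      ∑ β, fctD S n β • fctS S β (c β) = 0 ∧
      ∀ β, ∑ β', fctL S A B β β' • fctS S β' (c β' - c β) = fctD S n β • S.Λ (c β)} where
  toFun x := (x.1.2.1, ⟨fctY x.1, (fct_iff S n A B x.1).1 x.2⟩)
  invFun p := ⟨(fun v => p.2.1 (Sum.inl v) + p.1, p.1, fun i => p.2.1 (Sum.inr i) + p.1), by
    rw [fct_iff]
    have h1 : fctY ((fun v => p.2.1 (Sum.inl v) + p.1, p.1,
        fun i => p.2.1 (Sum.inr i) + p.1) : Unk T V m) = p.2.1 := by
      funext β
      rcases β with v | i
      · exact add_sub_cancel_right _ _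
      · exact add_sub_cancel_right _ _
    rw [h1]
    exact p.2.2⟩
  left_inv x := by
    apply Subtype.ext
    refine Prod.ext ?_ (Prod.ext rfl ?_)
    · funext v
      exact sub_add_cancel _ _
    · funext i
      exact sub_add_cancel _ _
  right_inv p := by
    refine Prod.ext rfl (Subtype.ext ?_)
    funext β
    rcases β with v | i
    · exact add_sub_cancel_right _ _
    · exact add_sub_cancel_right _ _

end

theorem tFct (hTwo : S_Two) (hPg : MP72e2e6.StmtPgFrm.{0}) : S_Fct := by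
  intro T V _ _ _ hV f alt nd m S n tm sa saΛ lsym A B Bsym comm tcomm
  have h1 := (hTwo V hV f alt nd).1
  choose hσ hσ1 using fun v => h1 (S.σ v) (sa v)
  obtain ⟨h₀, hh₀⟩ := h1 S.Λ saΛ
  obtain ⟨a, ha⟩ := fct_frm hTwo hPg hV f alt nd
    (Sum.elim hσ (fun _ => 0) : T ⊕ Fin m → V) h₀ (fctS S) S.Λ
    (by
      rintro (v | i) y hy
      · exact tm.inj v y hy
      · exact hy)
    (by
      rintro (v | i) x y
      · exact sa v x y
      · rfl)
    saΛ (fctL S A B)
    (by
      rintro (v | i) (v' | j)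
      · exact lsym v v'
      · rfl
      · rfl
      · change (if i = j then (0 : ZMod 2) else B i j) = if j = i then (0 : ZMod 2) else B j i
        by_cases hij : i = j
        · rw [if_pos hij, if_pos hij.symm]
        · rw [if_neg hij, if_neg (Ne.symm hij), Bsym i j hij])
    (fctD S n)
    (by
      rintro (v | i) y
      · have e1 := fct_sum S A B v (fun _ => y)
        have e2 := fct_sum S A B v (fun _ => S.σ v y)
        have e3 := comm v y
        rw [Finset.sum_smul, Finset.sum_smul] at e3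
        have e4 : fctS S (Sum.inl v : T ⊕ Fin m) = S.σ v := rfl
        have e5 : fctD S n (Sum.inl v) = S.d v := rfl
        rw [e4, e5, e1, e2]
        exact e3
      · rfl)
    (by
      rintro (v | i) x
      · exact hσ1 v x
      · change f x x = f 0 x
        rw [alt, map_zero]
        rfl)
    hh₀
    (by
      intro y hy
      have e1 := fct_sumD S n (fun _ => y)
      rw [e1, ← Finset.sum_smul] at hy
      exact tm.inf y hy)
    (by
      intro y
      have e1 := fct_sumD S n (fun _ => y)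
      have e2 := fct_sumD S n (fun _ => S.Λ y)
      rw [e1, e2, ← Finset.sum_smul, ← Finset.sum_smul]
      exact (tcomm y).symm)
  refine ⟨a, ?_⟩
  rw [Nat.card_congr (fctE S n A B), Nat.card_prod, hV, ha, pow_succ, mul_comm]

end Pool.Agent.MP72S.Lv
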