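import Pool.Agent.Lib.MP_72e2e6_nt.Sm.G.SpecA

/-!
# MP_72e2e6_nt, `Sm`, block G: counting tuples of pairwise related elements
-/

set_option autoImplicit false

namespace Pool.Agent.MP72S.Lv

open Finset

open Classical in
private theorem tFew_E {U : Type} [Fintype U] (N L m : ℕ) (V : Finset U) (hV : #V = N) (w : U)
    (hw : w ∈ V) :
    #(univ.filter (fun u : Fin m → U => (∀ i, u i ∈ V) ∧ {i | u i = w}.ncard ≤ L)) ≤
      few N L m := by
  have h1 : (univ.filter (fun u : Fin m → U => (∀ i, u i ∈ V) ∧ {i | u i = w}.ncard ≤ L)) ⊆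
      (range (L + 1)).biUnion fun j => (powersetCard j (univ : Finset (Fin m))).biUnion fun I =>
        Fintype.piFinset (fun i => if i ∈ I then ({w} : Finset U) else V.erase w) := by
    intro u hu
    rw [mem_filter] at hu
    obtain ⟨-, hu1, hu2⟩ := hu
    have h3 : {i | u i = w}.ncard = #(univ.filter (fun i => u i = w)) := by
      rw [← Set.ncard_coe_finset]
      congr 1
      ext i
      simp
    rw [h3] at hu2
    simp only [mem_biUnion, mem_range, mem_powersetCard, Fintype.mem_piFinset]
    refine ⟨_, Nat.lt_succ_of_le hu2, univ.filter (fun i => u i = w), ⟨subset_univ _, rfl⟩,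
      fun i => ?_⟩
    by_cases h : u i = w
    · simp [h]
    · simp [h, hu1 i]
  have h2 : ∀ j : ℕ, ∀ I ∈ powersetCard j (univ : Finset (Fin m)),
      #(Fintype.piFinset (fun i => if i ∈ I then ({w} : Finset U) else V.erase w)) =
        (N - 1) ^ (m - j) := by
    intro j I hI
    rw [mem_powersetCard] at hI
    rw [Fintype.card_piFinset]
    have h3 : ∀ i : Fin m, #(if i ∈ I then ({w} : Finset U) else V.erase w) =
        if i ∈ I then 1 else (N - 1) := by
      intro i
      split_ifs
      · exact card_singleton w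
      · rw [card_erase_of_mem hw, hV]
    rw [prod_congr rfl fun i _ => h3 i, prod_ite, prod_const_one, one_mul, prod_const]
    congr 1
    have h4 : (univ.filter fun i => i ∉ I) = Iᶜ := by
      ext i
      simp
    rw [h4, card_compl, Fintype.card_fin, hI.2]
  refine (card_le_card h1).trans ?_
  refine card_biUnion_le.trans ?_
  unfold few
  refine sum_le_sum fun j _ => ?_
  refine card_biUnion_le.trans ?_
  rw [sum_congr rfl (h2 j), sum_const, card_powersetCard, card_univ, Fintype.card_fin,
    smul_eq_mul]

theorem tFew : S_Few := by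
  classical
  intro U hU R N hN hNU hR m L
  have : Fintype U := Fintype.ofFinite U
  have himg : ∀ u : Fin m → U, (∀ i j, R (u i) (u j)) → #(univ.image u) ≤ N := by
    intro u hu
    refine hR _ fun w hw w' hw' => ?_
    rw [mem_image] at hw hw'
    obtain ⟨i, -, rfl⟩ := hw
    obtain ⟨j, -, rfl⟩ := hw'
    exact hu i j
  have hsup : ∀ u : Fin m → U, (∀ i j, R (u i) (u j)) →
      ∃ V : Finset U, #V = N ∧ ∀ i, u i ∈ V := by
    intro u hu
    obtain ⟨V, hV1, -, hV2⟩ := exists_subsuperset_card_eq (subset_univ (univ.image u))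
      (himg u hu) (by rw [card_univ, ← Nat.card_eq_fintype_card]; exact hNU)
    exact ⟨V, hV2, fun i => hV1 (mem_image_of_mem u (mem_univ i))⟩
  have hP : ∀ P : Finset (Finset U), #P ≤ 2 ^ Nat.card U := by
    intro P
    refine (card_le_univ P).trans ?_
    rw [Fintype.card_finset, Nat.card_eq_fintype_card]
  constructor
  · have h1 : (univ.filter fun u : Fin m → U => ∀ i j, R (u i) (u j)) ⊆
        (univ.filter fun V : Finset U => #V = N).biUnion fun V =>
          Fintype.piFinset fun _ : Fin m => V := by
      intro u hu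
      rw [mem_filter] at hu
      obtain ⟨V, hV, hV1⟩ := hsup u hu.2
      simp only [mem_biUnion, mem_filter, mem_univ, true_and, Fintype.mem_piFinset]
      exact ⟨V, hV, hV1⟩
    rw [Nat.card_eq_fintype_card, Fintype.card_subtype]
    refine (card_le_card h1).trans ?_
    refine card_biUnion_le.trans ?_
    have h2 : ∀ V ∈ (univ.filter fun V : Finset U => #V = N),
        #(Fintype.piFinset fun _ : Fin m => V) ≤ N ^ m := by
      intro V hV
      rw [mem_filter] at hV
      rw [Fintype.card_piFinset, prod_const, card_univ, Fintype.card_fin, hV.2]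
    refine (sum_le_card_nsmul _ _ _ h2).trans ?_
    rw [smul_eq_mul]
    exact Nat.mul_le_mul_right _ (hP _)
  · have h1 : (univ.filter fun u : Fin m → U => (∀ i j, R (u i) (u j)) ∧
          ¬ ∃ V : Finset U, #V = N ∧ (∀ i, u i ∈ V) ∧ ∀ w ∈ V, L < {i | u i = w}.ncard) ⊆
        (univ.filter fun V : Finset U => #V = N).biUnion fun V => V.biUnion fun w =>
          univ.filter (fun u : Fin m → U => (∀ i, u i ∈ V) ∧ {i | u i = w}.ncard ≤ L) := by
      intro u hu
      rw [mem_filter] at hu
      obtain ⟨-, hu1, hu2⟩ := hu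
      obtain ⟨V, hV, hV1⟩ := hsup u hu1
      push Not at hu2
      obtain ⟨w, hw, hw1⟩ := hu2 V hV hV1
      simp only [mem_biUnion, mem_filter, mem_univ, true_and]
      exact ⟨V, hV, w, hw, hV1, hw1⟩
    rw [Nat.card_eq_fintype_card, Fintype.card_subtype]
    refine (card_le_card h1).trans ?_
    refine card_biUnion_le.trans ?_
    have h2 : ∀ V ∈ (univ.filter fun V : Finset U => #V = N),
        #(V.biUnion fun w => univ.filter (fun u : Fin m → U =>
          (∀ i, u i ∈ V) ∧ {i | u i = w}.ncard ≤ L)) ≤ N * few N L m := by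
      intro V hV
      rw [mem_filter] at hV
      refine card_biUnion_le.trans ?_
      refine (sum_le_card_nsmul _ _ _ fun w hw => tFew_E N L m V hV.2 w hw).trans ?_
      rw [smul_eq_mul, hV.2]
    refine (sum_le_card_nsmul _ _ _ h2).trans ?_
    rw [smul_eq_mul, mul_assoc]
    exact Nat.mul_le_mul_right _ (hP _)

end Pool.Agent.MP72S.Lv
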