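import Pool.Agent.Lib.MP_72e2e6_nt.Sm.G.SpecA

set_option autoImplicit false

namespace Pool.Agent.MP72S.Lv

open Finset

private theorem fou_add (a b : ZMod 2) : sgn (a + b) = sgn a * sgn b := by
  unfold sgn
  revert a b
  have h11 : (1 : ZMod 2) + 1 = 0 := by decide
  have h : ∀ a : ZMod 2, a = 0 ∨ a = 1 := by decide
  intro a b
  rcases h a with rfl | rfl <;> rcases h b with rfl | rfl <;> simp [h11]

private theorem fou_sum {I : Type} (s : Finset I) (f : I → ZMod 2) :
    sgn (∑ i ∈ s, f i) = ∏ i ∈ s, sgn (f i) := by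
  classical
  induction s using Finset.induction_on with
  | empty => simp [sgn]
  | insert a s ha ih => rw [sum_insert ha, prod_insert ha, fou_add, ih]

theorem tFou : S_Fou := by
  intro I W _ _ _ _ _ _
  have hfin : Module.Finite (ZMod 2) W := inferInstance
  have hcard : Nat.card (Module.Dual (ZMod 2) W) = Nat.card W := by
    rw [Module.natCard_eq_pow_finrank (K := ZMod 2) (V := Module.Dual (ZMod 2) W),
      Module.natCard_eq_pow_finrank (K := ZMod 2) (V := W), Subspace.dual_finrank_eq]
  refine ⟨hcard, fou_add, ?_⟩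
  intro g
  have h1 : ∑ lam : I → Module.Dual (ZMod 2) W, sgn (∑ i, lam i (g i)) =
      ∏ i, ∑ e : Module.Dual (ZMod 2) W, sgn (e (g i)) := by
    rw [Finset.prod_univ_sum, Fintype.piFinset_univ]
    exact sum_congr rfl fun lam _ => fou_sum _ _
  refine ⟨fun hg => ?_, fun hg => ?_⟩
  · rw [h1]
    subst hg
    simp only [Pi.zero_apply, map_zero]
    rw [prod_const, sum_const, card_univ, card_univ, ← hcard, Nat.card_eq_fintype_card]
    simp [sgn]
  · rw [h1]
    obtain ⟨i, hi⟩ := Function.ne_iff.1 hg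
    apply prod_eq_zero (mem_univ i)
    obtain ⟨e₀, he₀⟩ : ∃ e₀ : Module.Dual (ZMod 2) W, e₀ (g i) ≠ 0 := by
      by_contra hcon
      push Not at hcon
      exact hi ((Module.forall_dual_apply_eq_zero_iff (ZMod 2) (g i)).1 hcon)
    have he1 : e₀ (g i) = 1 := by
      have h : ∀ a : ZMod 2, a ≠ 0 → a = 1 := by decide
      exact h _ he₀
    have h2 : ∑ e : Module.Dual (ZMod 2) W, sgn (e (g i)) =
        ∑ e : Module.Dual (ZMod 2) W, sgn ((e + e₀) (g i)) :=
      (Equiv.sum_comp (Equiv.addRight e₀) fun e => sgn (e (g i))).symm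
    have h3 : ∑ e : Module.Dual (ZMod 2) W, sgn ((e + e₀) (g i)) =
        - ∑ e : Module.Dual (ZMod 2) W, sgn (e (g i)) := by
      rw [← sum_neg_distrib]
      apply sum_congr rfl
      intro e _
      rw [LinearMap.add_apply, fou_add, he1]
      simp [sgn]
    linarith

end Pool.Agent.MP72S.Lv
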