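import Pool.Agent.Lib.MP_72e2e6_nt.Sm.G.SpecD

/-!
# MP_72e2e6_nt, `Sm`, block G: the targets `HD.S_G1`, `HD.S_G2`, `HD.S_G3`
-/

set_option autoImplicit false

namespace Pool.Agent.MP72S.Lv

open Finset Polynomial MP72e2e6

theorem tHg (h1 : HD.S_Ax) (h2 : HD.S_Okt) (h3 : S_Irc) (h4 : S_Tmc) (h5 : S_Ari) (h6 : S_Lvg) :
    S_Hg := by
  have key : ∀ (F : Type) [Field F] [Finite F] (a : Fin 3 → F[X]) (d : F[X]) (u : F)
      (S : Finset (D.Pl F)) (A : D.Pl F → D.Lcd F), HD.Hy a d → (¬ ∃ b, b ^ 2 = u) →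
      HD.Sok a d S → D.LDok F A → _ :=
    fun F _ _ a d u S A hy hu hS hA =>
      h6 (HD.DD F a d u S A) pq (HD.irr F S) (fun r n => HD.Adm a d r n)
        (h1 F a d u S A hy hu hS hA).1 (h3 F a d u S A hy hS hA) (h5 F a d u S A hy hu hS hA)
        (by have := hy.q4; omega) fun r n hn z hz =>
          ⟨h2 F a d u S A hy hS hA r n hn z hz, h4 F a d u S A hy hS hA r n hn z hz⟩
  refine ⟨?_, ?_, ?_⟩
  · intro F _ _ a d u S A hy hu hS hA
    exact (key F a d u S A hy hu hS hA).2.1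
  · intro F _ _ a d u S A hy hu hS hA
    exact (key F a d u S A hy hu hS hA).2.2.1
  · intro F _ _ a d u S A hy hu hS hA
    exact (key F a d u S A hy hu hS hA).2.2.2

end Pool.Agent.MP72S.Lv
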