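import Pool.Agent.Lib.MP_72e2e6_nt.Sm.G.SpecB
import Pool.Agent.Lib.MP_72e2e6_nt.Sm.D.Hp

/-!
# MP_72e2e6_nt, `Sm`, block G, module `Ksy`: the quadratic symbols in terms of the Frobenius elements
-/

set_option autoImplicit false

namespace Pool.Agent.MP72S.Lv

open Polynomial IntermediateField Pool.Agent.MP72W Pool.Agent.MP72S.D Pool.Agent.MP72S.D.Hp

/-- Euler's criterion modulo `R`. -/
private theorem eul {F : Type} [Field F] [Finite F] (hF : (2 : F) ≠ 0) (R : F[X]) (hR : R.Monic)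
    (hi : Irreducible R) (f : F[X]) (hf : ¬ R ∣ f) :
    Nat.card F ^ R.natDegree = 2 * (Nat.card F ^ R.natDegree / 2) + 1 ∧
    (IsSquare (AdjoinRoot.mk R f) ↔ R ∣ f ^ (Nat.card F ^ R.natDegree / 2) - 1) := by
  have : Fact (Irreducible R) := ⟨hi⟩
  have hfin : Module.Finite F (AdjoinRoot R) := (AdjoinRoot.powerBasis' hR).finite
  have h1 : Finite (AdjoinRoot R) := Module.finite_of_finite F
  have hcard : Nat.card (AdjoinRoot R) = Nat.card F ^ R.natDegree := by
    rw [Module.natCard_eq_pow_finrank (K := F) (V := AdjoinRoot R),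
      (AdjoinRoot.powerBasis' hR).finrank, AdjoinRoot.powerBasis'_dim]
  have h3 := Fintype.ofFinite (AdjoinRoot R)
  have hF2 : Fintype F := Fintype.ofFinite F
  have hcA : ringChar (AdjoinRoot R) ≠ 2 := by
    rw [← Algebra.ringChar_eq F (AdjoinRoot R)]
    intro h
    apply hF
    have h11 := ringChar.Nat.cast_ringChar (R := F)
    rw [h] at h11
    exact_mod_cast h11
  have hoA := FiniteField.odd_card_of_char_ne_two hcA
  rw [Fintype.card_eq_nat_card, hcard] at hoA
  refine ⟨by omega, ?_⟩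
  have h4 : AdjoinRoot.mk R f ≠ 0 := by
    rw [Ne, AdjoinRoot.mk_eq_zero]
    exact hf
  rw [FiniteField.isSquare_iff hcA h4, Fintype.card_eq_nat_card, hcard, ← AdjoinRoot.mk_eq_zero,
    map_sub, map_pow, map_one, sub_eq_zero]

/-- The absolute value of a polynomial. -/
private theorem av_lt {F : Type} [Field F] {R : F[X]} {v : AbsoluteValue (RatFunc F) ℝ}
    (hv : IsPl (some R) v) (p : F[X]) : v (algebraMap F[X] (RatFunc F) p) < 1 ↔ R ∣ p := by
  by_cases hp : p = 0
  · rw [hp, map_zero, map_zero]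
    exact ⟨fun _ => dvd_zero _, fun _ => zero_lt_one⟩
  · rw [hv.2.2 p hp]
    have hfin : FiniteMultiplicity R p := FiniteMultiplicity.of_not_isUnit hv.2.1.not_isUnit hp
    constructor
    · intro h
      by_contra hcon
      rw [multiplicity_eq_zero.2 hcon, pow_zero] at h
      exact lt_irrefl _ h
    · intro h
      have h0 : multiplicity R p ≠ 0 := by
        intro h1
        exact multiplicity_eq_zero.1 h1 h
      exact pow_lt_one₀ (by norm_num) (by norm_num) h0

/-- A power of near elements. -/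
private theorem nm_pow {L : Type} [Field L] {n : L → ℝ} (h : Nrm n) {x y : L} (hx : n x ≤ 1)
    (hy : n y ≤ 1) (hxy : n (x - y) < 1) (k : ℕ) : n (x ^ k - y ^ k) < 1 := by
  induction k with
  | zero =>
    rw [pow_zero, pow_zero, sub_self, h.zero]
    exact zero_lt_one
  | succ k ih =>
    have e : x ^ (k + 1) - y ^ (k + 1) = (x ^ k - y ^ k) * x + y ^ k * (x - y) := by ring
    rw [e]
    refine h.add_lt ?_ ?_
    · rw [h.mul]
      calc n (x ^ k - y ^ k) * n x ≤ n (x ^ k - y ^ k) * 1 :=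
            mul_le_mul_of_nonneg_left hx (h.nn _)
        _ < 1 := by rw [mul_one]; exact ih
    · rw [h.mul, h.pow]
      calc n y ^ k * n (x - y) ≤ 1 * n (x - y) :=
            mul_le_mul_of_nonneg_right (pow_le_one₀ (h.nn _) hy) (h.nn _)
        _ < 1 := by rw [one_mul]; exact hxy

private theorem big_map {F : Type} [Field F] (v : AbsoluteValue (RatFunc F) ℝ) (g : RatFunc F)
    (h : ℕ) : algebraMap v.Completion (Kvs v) (algebraMap (RatFunc F) v.Completion (g ^ h - 1)) =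
      (algebraMap v.Completion (Kvs v) (algebraMap (RatFunc F) v.Completion g)) ^ h - 1 := by
  rw [map_sub, map_pow, map_one]
  exact (map_sub _ _ _).trans (by rw [map_pow, map_one])

theorem tKsy (h1 : S_Lf) (h2 : S_Lc) (h3 : S_Ln) (h4 : S_Cs) (h5 : S_QG) (h6 : S_Rt)
    (h7 : S_Rq) (h8 : S_Km) : S_Ksy := by
  intro F _ _ hF R hR hi A hA f hf
  have C := cx_of h1 h2 h3 F (some R) A.av hA.pl
  have cc : Cc (Nat.card F) (Kvs A.av) := cc_of h4 F _ (fv F _)
  have hL2 : (2 : Kvs A.av) ≠ 0 := two_ne hF (fv F _)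
  have N := C.nr
  obtain ⟨q1, -, -, -⟩ := h7 F hF (some R) A hA
  obtain ⟨-, -, -, sq, -⟩ := h5 F
  obtain ⟨-, c2, -, -⟩ := h8 F hF
  obtain ⟨Rs, hRs⟩ := C.lf
  obtain ⟨-, -, r3, r4⟩ := h6 F hF _ _ _ Rs hRs
  obtain ⟨l1, -, -, -, -, -, l7⟩ := h2 F _ _ _ Rs hRs
  obtain ⟨-, -, -, -, n5, -, -, -⟩ := h3 F _ _ _ Rs hRs
  obtain ⟨hodd, heul⟩ := eul hF R hR hi f hf
  set Q := Nat.card F ^ R.natDegree with hQ
  set h := Q / 2 with hh
  set f' : RatFunc F := algebraMap F[X] (RatFunc F) f with hf'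
  have hvf : A.av f' = 1 := by
    have hf0 : f ≠ 0 := by
      rintro rfl
      exact hf (dvd_zero _)
    rw [hf', hA.pl.2.2 f hf0, multiplicity_eq_zero.2 hf, pow_zero]
  have hf'0 : f' ≠ 0 := by
    intro h0
    rw [h0, map_zero] at hvf
    exact zero_ne_one hvf
  obtain ⟨x, hx⟩ := sq hF (algebraMap (RatFunc F) (Qf F) f')
  have hx0 : x ≠ 0 := by
    rintro rfl
    rw [zero_pow two_ne_zero] at hx
    exact hf'0 ((algebraMap (RatFunc F) (Qf F)).injective (by rw [← hx, map_zero]))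
  -- the constant
  obtain ⟨c, hcQ, hfc⟩ := l7 (algebraMap (RatFunc F) A.av.Completion f') (by rw [l1, hvf])
  set F1 : Kvs A.av := algebraMap A.av.Completion (Kvs A.av)
    (algebraMap (RatFunc F) A.av.Completion f') with hF1
  set c1 : Kvs A.av := algebraMap A.av.Completion (Kvs A.av) c with hc1
  have hnF : nm A.av F1 = 1 := by rw [hF1, C.alg, hvf]
  have hnd : nm A.av (F1 - c1) < 1 := by
    rw [hF1, hc1, ← map_sub, n5]
    exact hfc
  have hcc : c1 ∈ Cst (Nat.card F) (Kvs A.av) :=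
    ⟨R.natDegree, hi.natDegree_pos, by rw [hc1, ← map_pow]; exact congrArg _ hcQ⟩
  have hc0 : c1 ≠ 0 := by
    intro h0
    rw [h0, sub_zero, hnF] at hnd
    exact lt_irrefl _ hnd
  have hnc : nm A.av c1 = 1 := C.cst c1 hcc hc0
  obtain ⟨c₁, hc₁⟩ := ex_root hL2 c1 1
  have hc₁c : c₁ ∈ Cst (Nat.card F) (Kvs A.av) :=
    cc.root c₁ (2 ^ 1) Nat.one_le_two_pow (by rw [hc₁]; exact hcc)
  have hex : A.eQ x ^ 2 = F1 := by rw [← map_pow, hx, eQ_alg]
  have hs : (A.eQ x / c₁) ^ 2 ^ 1 = F1 / c1 := by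
    rw [div_pow, hc₁, pow_one, hex]
  obtain ⟨z, hz, hz1, hz2⟩ := r3 1 (A.eQ x / c₁) (by
    rw [hs]
    have e4 : F1 / c1 - 1 = (F1 - c1) / c1 := by field_simp
    rw [e4, N.div, hnc, div_one]
    exact hnd)
  have hz0 : z ≠ 0 := by
    rintro rfl
    rw [zero_pow (pow_ne_zero _ two_ne_zero)] at hz1
    exact zero_ne_one hz1
  have hc₁0 : c₁ ≠ 0 := by
    rintro rfl
    rw [zero_pow (pow_ne_zero _ two_ne_zero)] at hc₁
    exact hc0 hc₁.symm
  have hfix : A.f (A.eQ x / c₁ / z) = A.eQ x / c₁ / z := by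
    apply r4 A.f 1
    · rw [div_pow, hs, hz1, div_one, hF1, hc1, ← map_div₀, AlgEquiv.commutes]
    · have e6 : A.eQ x / c₁ / z - 1 = (A.eQ x / c₁ - z) / z := by field_simp
      rw [e6, N.div, C.cst z hz hz0, div_one]
      exact hz2
  have hcz : c₁ * z ∈ Cst (Nat.card F) (Kvs A.av) := cc.mul _ hc₁c _ hz
  have hcz2 : (c₁ * z) ^ 2 = c1 := by
    rw [mul_pow]
    rw [pow_one] at hc₁ hz1
    rw [hc₁, hz1, mul_one]
  have hczQ : (c₁ * z) ^ Q = c1 ^ h * (c₁ * z) := by
    rw [hodd, pow_succ, pow_mul, hcz2]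
  have hfe : A.f (A.eQ x) = c1 ^ h * A.eQ x := by
    have e1 : A.eQ x = A.eQ x / c₁ / z * (c₁ * z) := by field_simp
    have e2 : A.f (A.eQ x) = A.eQ x / c₁ / z * (c1 ^ h * (c₁ * z)) := by
      conv_lhs => rw [e1]
      rw [map_mul, hfix, hA.ff _ hcz]
      exact congrArg _ hczQ
    rw [e2]
    field_simp
  have hex0 : A.eQ x ≠ 0 := by
    intro h0
    rw [← map_zero A.eQ] at h0
    exact hx0 (eQ_inj A h0)
  -- the condition on the character
  have k1 : hK f' (A.rQ A.f) = 0 ↔ c1 ^ h = 1 := by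
    have k2 := c2 f' hf'0 x hx (A.rQ A.f)
    have k3 := q1 A.f x
    rw [k2, hfe] at k3
    constructor
    · intro k4
      rw [if_pos k4] at k3
      exact (mul_right_cancel₀ hex0 (by rw [one_mul]; exact k3)).symm
    · intro k4
      by_contra k5
      rw [if_neg k5, k4, one_mul, map_neg] at k3
      have k6 : 2 * A.eQ x = 0 := by linear_combination -k3
      rcases mul_eq_zero.1 k6 with k7 | k7
      · exact hL2 k7
      · exact hex0 k7
  have k8 : c1 ^ h = 1 ↔ nm A.av (F1 ^ h - 1) < 1 := by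
    have hp := nm_pow N hnF.le hnc.le hnd h
    constructor
    · intro k9
      rwa [k9] at hp
    · intro k9
      refine C.eq_of cc (cc.pow hcc h) cc.one ?_
      have e1 : c1 ^ h - 1 = (F1 ^ h - 1) - (F1 ^ h - c1 ^ h) := by ring
      rw [e1]
      exact N.sub_lt k9 hp
  have k11 : algebraMap F[X] (RatFunc F) (f ^ h - 1) = f' ^ h - 1 := by
    rw [map_sub, map_pow, map_one]
  have k12 : algebraMap A.av.Completion (Kvs A.av) (algebraMap (RatFunc F) A.av.Completion
      (f' ^ h - 1)) = F1 ^ h - 1 :=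
    big_map A.av f' h
  have k10 : nm A.av (F1 ^ h - 1) = A.av (algebraMap F[X] (RatFunc F) (f ^ h - 1)) := by
    rw [k11, ← k12, C.alg]
  rw [k10] at k8
  exact k1.trans (k8.trans ((av_lt hA.pl _).trans heul.symm))

end Pool.Agent.MP72S.Lv
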