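import Pool.Agent.Lib.MP_72e2e6_nt.Sm.G.SpecC

/-!
# MP_72e2e6_nt, `Sm/G`: missing patterns are rare
-/

set_option autoImplicit false

namespace Pool.Agent.MP72S.Lv

open Finset Polynomial MP72e2e6

open scoped Classical in
private theorem lg2_set {P : Type} {m : ℕ} (Irr : ℕ → Finset P) (n : Fin m → ℕ)
    (p : (Fin m → P) → Prop) :
    {z ∈ tup fun i => Irr (n i) | p z} = (((tupF Irr n).filter p : Finset (Fin m → P)) :
      Set (Fin m → P)) := by
  ext z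
  rw [Finset.mem_coe, Finset.mem_filter]
  unfold tupF
  rw [Finset.mem_filter, Fintype.mem_piFinset]
  exact Iff.rfl

private theorem lg2_mem {P : Type} {m : ℕ} (Irr : ℕ → Finset P) (n : Fin m → ℕ)
    (z : Fin m → P) (hz : z ∈ tupF Irr n) : z ∈ tup fun i => Irr (n i) := by
  classical
  unfold tupF at hz
  rw [Finset.mem_filter, Fintype.mem_piFinset] at hz
  exact hz

open scoped Classical in
private theorem lg2_sum {X : Type} (Z : Finset X) (c : X → ℕ) (p q : X → Prop)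
    (r : ℕ → X → Prop) (K : ℕ) (hq : ∀ z, q z ↔ K ≤ c z)
    (hr : ∀ k z, r k z ↔ (c z = 4 * 2 ^ k ∧ p z))
    (hc : ∀ z ∈ Z, ∃ k : ℕ, c z = 4 * 2 ^ k) (M ε ε' : ℝ) (hM : 0 ≤ M)
    (hεε : (K : ℝ) * (4 * 2 ^ K) * ε' ≤ ε / 2)
    (h1 : (∑ z ∈ Z.filter q, (c z : ℝ)) ≤ ε / 2 * M)
    (h2 : ∀ k < K, ((#(Z.filter (r k)) : ℕ) : ℝ) ≤ ε' * M) :
    (∑ z ∈ Z.filter p, (c z : ℝ)) ≤ ε * M := by
  have e1 : (∑ z ∈ Z.filter p, (c z : ℝ)) ≤ (∑ z ∈ Z.filter q, (c z : ℝ)) +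
      ∑ k ∈ range K, ∑ z ∈ Z.filter (r k), (4 * 2 ^ k : ℝ) := by
    rw [Finset.sum_filter, Finset.sum_filter]
    simp_rw [Finset.sum_filter]
    rw [Finset.sum_comm, ← Finset.sum_add_distrib]
    apply Finset.sum_le_sum
    intro z hz
    have hnn : (0 : ℝ) ≤ ∑ k ∈ range K, if r k z then (4 * 2 ^ k : ℝ) else 0 :=
      Finset.sum_nonneg fun k _ => by split_ifs <;> positivity
    by_cases hp : p z
    · rw [if_pos hp]
      by_cases hK : K ≤ c z
      · rw [if_pos ((hq z).2 hK)]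
        linarith
      · rw [if_neg (fun h => hK ((hq z).1 h)), zero_add]
        obtain ⟨k, hk⟩ := hc z hz
        have hkK : k < K := by
          have h3 : k < 2 ^ k := Nat.lt_two_pow_self
          omega
        have h4 : (if r k z then (4 * 2 ^ k : ℝ) else 0) = c z := by
          rw [if_pos ((hr k z).2 ⟨hk, hp⟩), hk]
          push_cast
          ring
        rw [← h4]
        exact Finset.single_le_sum (f := fun k => if r k z then (4 * 2 ^ k : ℝ)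
          else 0) (fun k _ => by
            show (0 : ℝ) ≤ if r k z then (4 * 2 ^ k : ℝ) else 0
            split_ifs <;> positivity) (mem_range.2 hkK)
    · rw [if_neg hp]
      have : (0 : ℝ) ≤ if q z then (c z : ℝ) else 0 := by split_ifs <;> positivity
      linarith
  have e2 : ∑ k ∈ range K, ∑ z ∈ Z.filter (r k), (4 * 2 ^ k : ℝ) ≤ ε / 2 * M := by
    have e3 : ∀ k ∈ range K, ∑ z ∈ Z.filter (r k), (4 * 2 ^ k : ℝ) ≤
        4 * 2 ^ K * (ε' * M) := by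
      intro k hk
      have hk' := mem_range.1 hk
      rw [Finset.sum_const, nsmul_eq_mul, mul_comm]
      apply mul_le_mul _ (h2 k hk') (by positivity) (by positivity)
      have : (2 : ℝ) ^ k ≤ 2 ^ K := pow_le_pow_right₀ (by norm_num) hk'.le
      linarith
    refine (Finset.sum_le_card_nsmul _ _ _ e3).trans ?_
    rw [card_range, nsmul_eq_mul]
    calc (K : ℝ) * (4 * 2 ^ K * (ε' * M)) = ((K : ℝ) * (4 * 2 ^ K) * ε') * M := by ring
      _ ≤ ε / 2 * M := mul_le_mul_of_nonneg_right hεε hM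
  linarith

theorem tLg2 (h1 : S_Pbd) (h2 : S_Lg2a) (h3 : S_Lg2b) (h4 : S_Exp) : S_Lg2 := by
  classical
  intro G N P F _ _ _ _ _ _ D pi Irr hA hI hAr hF L ε hε
  obtain ⟨-, -, ⟨S, hS⟩, -⟩ := h4 D hA
  obtain ⟨K, hK⟩ := h2 D pi Irr hA hAr hF (ε / 2) (by positivity)
  let ε' : ℝ := ε / 2 / ((K + 1 : ℝ) * (4 * 2 ^ K))
  have hε' : 0 < ε' := by positivity
  have h3' := fun k : ℕ => h3 D pi Irr hA hI hAr hF k L ε' hε'
  choose m₁ hm₁ using h3'
  refine ⟨(range K).sup m₁, fun m hm => ?_⟩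
  have hmk : ∀ k ∈ range K, m₁ k ≤ m := fun k hk => le_trans (Finset.le_sup hk) hm
  obtain ⟨N₁, hN₁⟩ := hK m
  have h5 : ∀ k : ℕ, ∃ N₀ : ℕ, k < K → ∀ n : Fin m → ℕ, (∀ i, N₀ ≤ n i) →
      (∀ z ∈ tup fun i => Irr (n i), D.Ok z ∧ Tms D z) → ∀ b : Fin m,
      ({z ∈ tup fun i => Irr (n i) | Nat.card (D.Dk z 1) = 4 * 2 ^ k ∧
        ¬ D.Pat (D.Dk z 1) b L}.ncard : ℝ) ≤ ε' * ∏ i, (#(Irr (n i)) : ℝ) := by
    intro k
    by_cases hk : k < K
    · obtain ⟨N₀, hN₀⟩ := hm₁ k m (hmk k (mem_range.2 hk))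
      exact ⟨N₀, fun _ => hN₀⟩
    · exact ⟨0, fun h => absurd h hk⟩
  choose N₂ hN₂ using h5
  refine ⟨max N₁ ((range K).sup N₂), fun n hn hok b => ?_⟩
  have hM : (0 : ℝ) ≤ ∏ i, (#(Irr (n i)) : ℝ) := Finset.prod_nonneg fun i _ => Nat.cast_nonneg _
  have g1 := hN₁ n (fun i => le_trans (le_max_left _ _) (hn i)) (fun z hz => (hok z hz).1)
  rw [lg2_set, finsum_mem_coe_finset] at g1 ⊢
  refine lg2_sum (tupF Irr n) (fun z => Nat.card (D.Dk z 1))
    (fun z => ¬ D.Pat (D.Dk z 1) b L) _ _ K (fun _ => Iff.rfl) (fun _ _ => Iff.rfl) ?_ _ ε ε' hM ?_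
    g1 ?_
  · intro z hz
    exact (h1 D hA S hS m z (hok z (lg2_mem Irr n z hz)).1).1
  · show (K : ℝ) * (4 * 2 ^ K) * (ε / 2 / ((K + 1 : ℝ) * (4 * 2 ^ K))) ≤ ε / 2
    have h6 : (K : ℝ) * (4 * 2 ^ K) * (ε / 2 / ((K + 1 : ℝ) * (4 * 2 ^ K))) =
        (ε / 2) * (K / (K + 1)) := by
      field_simp
    rw [h6]
    have h7 : (K : ℝ) / (K + 1) ≤ 1 := by
      rw [div_le_one (by positivity)]
      linarith
    exact mul_le_of_le_one_right (by positivity) h7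
  · intro k hk
    have g2 := hN₂ k hk n (fun i => le_trans (le_trans (Finset.le_sup (mem_range.2 hk))
      (le_max_right _ _)) (hn i)) hok b
    rw [lg2_set, Set.ncard_coe_finset] at g2
    exact g2

end Pool.Agent.MP72S.Lv
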