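import Pool.Agent.Lib.MP_72e2e6_nt.Sm.G.SpecC

/-!
# MP_72e2e6_nt, `Sm/G`: large groups `Dk z 1` are rare
-/

set_option autoImplicit false

namespace Pool.Agent.MP72S.Lv

open Finset Polynomial MP72e2e6

open scoped Classical in
private theorem lg2a_set {P : Type} {m : ℕ} (Irr : ℕ → Finset P) (n : Fin m → ℕ)
    (p : (Fin m → P) → Prop) :
    {z ∈ tup fun i => Irr (n i) | p z} = (((tupF Irr n).filter p : Finset (Fin m → P)) :
      Set (Fin m → P)) := by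
  ext z
  rw [Finset.mem_coe, Finset.mem_filter]
  unfold tupF
  rw [Finset.mem_filter, Fintype.mem_piFinset]
  exact Iff.rfl

private theorem lg2a_mem {P : Type} {m : ℕ} (Irr : ℕ → Finset P) (n : Fin m → ℕ)
    (z : Fin m → P) (hz : z ∈ tupF Irr n) : z ∈ tup fun i => Irr (n i) := by
  classical
  unfold tupF at hz
  rw [Finset.mem_filter, Fintype.mem_piFinset] at hz
  exact hz

open scoped Classical in
private theorem lg2a_cheb {X : Type} (Z : Finset X) (c : X → ℕ) (q : X → Prop) (K : ℕ)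
    (hq : ∀ z, q z ↔ K ≤ c z) (C M ε : ℝ) (hM : 0 ≤ M)
    (hK : 0 < (K : ℝ)) (hC : C / K ≤ ε) (h : (∑ z ∈ Z, (c z : ℝ) ^ 2) ≤ C * M) :
    (∑ z ∈ Z.filter q, (c z : ℝ)) ≤ ε * M := by
  have e1 : (∑ z ∈ Z.filter q, (c z : ℝ)) ≤ ∑ z ∈ Z, (c z : ℝ) ^ 2 / K := by
    rw [Finset.sum_filter]
    apply Finset.sum_le_sum
    intro z _
    by_cases hz : q z
    · rw [if_pos hz, le_div_iff₀ hK, pow_two]
      exact mul_le_mul_of_nonneg_left (Nat.cast_le.2 ((hq z).1 hz)) (Nat.cast_nonneg _)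
    · rw [if_neg hz]
      positivity
  rw [← Finset.sum_div] at e1
  calc (∑ z ∈ Z.filter q, (c z : ℝ)) ≤ (∑ z ∈ Z, (c z : ℝ) ^ 2) / K := e1
    _ ≤ (C * M) / K := div_le_div_of_nonneg_right h hK.le
    _ = (C / K) * M := by ring
    _ ≤ ε * M := mul_le_mul_of_nonneg_right hC hM

theorem tLg2a (h1 : S_Mop) (h2 : S_Exp) (h3 : S_Eqz) (h4 : S_Lnk) (h5 : S_Mom) (h6 : S_Pwc) :
    S_Lg2a := by
  classical
  intro G N P F _ _ _ _ _ _ D pi Irr hA hAr hF ε hε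
  obtain ⟨hcard, -⟩ := h1 D hA
  obtain ⟨-, -, ⟨S, hS⟩, -⟩ := h2 D hA
  have : Finite (VN N) := Nat.finite_of_card_ne_zero (by rw [hcard]; norm_num)
  have hW : (Nat.card (Fin 2 → VN N) : ℝ) = 16 := by
    have : Nat.card (Fin 2 → VN N) = 16 := by
      rw [Nat.card_fun, hcard, Nat.card_fin]
      norm_num
    rw [this]
    norm_num
  let C : ℝ := 16 ^ (Fintype.card (TT D) + 1) * 2 ^ (Nat.card (Fin 2 → VN N) ^ 2) + 1
  have hC : 0 < C := by positivity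
  obtain ⟨K, hK⟩ := exists_nat_gt (C / ε)
  have hK0 : 0 < (K : ℝ) := lt_trans (by positivity) hK
  refine ⟨K, fun m => ?_⟩
  have hp : (0 : ℝ) < 16 ^ (Fintype.card (TT D) + 1 + m) := by positivity
  obtain ⟨N₀, hN₀⟩ := h3 D pi Irr hA hAr hF m ((16 ^ (Fintype.card (TT D) + 1 + m) : ℝ)⁻¹)
    (inv_pos.2 hp)
  refine ⟨N₀, fun n hn hok => ?_⟩
  have hM : (0 : ℝ) ≤ ∏ i, (#(Irr (n i)) : ℝ) := Finset.prod_nonneg fun i _ => Nat.cast_nonneg _
  have hmom := h5 (TT D) (Fin 2 → VN N) (Fin m → P) m (S.pow 2) (fun i => ((n i : ℕ) : ZMod 2))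
    (tupF Irr n) (Az D) (Bz D) _ _ hM (inv_pos.2 hp).le (hN₀ n hn)
  rw [hW, inv_mul_cancel₀ hp.ne'] at hmom
  have hsq : ∀ z ∈ tupF Irr n, (Nat.card {x : Unk (TT D) (Fin 2 → VN N) m //
      (S.pow 2).Sol (fun i => ((n i : ℕ) : ZMod 2)) (Az D z) (Bz D z) x} : ℝ) =
      (Nat.card (D.Dk z 1) : ℝ) ^ 2 := by
    intro z hz
    have hz' := lg2a_mem Irr n z hz
    have hnz : nz D z = fun i => ((n i : ℕ) : ZMod 2) := by
      funext i
      have h7 := (hAr.irr (n i) (z i)).1 (hz'.1 i)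
      have h8 : z i ≠ D.inf := by
        rintro h9
        rw [h9] at h7
        exact h7.1 hA.infS
      show D.ch (z i) (D.tau D.inf) = _
      rw [hAr.deg (z i) h8, h7.2]
    rw [(h6 (TT D) (VN N) m S _ (Az D z) (Bz D z) 2).2, (h4 D hA S hS m z (hok z hz')).2.2.2, hnz]
    push_cast
    rfl
  rw [Finset.sum_congr rfl hsq] at hmom
  rw [lg2a_set, finsum_mem_coe_finset]
  refine lg2a_cheb (tupF Irr n) (fun z => Nat.card (D.Dk z 1)) _ K (fun _ => Iff.rfl) C _ ε hM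
    hK0 ?_ ?_
  · rw [div_le_iff₀ hK0]
    rw [div_lt_iff₀ hε] at hK
    linarith
  · rw [mul_comm]
    exact hmom

end Pool.Agent.MP72S.Lv
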