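import Pool.Agent.Lib.MP_72e2e6_nt.Sm.G.SpecC

/-!
# MP_72e2e6_nt, `Sm/G`, module `Lg2b`: missing patterns are rare for a given order of `Dk z 1`
-/

set_option autoImplicit false

namespace Pool.Agent.MP72S.Lv

open Finset Polynomial MP72e2e6

private theorem lgbTup {P : Type} {m : ℕ} (Irr : ℕ → Finset P) (n : Fin m → ℕ) :
    (tup fun i => Irr (n i)) = (↑(tupF Irr n) : Set (Fin m → P)) := by
  ext z
  simp [tup, tupF, Fintype.mem_piFinset]

theorem tLg2b (h1 : S_Mop) (h2 : S_Exp) (h3 : S_Eqz) (h4 : S_Tmz) (h5 : S_Dnz) (h6 : S_Mbd)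
    (h7 : S_Bin) (h8 : S_Pbd) : S_Lg2b := by
  classical
  intro G N P F _ _ _ _ _ _ D pi Irr hA hI ar hq k L ε hε
  have hc : Nat.card (VN N) = 4 := (h1 D hA).1
  obtain ⟨S, hS⟩ := (h2 D hA).2.2.1
  have : Finite (VN N) := Nat.finite_of_card_ne_zero (by rw [hc]; norm_num)
  set t := Fintype.card (TT D) with ht
  obtain ⟨K, hK⟩ : ∃ K : ℕ, K = Nat.card (VN N) ^ k := ⟨_, rfl⟩
  have hK1 : 1 ≤ K := by
    rw [hK, hc]
    exact Nat.one_le_pow _ _ (by norm_num)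
  have hKr : (0 : ℝ) < K := by exact_mod_cast hK1
  have hC : (0 : ℝ) < (K : ℝ) ^ (t + 1) * 2 ^ (K ^ 2) * K :=
    mul_pos (mul_pos (pow_pos hKr _) (pow_pos two_pos _)) hKr
  obtain ⟨m₀, hm₀⟩ := h7 K L hK1 (ε / 2 / ((K : ℝ) ^ (t + 1) * 2 ^ (K ^ 2) * K))
    (div_pos (half_pos hε) hC)
  refine ⟨m₀, fun m hm => ?_⟩
  have hKm : (0 : ℝ) < (K : ℝ) ^ (t + 1 + m) := pow_pos hKr _
  have hε' : (0 : ℝ) < ε / 2 * ((K : ℝ) ^ (t + 1 + m))⁻¹ := mul_pos (half_pos hε) (inv_pos.2 hKm)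
  obtain ⟨N₀, hN⟩ := h3 D pi Irr hA ar hq m (ε / 2 * ((K : ℝ) ^ (t + 1 + m))⁻¹) hε'
  refine ⟨N₀, fun n hn hok b => ?_⟩
  set M : ℝ := ∏ i, (#(Irr (n i)) : ℝ) with hM
  have hM0 : 0 ≤ M := prod_nonneg fun i _ => Nat.cast_nonneg _
  rcases Set.eq_empty_or_nonempty (tup fun i => Irr (n i)) with he | ⟨z₀, hz₀⟩
  · rw [he]
    have h0 : {z ∈ (∅ : Set (Fin m → P)) | Nat.card (D.Dk z 1) = 4 * 2 ^ k ∧
        ¬ D.Pat (D.Dk z 1) b L} = ∅ := Set.eq_empty_of_forall_notMem fun z hz => hz.1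
    rw [h0, Set.ncard_empty, Nat.cast_zero]
    exact mul_nonneg hε.le hM0
  have hnz : ∀ z ∈ tup fun i => Irr (n i), nz D z = fun i => (n i : ZMod 2) := by
    intro z hz'
    funext i
    obtain ⟨hS', hd⟩ := (ar.irr _ _).1 (hz'.1 i)
    have hne : z i ≠ D.inf := fun h => hS' (by rw [h]; exact hA.infS)
    rw [nz, ar.deg _ hne, hd]
  have hTm : S.Tm fun i => (n i : ZMod 2) := by
    rw [← hnz z₀ hz₀]
    exact h4 D hA S hS m z₀ (hok z₀ hz₀).1 (hok z₀ hz₀).2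
  have hmb := h6 (TT D) (VN N) (Fin m → P) m S (fun i => (n i : ZMod 2)) hTm k
    (h5 D hA hI S hS k) (tupF Irr n) (Az D) (Bz D) M (ε / 2 * ((K : ℝ) ^ (t + 1 + m))⁻¹) hM0
    hε'.le (hN n hn) b L K hK
  refine le_trans ?_ (hmb.trans ?_)
  · -- every `z` in the set has a bad solution
    set E : Set (Fin m → P) := {z ∈ tup fun i => Irr (n i) | Nat.card (D.Dk z 1) = 4 * 2 ^ k ∧
      ¬ D.Pat (D.Dk z 1) b L} with hE
    have hsub : E = (↑((tupF Irr n).filter fun z => z ∈ E) : Set (Fin m → P)) := by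
      ext z
      rw [Finset.mem_coe, Finset.mem_filter]
      constructor
      · intro h
        refine ⟨?_, h⟩
        have h' := h.1
        rw [lgbTup] at h'
        exact h'
      · exact fun h => h.2
    have hcard : E.ncard = #((tupF Irr n).filter fun z => z ∈ E) := by
      conv_lhs => rw [hsub]
      exact Set.ncard_coe_finset _
    rw [hcard, card_filter]
    push_cast
    refine sum_le_sum fun z hz => ?_
    split_ifs with hzE
    · have hz' := hzE.1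
      obtain ⟨x, hx, hb⟩ := (h8 D hA S hS m z (hok z hz').1).2 k hzE.2.1 b L hzE.2.2
      rw [hnz z hz'] at hx
      have hne : Nonempty {x : Unk (TT D) (Fin k → VN N) m //
          (S.pow k).Sol (fun i => (n i : ZMod 2)) (Az D z) (Bz D z) x ∧ Bad k b L x} :=
        ⟨⟨x, hx, hb⟩⟩
      have : 0 < Nat.card {x : Unk (TT D) (Fin k → VN N) m //
          (S.pow k).Sol (fun i => (n i : ZMod 2)) (Az D z) (Bz D z) x ∧ Bad k b L x} :=
        Nat.card_pos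
      exact_mod_cast this
    · exact Nat.cast_nonneg _
  · rw [mul_comm]
    refine mul_le_mul_of_nonneg_right ?_ hM0
    have e1 : (few K L m : ℝ) / (K : ℝ) ^ m ≤
        ε / 2 / ((K : ℝ) ^ (t + 1) * 2 ^ (K ^ 2) * K) := by
      rw [div_le_iff₀ (pow_pos hKr _)]
      exact hm₀ m hm
    have e2 : (K : ℝ) ^ (t + 1) * 2 ^ (K ^ 2) * K * ((few K L m : ℝ) / (K : ℝ) ^ m) ≤ ε / 2 := by
      calc (K : ℝ) ^ (t + 1) * 2 ^ (K ^ 2) * K * ((few K L m : ℝ) / (K : ℝ) ^ m)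
          ≤ (K : ℝ) ^ (t + 1) * 2 ^ (K ^ 2) * K *
            (ε / 2 / ((K : ℝ) ^ (t + 1) * 2 ^ (K ^ 2) * K)) :=
            mul_le_mul_of_nonneg_left e1 hC.le
        _ = ε / 2 := by
            rw [mul_div_cancel₀ _ hC.ne']
    have e3 : ε / 2 * ((K : ℝ) ^ (t + 1 + m))⁻¹ * (K : ℝ) ^ (t + 1 + m) = ε / 2 := by
      rw [mul_assoc, inv_mul_cancel₀ hKm.ne', mul_one]
    rw [← ht, e3]
    linarith

end Pool.Agent.MP72S.Lv
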