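import Pool.Agent.Lib.MP_72e2e6_nt.Sm.G.SpecC

/-!
# MP_72e2e6_nt, `Sm/G`, module `Lg3`: the order of `Dk z 1` is a power of four
-/

set_option autoImplicit false

namespace Pool.Agent.MP72S.Lv

open Finset Polynomial MP72e2e6

theorem tLg3 (h1 : S_Sym) (h2 : S_Mop) (h3 : S_Cmm) (h4 : S_Exp) (h5 : S_Lnk) (h6 : S_Tmz)
    (h7 : S_Fct) : S_Lg3 := by
  intro G N P _ _ _ _ D hA m z hz ht
  obtain ⟨hc, ⟨f, hf⟩, hex, hsa, -⟩ := h2 D hA
  obtain ⟨hcst, -, ⟨S, hS⟩, hexp⟩ := h4 D hA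
  have hne : ∀ i, z i ≠ D.inf := fun i h => hz.nS i (h ▸ hA.infS)
  have key : ∀ (g h : G) (q : ℕ), q % 4 = 1 → h * g = g ^ q * h →
      ∀ L L' : Module.End (ZMod 2) (VN N), IsMo D.ch0 g L → IsMo D.ch0 h L' →
        ∀ x, L (L' x) = L' (L x) := fun g h q hq hr =>
    h3 D hA D.ch0 hA.ch0c.mul g h q hq hr
  obtain ⟨a, ha⟩ := h7 (TT D) (VN N) hc f hf.alt hf.nd m S (nz D z) (h6 D hA S hS m z hz ht)
    (fun v x y => hsa f hf _ _ _ (hS.sg v) x y) (fun x y => hsa f hf _ _ _ hS.la x y)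
    (fun v v' => by
      by_cases h : v = v'
      · rw [h]
      · rw [hS.l, hS.l]
        exact h1 D hA _ _ v'.2.2 v.2.2 fun h' => h (Subtype.ext h').symm)
    (Az D z) (Bz D z)
    (fun i j hij => h1 D hA _ _ (hne i) (hne j) fun h => hij (hz.inj h))
    (fun v y => by
      obtain ⟨L', hL'⟩ := hex D.ch0 (D.phi v.1)
      have hL : ∀ x, L' x = ∑ v', S.l v v' • S.σ v' x + S.d v • S.Λ x := by
        intro x
        rw [hexp S hS (D.phi v.1) L' hL' x, hcst v.1 v.2.2, hS.d]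
        simp only [hS.l]
      have hk := key (D.tau v.1) (D.phi v.1) (D.nq v.1) (hA.q4 _) (hA.rel _) (S.σ v) L'
        (hS.sg v) hL' y
      rw [hL, hL, map_add, map_smul] at hk
      rw [map_add, map_add, map_smul, map_smul, add_right_comm, hk, add_right_comm])
    (fun y => by
      obtain ⟨L, hL'⟩ := hex D.ch0 (D.tau D.inf)
      have hL : ∀ x, L x = ∑ v', S.d v' • S.σ v' x := by
        intro x
        rw [hexp S hS (D.tau D.inf) L hL' x, hA.cst_tau, zero_smul, add_zero]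
        simp only [hS.d]
      have hk := key (D.tau D.inf) (D.phi D.inf) (D.nq D.inf) (hA.q4 _) (hA.rel _) L S.Λ
        hL' hS.la y
      rw [hL, hL] at hk
      rw [map_add, ← hk, map_smul])
  exact ⟨a, ((h5 D hA S hS m z hz).2.2.2).trans ha⟩

end Pool.Agent.MP72S.Lv
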