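import Pool.Agent.Lib.MP_72e2e6_nt.Sm.G.SpecC

/-!
# MP_72e2e6_nt, `Sm`, block G, module Lnk: the group `Dk z 1` is the set of the solutions
-/

set_option autoImplicit false

namespace Pool.Agent.MP72S.Lv

open Finset Polynomial MP72e2e6

section

variable {G N P : Type} [Group G] [TopologicalSpace G] [AddCommGroup N] [DistribMulAction G N]

/-- The homomorphism with the prescribed values. -/
private noncomputable def lkF (D : Dat G N P) (S : Opr (TT D) (VN N)) {m : ℕ} (z : Fin m → P)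
    (x : Unk (TT D) (VN N) m) (g : G) : VN N :=
  ∑ v, D.ch v.1 g • S.σ v (x.1 v) + ∑ i, D.ch (z i) g • x.2.2 i + D.cst g • S.Λ x.2.1

/-- The defect at `w`. -/
private noncomputable def lkE (D : Dat G N P) (S : Opr (TT D) (VN N)) {m : ℕ} (z : Fin m → P)
    (x : Unk (TT D) (VN N) m) (g : G) (w : VN N) : VN N :=
  ∑ v, D.ch v.1 g • S.σ v (x.1 v - w) + ∑ i, D.ch (z i) g • (x.2.2 i - w) +
    D.cst g • S.Λ (x.2.1 - w)

variable {D : Dat G N P} {S : Opr (TT D) (VN N)} {m : ℕ} {z : Fin m → P}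

omit [Group G] [TopologicalSpace G] [DistribMulAction G N] in
private theorem lkE_eq (x : Unk (TT D) (VN N) m) (g : G) (w : VN N) :
    lkE D S z x g w = lkF D S z x g - (∑ v, D.ch v.1 g • S.σ v w + D.cst g • S.Λ w +
      (∑ i, D.ch (z i) g) • w) := by
  unfold lkE lkF
  simp only [map_sub, smul_sub, Finset.sum_sub_distrib, Finset.sum_smul]
  abel

private theorem lk_tw (ax : Ax D) (hMop : S_Mop) (hExp : S_Exp) (hS : IsSy D S) (g : G)
    (w : VN N) (Q : N) (hQ : 2 • Q = w.v) :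
    tw (D.chi z) g Q - Q = (∑ v, D.ch v.1 g • S.σ v w + D.cst g • S.Λ w +
      (∑ i, D.ch (z i) g) • w).v := by
  obtain ⟨-, -, h3, -, -, -, h7, h8⟩ := hMop D ax
  obtain ⟨-, -, -, h4⟩ := hExp D ax
  obtain ⟨L, hL⟩ := h3 D.ch0 g
  have hm := h7 D.ch0 (D.chi z) g (∑ i, D.ch (z i) g) L rfl hL
  rw [← hm w Q hQ, LinearMap.add_apply, h4 S hS _ L hL w, LinearMap.smul_apply,
    Module.End.one_apply]

private theorem lk_iff (ax : Ax D) (hMop : S_Mop) (hExp : S_Exp) (hS : IsSy D S) (g : G)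
    (x : Unk (TT D) (VN N) m) (w : VN N) (Q : N) (hQ : 2 • Q = w.v) :
    (lkF D S z x g).v = tw (D.chi z) g Q - Q ↔ lkE D S z x g w = 0 := by
  rw [lk_tw ax hMop hExp hS g w Q hQ, lkE_eq, sub_eq_zero]
  exact ⟨fun h => VN.inj h, fun h => by rw [h]⟩

private theorem lk_hoF (ax : Ax D) (hz : D.Ok z) (x : Unk (TT D) (VN N) m) :
    IsHo fun g => (lkF D S z x g).v := by
  have hzi : ∀ i, z i ≠ D.inf := fun i hi => hz.nS i (hi ▸ ax.infS)
  refine ⟨?_, fun σ => VN.two _, fun σ τ => ?_⟩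
  · rw [IsLocallyConstant.iff_eventually_eq]
    intro g
    have e1 : ∀ᶠ y in nhds g, ∀ v : TT D, D.ch v.1 y = D.ch v.1 g :=
      Filter.eventually_all.mpr fun v =>
        (IsLocallyConstant.iff_eventually_eq _).mp (ax.chc v.1 v.2.2).lc g
    have e2 : ∀ᶠ y in nhds g, ∀ i : Fin m, D.ch (z i) y = D.ch (z i) g :=
      Filter.eventually_all.mpr fun i =>
        (IsLocallyConstant.iff_eventually_eq _).mp (ax.chc (z i) (hzi i)).lc g
    have e3 : ∀ᶠ y in nhds g, D.cst y = D.cst g :=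
      (IsLocallyConstant.iff_eventually_eq _).mp ax.cstc.lc g
    filter_upwards [e1, e2, e3] with y h1 h2 h3
    simp only [lkF, h1, h2, h3]
  · rw [← VN.v_add]
    congr 1
    unfold lkF
    have h1 : ∀ v : TT D, D.ch v.1 (σ * τ) = D.ch v.1 σ + D.ch v.1 τ :=
      fun v => (ax.chc v.1 v.2.2).mul σ τ
    have h2 : ∀ i : Fin m, D.ch (z i) (σ * τ) = D.ch (z i) σ + D.ch (z i) τ :=
      fun i => (ax.chc (z i) (hzi i)).mul σ τ
    simp only [h1, h2, ax.cstc.mul σ τ, add_smul, Finset.sum_add_distrib]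
    abel

/-- The defect at the inertia generator of a fixed finite place. -/
private theorem lkE_tau (ax : Ax D) (hz : D.Ok z) (x : Unk (TT D) (VN N) m) (v : TT D) :
    lkE D S z x (D.tau v.1) (x.1 v) = 0 := by
  have hzi : ∀ i, z i ≠ D.inf := fun i hi => hz.nS i (hi ▸ ax.infS)
  unfold lkE
  have h1 : ∑ v', D.ch v'.1 (D.tau v.1) • S.σ v' (x.1 v' - x.1 v) = 0 := by
    refine Finset.sum_eq_zero fun v' _ => ?_
    by_cases h : v' = v
    · rw [h, sub_self, map_zero, smul_zero]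
    · rw [ax.ch_tau' _ _ v'.2.2 v.2.2 (fun h' => h (Subtype.ext h')), zero_smul]
  have h2 : ∑ i, D.ch (z i) (D.tau v.1) • (x.2.2 i - x.1 v) = 0 := by
    refine Finset.sum_eq_zero fun i _ => ?_
    rw [ax.ch_tau' _ _ (hzi i) v.2.2 (fun h' => hz.nS i (h' ▸ v.2.1)), zero_smul]
  rw [h1, h2, ax.cst_tau, zero_smul, add_zero, add_zero]

private theorem lkE_tau_z (ax : Ax D) (hz : D.Ok z) (x : Unk (TT D) (VN N) m) (i : Fin m) :
    lkE D S z x (D.tau (z i)) (x.2.2 i) = 0 := by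
  have hzi : ∀ i, z i ≠ D.inf := fun i hi => hz.nS i (hi ▸ ax.infS)
  unfold lkE
  have h1 : ∑ v', D.ch v'.1 (D.tau (z i)) • S.σ v' (x.1 v' - x.2.2 i) = 0 := by
    refine Finset.sum_eq_zero fun v' _ => ?_
    rw [ax.ch_tau' _ _ v'.2.2 (hzi i) (fun h' => hz.nS i (h' ▸ v'.2.1)), zero_smul]
  have h2 : ∑ j, D.ch (z j) (D.tau (z i)) • (x.2.2 j - x.2.2 i) = 0 := by
    refine Finset.sum_eq_zero fun j _ => ?_
    by_cases h : j = i
    · rw [h, sub_self, smul_zero]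
    · rw [ax.ch_tau' _ _ (hzi j) (hzi i) (fun h' => h (hz.inj h')), zero_smul]
  rw [h1, h2, ax.cst_tau, zero_smul, add_zero, add_zero]

private theorem lkE_phi_inf (ax : Ax D) (hz : D.Ok z) (x : Unk (TT D) (VN N) m) :
    lkE D S z x (D.phi D.inf) x.2.1 = 0 := by
  have hzi : ∀ i, z i ≠ D.inf := fun i hi => hz.nS i (hi ▸ ax.infS)
  unfold lkE
  have h1 : ∑ v', D.ch v'.1 (D.phi D.inf) • S.σ v' (x.1 v' - x.2.1) = 0 := by
    refine Finset.sum_eq_zero fun v' _ => ?_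
    rw [ax.ch_inf _ v'.2.2, zero_smul]
  have h2 : ∑ j, D.ch (z j) (D.phi D.inf) • (x.2.2 j - x.2.1) = 0 := by
    refine Finset.sum_eq_zero fun j _ => ?_
    rw [ax.ch_inf _ (hzi j), zero_smul]
  rw [h1, h2, sub_self, map_zero, smul_zero, add_zero, add_zero]

/-- The three equations. -/
private theorem lk_sol (ax : Ax D) (hSym : S_Sym) (hExp : S_Exp) (hS : IsSy D S) (hz : D.Ok z)
    (x : Unk (TT D) (VN N) m) :
    S.Sol (nz D z) (Az D z) (Bz D z) x ↔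
      lkE D S z x (D.tau D.inf) x.2.1 = 0 ∧
      (∀ v : TT D, lkE D S z x (D.phi v.1) (x.1 v) = 0) ∧
      ∀ i, lkE D S z x (D.phi (z i)) (x.2.2 i) = 0 := by
  have hzi : ∀ i, z i ≠ D.inf := fun i hi => hz.nS i (hi ▸ ax.infS)
  obtain ⟨hc, -, -, -⟩ := hExp D ax
  have e1 : lkE D S z x (D.tau D.inf) x.2.1 =
      ∑ v, S.d v • S.σ v (x.1 v - x.2.1) + ∑ i, nz D z i • (x.2.2 i - x.2.1) := by
    unfold lkE
    rw [ax.cst_tau, zero_smul, add_zero]
    simp only [hS.d]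
    rfl
  have e2 : ∀ v : TT D, lkE D S z x (D.phi v.1) (x.1 v) =
      ∑ v', S.l v v' • S.σ v' (x.1 v' - x.1 v) + ∑ i, Az D z v i • (x.2.2 i - x.1 v) +
        S.d v • S.Λ (x.2.1 - x.1 v) := by
    intro v
    unfold lkE
    have h : ∀ i, D.ch (z i) (D.phi v.1) = Az D z v i := fun i =>
      hSym D ax _ _ (hzi i) v.2.2 (fun h' => hz.nS i (h' ▸ v.2.1))
    simp only [hS.l, hS.d, hc v.1 v.2.2, h]
  have e3 : ∀ i, lkE D S z x (D.phi (z i)) (x.2.2 i) =
      ∑ v, Az D z v i • S.σ v (x.1 v - x.2.2 i) + ∑ j, Bz D z i j • (x.2.2 j - x.2.2 i) +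
        nz D z i • S.Λ (x.2.1 - x.2.2 i) := by
    intro i
    unfold lkE
    have h : ∀ j, D.ch (z j) (D.phi (z i)) = Bz D z i j := by
      intro j
      by_cases hij : j = i
      · rw [hij]
        rfl
      · exact hSym D ax _ _ (hzi j) (hzi i) (fun h' => hij (hz.inj h'))
    simp only [h, hc (z i) (hzi i)]
    rfl
  rw [e1]
  simp only [e2, e3]
  exact ⟨fun h => ⟨h.1, h.2.bad, h.2.good⟩, fun h => ⟨h.1, ⟨h.2.1, h.2.2⟩⟩⟩

omit [Group G] [TopologicalSpace G] [DistribMulAction G N] in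
private theorem typ_inf (x : Unk (TT D) (VN N) m) (h : D.inf ∈ D.S) :
    typ D x (Sum.inl ⟨D.inf, h⟩) = x.2.1.v := by
  simp [typ]

omit [Group G] [TopologicalSpace G] [DistribMulAction G N] in
private theorem typ_fin (x : Unk (TT D) (VN N) m) (v : TT D) (h : v.1 ∈ D.S) :
    typ D x (Sum.inl ⟨v.1, h⟩) = (x.1 v).v := by
  simp [typ, v.2.2]

omit [Group G] [TopologicalSpace G] [DistribMulAction G N] in
private theorem typ_inr (x : Unk (TT D) (VN N) m) (i : Fin m) :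
    typ D x (Sum.inr i) = (x.2.2 i).v := rfl

/-- A cocycle of the given form is a Selmer cocycle iff the equations hold. -/
private theorem lk_Z (ax : Ax D) (hMop : S_Mop) (hExp : S_Exp) (hSym : S_Sym) (hS : IsSy D S)
    (hz : D.Ok z) (x : Unk (TT D) (VN N) m) :
    D.IsZ z (typ D x) (fun g => (lkF D S z x g).v) ↔ S.Sol (nz D z) (Az D z) (Bz D z) x := by
  have hzi : ∀ i, z i ≠ D.inf := fun i hi => hz.nS i (hi ▸ ax.infS)
  have ho := lk_hoF (S := S) ax hz x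
  rw [lk_sol ax hSym hExp hS hz]
  constructor
  · intro h
    refine ⟨?_, fun v => ?_, fun i => ?_⟩
    · obtain ⟨Q, hQ, h1, h2⟩ := h.lo (Sum.inl ⟨D.inf, ax.infS⟩)
      rw [typ_inf] at hQ
      exact (lk_iff ax hMop hExp hS _ x _ Q hQ).mp h1
    · obtain ⟨Q, hQ, h1, h2⟩ := h.lo (Sum.inl ⟨v.1, v.2.1⟩)
      rw [typ_fin] at hQ
      exact (lk_iff ax hMop hExp hS _ x _ Q hQ).mp h2
    · obtain ⟨Q, hQ, h1, h2⟩ := h.lo (Sum.inr i)
      rw [typ_inr] at hQ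
      exact (lk_iff ax hMop hExp hS _ x _ Q hQ).mp h2
  · rintro ⟨h1, h2, h3⟩
    refine ⟨⟨ho.lc, fun σ τ => ?_, ⟨1, fun σ => by rw [pow_one]; exact ho.two σ⟩,
      fun v hv => ?_⟩, fun j => ?_⟩
    · rw [tw_two ax.tri (ho.two τ)]
      exact ho.mul σ τ
    · have hvS : v ∉ D.S := fun h' => hv ⟨Sum.inl ⟨v, h'⟩, rfl⟩
      have hvi : v ≠ D.inf := fun h' => hvS (h' ▸ ax.infS)
      have e : lkF D S z x (D.tau v) = 0 := by
        unfold lkF
        have e1 : ∑ v', D.ch v'.1 (D.tau v) • S.σ v' (x.1 v') = 0 := by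
          refine Finset.sum_eq_zero fun v' _ => ?_
          rw [ax.ch_tau' _ _ v'.2.2 hvi (fun h' => hvS (h' ▸ v'.2.1)), zero_smul]
        have e2 : ∑ i, D.ch (z i) (D.tau v) • x.2.2 i = 0 := by
          refine Finset.sum_eq_zero fun i _ => ?_
          rw [ax.ch_tau' _ _ (hzi i) hvi (fun h' => hv ⟨Sum.inr i, h'⟩), zero_smul]
        rw [e1, e2, ax.cst_tau, zero_smul, add_zero, add_zero]
      change (lkF D S z x (D.tau v)).v = 0
      rw [e, VN.v_zero]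
    · rcases j with ⟨v, hv⟩ | i
      · by_cases hvi : v = D.inf
        · subst hvi
          obtain ⟨Q, hQ⟩ := ax.dvs x.2.1.v
          refine ⟨Q, by rw [hQ, typ_inf], ?_, ?_⟩
          · exact (lk_iff ax hMop hExp hS _ x _ Q hQ).mpr h1
          · exact (lk_iff ax hMop hExp hS _ x _ Q hQ).mpr (lkE_phi_inf ax hz x)
        · obtain ⟨Q, hQ⟩ := ax.dvs (x.1 ⟨v, hv, hvi⟩).v
          refine ⟨Q, by rw [hQ]; exact (typ_fin x ⟨v, hv, hvi⟩ hv).symm, ?_, ?_⟩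
          · exact (lk_iff ax hMop hExp hS _ x _ Q hQ).mpr (lkE_tau ax hz x ⟨v, hv, hvi⟩)
          · exact (lk_iff ax hMop hExp hS _ x _ Q hQ).mpr (h2 ⟨v, hv, hvi⟩)
      · obtain ⟨Q, hQ⟩ := ax.dvs (x.2.2 i).v
        refine ⟨Q, by rw [hQ, typ_inr], ?_, ?_⟩
        · exact (lk_iff ax hMop hExp hS _ x _ Q hQ).mpr (lkE_tau_z ax hz x i)
        · exact (lk_iff ax hMop hExp hS _ x _ Q hQ).mpr (h3 i)

private theorem typ_inj (ax : Ax D) :
    Function.Injective (typ D : Unk (TT D) (VN N) m → D.J (Fin m) → N) := by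
  rintro ⟨c, c₀, s⟩ ⟨c', c₀', s'⟩ h
  have h1 : c = c' := by
    funext v
    have := congrFun h (Sum.inl ⟨v.1, v.2.1⟩)
    rw [typ_fin, typ_fin] at this
    exact VN.inj this
  have h2 : c₀ = c₀' := by
    have := congrFun h (Sum.inl ⟨D.inf, ax.infS⟩)
    rw [typ_inf, typ_inf] at this
    exact VN.inj this
  have h3 : s = s' := by
    funext i
    exact VN.inj (congrFun h (Sum.inr i))
  rw [h1, h2, h3]

omit [Group G] [TopologicalSpace G] [DistribMulAction G N] in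
private theorem typ_add (x y : Unk (TT D) (VN N) m) : typ D (x + y) = typ D x + typ D y := by
  funext j
  rcases j with ⟨v, hv⟩ | i
  · by_cases hvi : v = D.inf
    · simp [typ, hvi, VN.v_add]
    · simp [typ, hvi, VN.v_add]
  · rfl

omit [Group G] [TopologicalSpace G] [DistribMulAction G N] in
private theorem typ_two (x : Unk (TT D) (VN N) m) : 2 • typ D x = 0 := by
  funext j
  rcases j with ⟨v, hv⟩ | i
  · by_cases hvi : v = D.inf
    · simp [typ, hvi, VN.two]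
    · simp [typ, hvi, VN.two]
  · exact VN.two _

omit [Group G] [TopologicalSpace G] [DistribMulAction G N] in
private theorem typ_sur (t : D.J (Fin m) → N) (ht : ∀ j, 2 • t j = 0) (hi : D.inf ∈ D.S) :
    ∃ x : Unk (TT D) (VN N) m, t = typ D x := by
  refine ⟨(fun v => VN.mk (t (Sum.inl ⟨v.1, v.2.1⟩)) (ht _),
    VN.mk (t (Sum.inl ⟨D.inf, hi⟩)) (ht _), fun i => VN.mk (t (Sum.inr i)) (ht _)), ?_⟩
  funext j
  rcases j with ⟨v, hv⟩ | i
  · by_cases hvi : v = D.inf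
    · subst hvi
      rw [typ_inf, VN.v_mk]
    · rw [typ_fin _ ⟨v, hv, hvi⟩, VN.v_mk]
  · rfl

private theorem mem_Dk1 (t : D.J (Fin m) → N) : t ∈ D.Dk z 1 ↔ t ∈ D.Z z ∧ 2 • t = 0 := by
  unfold Dat.Dk
  rw [AddSubgroup.mem_map]
  constructor
  · rintro ⟨t', ⟨h1, h2⟩, h3⟩
    have e : mulN (D.J (Fin m) → N) (2 ^ (1 - 1)) t' = t' := by
      change 2 ^ (1 - 1) • t' = t'
      rw [Nat.sub_self, pow_zero, one_smul]
    rw [e] at h3
    subst h3
    have h2' := mem_tor.mp h2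
    rw [pow_one] at h2'
    exact ⟨h1, h2'⟩
  · rintro ⟨h1, h2⟩
    refine ⟨t, ⟨h1, mem_tor.mpr (by rw [pow_one]; exact h2)⟩, ?_⟩
    change 2 ^ (1 - 1) • t = t
    rw [Nat.sub_self, pow_zero, one_smul]

/-- A Selmer cocycle of type `typ D x` is of the given form. -/
private theorem lk_form (ax : Ax D) (hInj : S_Inj) (hMop : S_Mop) (hExp : S_Exp)
    (hS : IsSy D S) (hz : D.Ok z) (x : Unk (TT D) (VN N) m) (ψ : G → N)
    (h : D.IsZ z (typ D x) ψ) : ψ = fun g => (lkF D S z x g).v := by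
  classical
  have hzi : ∀ i, z i ≠ D.inf := fun i hi => hz.nS i (hi ▸ ax.infS)
  have h2 : ∀ σ, 2 • ψ σ = 0 := by
    intro σ
    have h0 : D.IsZ z 0 (fun σ => ψ σ + ψ σ) := by
      have := h.add h
      rwa [← two_nsmul, typ_two] at this
    have := hInj D ax z _ h0 σ
    rwa [two_nsmul]
  have ho : IsHo ψ := ⟨h.u.lc, h2, fun σ τ => by rw [h.u.co σ τ, tw_two ax.tri (h2 τ)]⟩
  have hoF := lk_hoF (S := S) ax hz x
  obtain ⟨-, hE2, -, -⟩ := hExp D ax
  let A : Finset P := D.S.erase D.inf ∪ univ.image z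
  have hA : ∀ v, v ∈ A ↔ (v ∈ D.S ∧ v ≠ D.inf) ∨ ∃ i, z i = v := by
    intro v
    simp only [A, mem_union, mem_erase, mem_image, mem_univ, true_and]
    tauto
  have hiA : D.inf ∉ A := by
    rw [hA]
    rintro (h' | ⟨i, h'⟩)
    · exact h'.2 rfl
    · exact hzi i h'
  have hurF : ∀ v, v ∉ A → v ≠ D.inf → (lkF D S z x (D.tau v)).v = 0 := by
    intro v hv hvi
    rw [hA] at hv
    push Not at hv
    have e : lkF D S z x (D.tau v) = 0 := by
      unfold lkF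
      have e1 : ∑ v', D.ch v'.1 (D.tau v) • S.σ v' (x.1 v') = 0 := by
        refine Finset.sum_eq_zero fun v' _ => ?_
        rw [ax.ch_tau' _ _ v'.2.2 hvi (fun h' => hvi (hv.1 (h' ▸ v'.2.1))), zero_smul]
      have e2 : ∑ i, D.ch (z i) (D.tau v) • x.2.2 i = 0 := by
        refine Finset.sum_eq_zero fun i _ => ?_
        rw [ax.ch_tau' _ _ (hzi i) hvi (hv.2 i), zero_smul]
      rw [e1, e2, ax.cst_tau, zero_smul, add_zero, add_zero]
    rw [e, VN.v_zero]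
  have hur : ∀ v, v ∉ A → v ≠ D.inf → ψ (D.tau v) = 0 := by
    intro v hv hvi
    apply h.u.ur
    rw [hA] at hv
    push Not at hv
    rintro ⟨j, hj⟩
    rcases j with ⟨s, hs⟩ | i
    · have hj' : s = v := hj
      subst hj'
      exact hvi (hv.1 hs)
    · exact hv.2 i hj
  have hA1 : ∀ v ∈ A, ψ (D.tau v) = (lkF D S z x (D.tau v)).v := by
    intro v hv
    rw [hA] at hv
    rcases hv with hv | ⟨i, rfl⟩
    · obtain ⟨Q, hQ, h1, -⟩ := h.lo (Sum.inl ⟨v, hv.1⟩)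
      rw [typ_fin x ⟨v, hv⟩] at hQ
      rw [(lk_iff ax hMop hExp hS _ x _ Q hQ).mpr (lkE_tau ax hz x ⟨v, hv⟩)]
      exact h1
    · obtain ⟨Q, hQ, h1, -⟩ := h.lo (Sum.inr i)
      rw [typ_inr] at hQ
      rw [(lk_iff ax hMop hExp hS _ x _ Q hQ).mpr (lkE_tau_z ax hz x i)]
      exact h1
  have hA2 : ψ (D.phi D.inf) = (lkF D S z x (D.phi D.inf)).v := by
    obtain ⟨Q, hQ, -, h1⟩ := h.lo (Sum.inl ⟨D.inf, ax.infS⟩)
    rw [typ_inf] at hQ
    rw [(lk_iff ax hMop hExp hS _ x _ Q hQ).mpr (lkE_phi_inf ax hz x)]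
    exact h1
  funext σ
  rw [hE2 A ψ hiA ho hur σ, hE2 A _ hiA hoF hurF σ, ← hA2]
  congr 1
  refine Finset.sum_congr rfl fun v hv => ?_
  rw [hA1 v hv]

end

theorem tLnk (_hHom : S_Hom) (hInj : S_Inj) (_hTai : S_Tai) (hSym : S_Sym) (hMop : S_Mop)
    (hExp : S_Exp) : S_Lnk := by
  intro G N P _ _ _ _ D ax S hS m z hz
  have key : ∀ t : D.J (Fin m) → N, t ∈ D.Dk z 1 ↔
      ∃ x : Unk (TT D) (VN N) m, t = typ D x ∧ S.Sol (nz D z) (Az D z) (Bz D z) x := by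
    intro t
    rw [mem_Dk1]
    constructor
    · rintro ⟨⟨ψ, hψ⟩, ht⟩
      obtain ⟨x, rfl⟩ := typ_sur (D := D) (m := m) t (fun j => congrFun ht j) ax.infS
      refine ⟨x, rfl, ?_⟩
      rw [← lk_Z ax hMop hExp hSym hS hz]
      rwa [← lk_form ax hInj hMop hExp hS hz x ψ hψ]
    · rintro ⟨x, rfl, hx⟩
      exact ⟨⟨_, (lk_Z ax hMop hExp hSym hS hz x).mpr hx⟩, typ_two x⟩
  refine ⟨key, typ_inj ax, typ_add, ?_⟩
  refine (Nat.card_congr (Equiv.ofBijective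
    (fun x : {x : Unk (TT D) (VN N) m // S.Sol (nz D z) (Az D z) (Bz D z) x} =>
      (⟨typ D x.1, (key _).mpr ⟨x.1, rfl, x.2⟩⟩ : D.Dk z 1)) ⟨?_, ?_⟩)).symm
  · intro x y hxy
    exact Subtype.ext (typ_inj ax (congrArg Subtype.val hxy))
  · rintro ⟨t, ht⟩
    obtain ⟨x, hx, hs⟩ := (key t).mp ht
    exact ⟨⟨x, hs⟩, Subtype.ext hx.symm⟩

end Pool.Agent.MP72S.Lv
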