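import Pool.Agent.Lib.MP_72e2e6_nt.Sm.G.SpecC

/-!
# MP_72e2e6_nt, `Sm/G`: what block G delivers for the structure `Lvl`
-/

set_option autoImplicit false

namespace Pool.Agent.MP72S.Lv

open Finset Polynomial MP72e2e6

theorem tLvg (h1 : S_Nrr) (h2 : S_Lg1) (h3 : S_Lg2) (h4 : S_Lg3) : S_Lvg := by
  intro G N P F _ _ _ _ _ _ D pi Irr Adm hA hI hAr hF hOk
  refine ⟨h1 D pi Irr hA hAr, ?_, ?_, ?_⟩
  · obtain ⟨C, hC⟩ := h2 D pi Irr hA hAr hF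
    refine ⟨C, fun r => ?_⟩
    obtain ⟨N₀, hN⟩ := hC (r + 1)
    exact ⟨N₀, fun n hn hi => hN n hi fun z hz => (hOk r n hn z hz).1⟩
  · intro L₀ ε hε
    obtain ⟨m₀, hm⟩ := h3 D pi Irr hA hI hAr hF L₀ ε hε
    refine ⟨m₀, fun r hr => ?_⟩
    obtain ⟨N₀, hN⟩ := hm (r + 1) (le_trans hr (Nat.le_succ r))
    exact ⟨N₀, fun n hn hi => hN n hi (hOk r n hn) (Fin.last r)⟩
  · intro r n hn z hz
    obtain ⟨s, hs⟩ := h4 D hA (r + 1) z (hOk r n hn z hz).1 (hOk r n hn z hz).2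
    exact ⟨s + 1, hs⟩

end Pool.Agent.MP72S.Lv
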