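import Pool.Agent.Lib.MP_72e2e6_nt.Sm.G.Mom

/-!
# MP_72e2e6_nt, `Sm`, block G: the average number of the bad solutions
-/

set_option autoImplicit false

namespace Pool.Agent.MP72S.Lv

open Finset MP72e2e6

namespace MbdAux

section

variable {T V : Type} [Fintype T] [AddCommGroup V] [Module (ZMod 2) V] {m : ℕ}

private theorem pow_tm {S : Opr T V} {n : Fin m → ZMod 2} (h : S.Tm n) (k : ℕ) :
    (S.pow k).Tm n := by
  have hd : (S.pow k).d = S.d := rfl
  refine ⟨fun v x hx => funext fun j => h.inj v (x j) (congrFun hx j), fun x hx => funext fun j =>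
    h.inf (x j) ?_⟩
  have h1 := congrFun hx j
  simpa only [Pi.add_apply, Finset.sum_apply, Pi.smul_apply, Pi.zero_apply, Opr.pow_σ, hd] using h1

private theorem key (hStr : S_Str) [Finite V] {S : Opr T V} {n : Fin m → ZMod 2} (hT : S.Tm n)
    {k : ℕ} (hD : S.Dns k) {b : Fin m} {L : ℕ} {x : Unk T (Fin k → V) m}
    (hI : (S.pow k).Inf n x) (hB : Bad k b L x) {lam : Fin m → Module.Dual (ZMod 2) (Fin k → V)}
    {δ : T → Module.Dual (ZMod 2) (Fin k → V)} (hC : (S.pow k).Cmp x.1 x.2.2 lam δ) :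
    ¬ ∃ 𝓥 : Finset ((Fin k → V) × Module.Dual (ZMod 2) (Fin k → V)),
      #𝓥 = Nat.card (Fin k → V) ∧ (∀ i, (x.2.2 i, lam i) ∈ 𝓥) ∧
        ∀ w ∈ 𝓥, L < {i | (x.2.2 i, lam i) = w}.ncard := by
  intro hV
  obtain ⟨A, h1, h2, h3, h4, h5⟩ := hStr T (Fin k → V) m (S.pow k) n (pow_tm hT k) x hI lam δ hC L hV
  by_cases hA : A = ⊤
  · obtain ⟨w, hw⟩ := hB.few
    have h6 := h5 b w (by rw [hA]; exact Submodule.mem_top)
    omega
  · obtain ⟨β, hβ, hβA⟩ := hD A h1 hA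
    apply hβ
    refine hB.ind β (fun v => ?_) (fun i => ?_)
    · have h6 : x.1 v - x.2.1 ∈ A := by
        have h7 := A.sub_mem (h3 v b) (h4 b)
        rwa [sub_sub_sub_cancel_right] at h7
      exact hβA _ h6
    · have h6 : x.2.2 i - x.2.1 ∈ A := by
        rw [← neg_sub]
        exact A.neg_mem (h4 i)
      exact hβA _ h6

end

end MbdAux

open MomAux MbdAux in
theorem tMbd (h1 : S_Few) (h2 : S_Prb) (h4 : S_Str) (h3 : StmtPpTS) : S_Mbd := by
  intro T V X _ _ _ _ m S n hT k hD Z A B M ε hM hε hE b L N hN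
  have hW : Nat.card (Fin k → V) = N := by
    rw [Nat.card_fun, Nat.card_fin, hN]
  have hN0 : (0 : ℝ) < (N : ℝ) := by
    rw [← hW]
    exact_mod_cast card_one_le (Fin k → V)
  have h5 := sum_le h2 (S.pow k) n Z A B hM hε hE
    (fun x : Unk T (Fin k → V) m => (S.pow k).Inf n x ∧ Bad k b L x)
  have h6 : (∑ z ∈ Z, (Nat.card {x : Unk T (Fin k → V) m //
      (S.pow k).Sol n (A z) (B z) x ∧ Bad k b L x} : ℝ)) ≤
      ∑ z ∈ Z, (Nat.card {x : Unk T (Fin k → V) m // (S.pow k).Eqs n (A z) (B z) x ∧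
        ((S.pow k).Inf n x ∧ Bad k b L x)} : ℝ) := by
    refine Finset.sum_le_sum fun z _ => ?_
    exact_mod_cast Nat.card_le_card_of_injective
      (fun x : {x : Unk T (Fin k → V) m // (S.pow k).Sol n (A z) (B z) x ∧ Bad k b L x} =>
        (⟨x.1, x.2.1.2, x.2.1.1, x.2.2⟩ : {x : Unk T (Fin k → V) m //
          (S.pow k).Eqs n (A z) (B z) x ∧ ((S.pow k).Inf n x ∧ Bad k b L x)}))
      (fun x y h => Subtype.ext (Subtype.mk.inj h))
  rw [hW] at h5
  refine (h6.trans h5).trans (mul_le_mul_of_nonneg_left (add_le_add_left ?_ _) hM)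
  have h7 := (card_le (S.pow k) (fun x : Unk T (Fin k → V) m => (S.pow k).Inf n x ∧ Bad k b L x)
    (fun u => (∀ i j, Rel (u i) (u j)) ∧
      ¬ ∃ 𝓥 : Finset ((Fin k → V) × Module.Dual (ZMod 2) (Fin k → V)),
        #𝓥 = Nat.card (Fin k → V) ∧ (∀ i, u i ∈ 𝓥) ∧ ∀ w ∈ 𝓥, L < {i | u i = w}.ncard)
    (fun x lam δ hP hC => ⟨cmp_rel hC, key h4 hT hD hP.1 hP.2 hC⟩)).trans
      (Nat.mul_le_mul_left _ (few_hyp h3 h1 (Fin k → V) m L).2)
  rw [hW] at h7
  rw [div_le_iff₀ (pow_pos hN0 _)]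
  calc _ ≤ ((N ^ (2 * Fintype.card T + 1) * (2 ^ (N ^ 2) * N * few N L m) : ℕ) : ℝ) := by
        exact_mod_cast h7
    _ = _ := by
      push_cast
      rw [pow_add, pow_add, pow_add]
      field_simp
      ring

end Pool.Agent.MP72S.Lv
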