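import Pool.Agent.Lib.MP_72e2e6_nt.Sm.G.MomAux

/-!
# MP_72e2e6_nt, `Sm`, block G: the average number of solutions
-/

set_option autoImplicit false

namespace Pool.Agent.MP72S.Lv

open Finset MP72e2e6

namespace MomAux

/-- The relation on `W × Dual W`. -/
def Rel {W : Type} [AddCommGroup W] [Module (ZMod 2) W] (u u' : W × Module.Dual (ZMod 2) W) : Prop :=
  (u.2 - u'.2) (u.1 - u'.1) = 0

theorem rel_card (h3 : StmtPpTS) (W : Type) [AddCommGroup W] [Module (ZMod 2) W] [Finite W]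
    (𝓥 : Finset (W × Module.Dual (ZMod 2) W)) (h : ∀ w ∈ 𝓥, ∀ w' ∈ 𝓥, Rel w w') :
    #𝓥 ≤ Nat.card W := by
  have : Fact (Nat.Prime 2) := ⟨Nat.prime_two⟩
  refine (h3 2 W 𝓥 fun w hw w' hw' => ?_).1
  have h1 := h w hw w' hw'
  unfold Rel at h1
  unfold BW
  rw [← neg_sub w.1 w'.1, map_neg, ← sub_eq_neg_add, ← neg_sub, ← LinearMap.sub_apply, h1, neg_zero]

theorem card_one_le (W : Type) [AddCommGroup W] [Finite W] : 1 ≤ Nat.card W :=
  Nat.card_pos

theorem few_hyp (h3 : StmtPpTS) (h1 : S_Few) (W : Type) [AddCommGroup W] [Module (ZMod 2) W]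
    [Finite W] (m L : ℕ) :
    Nat.card {u : Fin m → W × Module.Dual (ZMod 2) W // ∀ i j, Rel (u i) (u j)} ≤
      2 ^ (Nat.card W ^ 2) * Nat.card W ^ m ∧
    Nat.card {u : Fin m → W × Module.Dual (ZMod 2) W // (∀ i j, Rel (u i) (u j)) ∧
      ¬ ∃ 𝓥 : Finset (W × Module.Dual (ZMod 2) W), #𝓥 = Nat.card W ∧ (∀ i, u i ∈ 𝓥) ∧
        ∀ w ∈ 𝓥, L < {i | u i = w}.ncard} ≤
        2 ^ (Nat.card W ^ 2) * Nat.card W * few (Nat.card W) L m := by
  have := fin_dual W
  have hc : Nat.card (W × Module.Dual (ZMod 2) W) = Nat.card W ^ 2 := by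
    rw [Nat.card_prod, card_dual, sq]
  have h := h1 (W × Module.Dual (ZMod 2) W) Rel (Nat.card W) (card_one_le W)
    (by rw [hc, sq]; exact Nat.le_mul_of_pos_left _ (card_one_le W)) (rel_card h3 W) m L
  rw [hc] at h
  exact h

theorem cmp_rel {T W : Type} [AddCommGroup W] [Module (ZMod 2) W] {m : ℕ} {S : Opr T W}
    {c : T → W} {s : Fin m → W} {lam : Fin m → Module.Dual (ZMod 2) W}
    {δ : T → Module.Dual (ZMod 2) W} (h : S.Cmp c s lam δ) (i j : Fin m) :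
    Rel (s i, lam i) (s j, lam j) := h.un i j

end MomAux

open MomAux in
theorem tMom (h1 : S_Few) (h2 : S_Prb) (h3 : StmtPpTS) : S_Mom := by
  intro T W X _ _ _ _ m S n Z A B M ε hM hε hE
  have hN : (0 : ℝ) < (Nat.card W : ℝ) := by exact_mod_cast card_one_le W
  have h4 := sum_le h2 S n Z A B hM hε hE (fun _ => True)
  have h5 : (∑ z ∈ Z, (Nat.card {x : Unk T W m // S.Sol n (A z) (B z) x} : ℝ)) ≤
      ∑ z ∈ Z, (Nat.card {x : Unk T W m // S.Eqs n (A z) (B z) x ∧ True} : ℝ) := by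
    refine Finset.sum_le_sum fun z _ => ?_
    exact_mod_cast Nat.card_le_card_of_injective
      (fun x : {x : Unk T W m // S.Sol n (A z) (B z) x} =>
        (⟨x.1, x.2.2, trivial⟩ : {x : Unk T W m // S.Eqs n (A z) (B z) x ∧ True}))
      (fun x y h => Subtype.ext (Subtype.mk.inj h))
  refine (h5.trans h4).trans (mul_le_mul_of_nonneg_left (add_le_add_left ?_ _) hM)
  have h6 := (card_le S (fun _ : Unk T W m => True) (fun u => ∀ i j, Rel (u i) (u j))
    (fun x lam δ _ h => cmp_rel h)).trans (Nat.mul_le_mul_left _ (few_hyp h3 h1 W m 0).1)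
  rw [div_le_iff₀ (pow_pos hN _)]
  calc _ ≤ (((Nat.card W) ^ (2 * Fintype.card T + 1) * (2 ^ (Nat.card W ^ 2) *
      Nat.card W ^ m) : ℕ) : ℝ) := by exact_mod_cast h6
    _ = _ := by
      push_cast
      ring

end Pool.Agent.MP72S.Lv
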