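import Pool.Agent.Lib.MP_72e2e6_nt.Sm.G.SpecC

/-!
# MP_72e2e6_nt, `Sm`, block G: the operators on the elements of order two
-/

set_option autoImplicit false

namespace Pool.Agent.MP72S.Lv

section

variable {G N P : Type} [Group G] [TopologicalSpace G] [AddCommGroup N] [DistribMulAction G N]
  {D : Dat G N P}

private theorem mop_four {x : VN N} {Q : N} (h : 2 • Q = x.v) : 4 • Q = 0 := by
  rw [show (4 : ℕ) = 2 * 2 from rfl, mul_smul, h, VN.two]

private theorem mop_e0 (hA : Ax D) {y : N} (hy : 2 • y = 0) : D.e 0 y = 0 := by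
  have h0 : 2 • (0 : N) = 0 := smul_zero _
  have h := hA.e_add 0 0 y h0 h0 hy
  rw [add_zero] at h
  exact left_eq_add.1 h

end

theorem tMop (h1 : S_Msa) : S_Mop := by
  intro G N P _ _ _ _ D hA
  have hmsa := h1 D hA
  have hhalf : ∀ x : VN N, ∃ Q : N, 2 • Q = x.v := fun x => hA.dvs x.v
  refine ⟨?_, ?_, ?_, ?_, ?_, ?_, ?_, ?_⟩
  · rw [← hA.four]
    exact Nat.card_congr ⟨fun x => ⟨x.v, x.two⟩, fun x => VN.mk x.1 x.2, fun x => VN.inj rfl,
      fun x => rfl⟩
  · have hadd : ∀ x y z : VN N, D.e (x + y).v z.v = D.e x.v z.v + D.e y.v z.v := fun x y z => by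
      rw [VN.v_add]
      exact hA.e_add _ _ _ x.two y.two z.two
    have hsym : ∀ x y : VN N, D.e x.v y.v = D.e y.v x.v := fun x y => hA.e_sym _ _ x.two y.two
    let F : VN N → Module.Dual (ZMod 2) (VN N) := fun x =>
      (AddMonoidHom.mk' (fun y => D.e x.v y.v) (fun y z => by
        rw [hsym, hadd, hsym y, hsym z])).toZModLinearMap 2
    have hF : ∀ x y, F x y = D.e x.v y.v := fun x y => rfl
    refine ⟨(AddMonoidHom.mk' F (fun x y => ?_)).toZModLinearMap 2, ?_, ?_, ?_⟩
    · ext z
      rw [hF, LinearMap.add_apply, hF, hF, hadd]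
    · intro x y
      rfl
    · intro x
      exact hA.e_alt _ x.two
    · intro x h
      apply VN.inj
      rw [VN.v_zero]
      exact hA.e_nd _ x.two fun y hy => h (VN.mk y hy)
  · intro χ g
    choose q hq using hhalf
    have h4 : ∀ x, 4 • q x = 0 := fun x => mop_four (hq x)
    let F : VN N → VN N := fun x => VN.mk (tw χ g (q x) - q x) (hmsa χ g _ _ (h4 x) (h4 x)).1
    have hF : ∀ (x : VN N) (Q : N), 2 • Q = x.v → (F x).v = tw χ g Q - Q := by
      intro x Q hQ
      exact (hmsa χ g _ _ (h4 x) (mop_four hQ)).2.1 ((hq x).trans hQ.symm)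
    refine ⟨(AddMonoidHom.mk' F (fun x y => ?_)).toZModLinearMap 2, hF⟩
    apply VN.inj
    rw [VN.v_add, hF x _ (hq x), hF y _ (hq y),
      hF (x + y) (q x + q y) (by rw [smul_add, hq, hq, VN.v_add]), tw_add]
    abel
  · intro f hf χ g L hL x y
    obtain ⟨Q, hQ⟩ := hhalf x
    obtain ⟨Q', hQ'⟩ := hhalf y
    rw [hf.eq, hf.eq, hL x Q hQ, hL y Q' hQ', ← hQ, ← hQ']
    exact (hmsa χ g Q Q' (mop_four hQ) (mop_four hQ')).2.2.2.symm
  · intro χ g L L' hL hL'
    ext x
    obtain ⟨Q, hQ⟩ := hhalf x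
    apply VN.inj
    rw [hL x Q hQ, hL' x Q hQ]
  · intro χ g h L L' hχ hL hL' x Q hQ
    rw [LinearMap.add_apply, VN.v_add, hL x Q hQ, hL' x Q hQ]
    exact ((hmsa χ g Q Q (mop_four hQ) (mop_four hQ)).2.2.1 h hχ).symm
  · intro χ χ' g a L hχ hL x Q hQ
    have hm := (hmsa χ g Q Q (mop_four hQ) (mop_four hQ)).1
    have h4 := mop_four hQ
    rw [LinearMap.add_apply, VN.v_add, hL x Q hQ, LinearMap.smul_apply, Module.End.one_apply]
    have htw : tw χ' g Q = sg a (tw χ g Q) := by
      rw [tw, tw, hχ, sg_sg, add_comm]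
    rw [htw]
    rcases zmod2 a with rfl | rfl
    · rw [zero_smul, VN.v_zero, add_zero, sg_zero']
    · rw [one_smul, ← hQ, sg_one']
      have h5 : (tw χ g Q - Q + 2 • Q) - (-tw χ g Q - Q) = 2 • (tw χ g Q - Q) + 4 • Q := by
        rw [smul_sub, show (4 : ℕ) = 2 + 2 from rfl, add_smul, two_nsmul, two_nsmul]
        abel
      rw [hm, h4, add_zero, sub_eq_zero] at h5
      exact h5
  · intro χ g L hL
    constructor
    · intro h x hx
      obtain ⟨Q, hQ⟩ := hhalf x
      have h2 := hL x Q hQ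
      rw [hx, VN.v_zero] at h2
      have h3 := h Q (sub_eq_zero.1 h2.symm)
      apply VN.inj
      rw [← hQ, h3, VN.v_zero]
    · intro h
      have key : ∀ (k : ℕ) (Q : N), tw χ g Q = Q → 2 ^ k • Q = 0 → 2 • Q = 0 := by
        intro k
        induction k with
        | zero =>
          intro Q _ h2
          rw [pow_zero, one_smul] at h2
          rw [h2, smul_zero]
        | succ k ih =>
          intro Q hQ h2
          cases k with
          | zero => rwa [zero_add, pow_one] at h2
          | succ k =>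
            have h3 : 2 • (2 • (2 ^ k • Q)) = 0 := by
              rw [← mul_smul, ← mul_smul, ← h2]
              congr 1
              ring
            have h4 : L (VN.mk (2 • (2 ^ k • Q)) h3) = 0 := by
              apply VN.inj
              rw [hL _ (2 ^ k • Q) rfl, VN.v_zero, tw_nsmul, hQ, sub_self]
            have h5 := congrArg VN.v (h _ h4)
            rw [VN.v_mk, VN.v_zero, ← mul_smul, ← pow_succ'] at h5
            exact ih Q hQ h5
      intro Q hQ
      obtain ⟨k, hk⟩ := hA.prim Q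
      exact key k Q hQ hk

end Pool.Agent.MP72S.Lv
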