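import Pool.Agent.Lib.MP_72e2e6_nt.Sm.G.SpecB

/-! # MP_72e2e6_nt, `Sm/G/Nrr`: the number of the places of degree `n` -/

set_option autoImplicit false

namespace Pool.Agent.MP72S.Lv

open Finset Polynomial MP72e2e6

theorem tNrr (h1 : S_Nir) : S_Nrr := by
  intro G N P F _ _ _ _ _ _ D pi Irr hA hAr M
  classical
  obtain ⟨n₁, hn₁⟩ := (h1 F).2 M
  refine ⟨max n₁ (D.S.sup (fun v => (pi v).natDegree) + 1), fun n hn => ?_⟩
  have hn1 : n₁ ≤ n := le_trans (le_max_left _ _) hn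
  have hn2 : D.S.sup (fun v => (pi v).natDegree) + 1 ≤ n := le_trans (le_max_right _ _) hn
  refine (hn₁ n hn1).trans (Finset.card_le_card_of_surjOn pi ?_)
  intro Q hQ
  rw [Finset.mem_coe, irr, Finset.mem_filter, mem_mon] at hQ
  obtain ⟨v, hv, rfl⟩ := hAr.sur Q hQ.1.1 hQ.2
  refine ⟨v, ?_, rfl⟩
  rw [Finset.mem_coe, hAr.irr]
  refine ⟨fun hvS => ?_, hQ.1.2⟩
  have h3 : (pi v).natDegree ≤ D.S.sup (fun v => (pi v).natDegree) :=
    Finset.le_sup (f := fun v => (pi v).natDegree) hvS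
  have h4 := hQ.1.2
  omega

end Pool.Agent.MP72S.Lv
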