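import Pool.Agent.Lib.MP_72e2e6_nt.Sm.G.SpecD

/-!
# MP_72e2e6_nt, `Sm/G`, module `Odm`: a prime divisor of odd multiplicity
-/

set_option autoImplicit false

namespace Pool.Agent.MP72S.Lv

open Finset Polynomial MP72e2e6

/-- A multiset with even counts is a double. -/
private theorem odmDbl {A : Type} [DecidableEq A] (s : Multiset A)
    (h : ∀ a ∈ s, Even (s.count a)) : ∃ t : Multiset A, s = t + t := by
  refine ⟨∑ a ∈ s.toFinset, (s.count a / 2) • {a}, ?_⟩
  ext a
  rw [Multiset.count_add, Multiset.count_sum']
  have h1 : ∑ x ∈ s.toFinset, Multiset.count a ((s.count x / 2) • ({x} : Multiset A)) =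
      s.count a / 2 := by
    by_cases ha : a ∈ s
    · rw [Finset.sum_eq_single a]
      · rw [Multiset.count_nsmul, Multiset.count_singleton_self, mul_one]
      · intro b _ hb
        rw [Multiset.count_nsmul, Multiset.count_singleton, if_neg (fun e => hb e.symm), mul_zero]
      · intro h2
        exact absurd (Multiset.mem_toFinset.2 ha) h2
    · rw [Multiset.count_eq_zero_of_notMem ha, Nat.zero_div]
      refine Finset.sum_eq_zero fun b hb => ?_
      have hb' : b ∈ s := Multiset.mem_toFinset.1 hb
      have hne : a ≠ b := by
        rintro rfl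
        exact ha hb'
      rw [Multiset.count_nsmul, Multiset.count_singleton, if_neg hne, mul_zero]
  rw [h1]
  by_cases ha : a ∈ s
  · obtain ⟨r, hr⟩ := h a ha
    omega
  · rw [Multiset.count_eq_zero_of_notMem ha]

theorem tOdm : S_Odm := by
  classical
  intro F _ f hf hn
  by_contra hcon
  push Not at hcon
  obtain ⟨t, ht⟩ := odmDbl (UniqueFactorizationMonoid.normalizedFactors f) (by
    intro P hP
    have hi := UniqueFactorizationMonoid.irreducible_of_normalized_factor P hP
    have hnP := UniqueFactorizationMonoid.normalize_normalized_factor P hP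
    have hm : P.Monic := by
      rw [← hnP]
      exact Polynomial.monic_normalize hi.ne_zero
    have h1 := hcon P hm hi
    rw [Nat.not_odd_iff_even] at h1
    have h2 := UniqueFactorizationMonoid.emultiplicity_eq_count_normalizedFactors hi hf
    rw [hnP] at h2
    rw [multiplicity_eq_of_emultiplicity_eq_some h2] at h1
    exact h1)
  have h3 := Polynomial.leadingCoeff_mul_prod_normalizedFactors f
  refine hn f.leadingCoeff t.prod ?_
  rw [ht, Multiset.prod_add, ← sq] at h3
  exact h3.symm

end Pool.Agent.MP72S.Lv
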