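import Pool.Agent.Lib.MP_72e2e6_nt.Sm.G.SpecC

/-!
# MP_72e2e6_nt, `Sm`, block G, module Pbd: missing patterns give bad solutions
-/

set_option autoImplicit false

namespace Pool.Agent.MP72S.Lv

open Finset Polynomial MP72e2e6

section

variable {T V : Type} [AddCommGroup V] [Module (ZMod 2) V] {m : ℕ}

/-- The differences to the component at infinity. -/
private def pbF (T V : Type) [AddCommGroup V] [Module (ZMod 2) V] (m : ℕ) :
    Unk T V m →ₗ[ZMod 2] (T → V) × (Fin m → V) where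
  toFun x := (fun v => x.1 v - x.2.1, fun i => x.2.2 i - x.2.1)
  map_add' x y := by
    refine Prod.ext ?_ ?_
    · funext v
      change x.1 v + y.1 v - (x.2.1 + y.2.1) = (x.1 v - x.2.1) + (y.1 v - y.2.1)
      abel
    · funext v
      change x.2.2 v + y.2.2 v - (x.2.1 + y.2.1) = (x.2.2 v - x.2.1) + (y.2.2 v - y.2.1)
      abel
  map_smul' a x := by
    refine Prod.ext ?_ ?_
    · funext v
      change a • x.1 v - a • x.2.1 = a • (x.1 v - x.2.1)
      rw [smul_sub]
    · funext v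
      change a • x.2.2 v - a • x.2.1 = a • (x.2.2 v - x.2.1)
      rw [smul_sub]

/-- The constant unknown. -/
private def pbC (T V : Type) (m : ℕ) (w : V) : Unk T V m := (fun _ => w, w, fun _ => w)

private theorem pbF_zero {x : Unk T V m} (h : pbF T V m x = 0) : x = pbC T V m x.2.1 := by
  have h1 := congrArg Prod.fst h
  have h2 := congrArg Prod.snd h
  refine Prod.ext ?_ (Prod.ext rfl ?_)
  · funext v
    exact sub_eq_zero.mp (congrFun h1 v)
  · funext v
    exact sub_eq_zero.mp (congrFun h2 v)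

private theorem pbF_C (w : V) : pbF T V m (pbC T V m w) = 0 := by
  refine Prod.ext ?_ ?_
  · funext v
    exact sub_self w
  · funext v
    exact sub_self w

private theorem sol_C [Fintype T] (S : Opr T V) (n : Fin m → ZMod 2) (A : T → Fin m → ZMod 2)
    (B : Fin m → Fin m → ZMod 2) (w : V) : S.Sol n A B (pbC T V m w) := by
  refine ⟨?_, ⟨fun v => ?_, fun i => ?_⟩⟩
  · simp [Opr.Inf, pbC]
  · simp [pbC]
  · simp [pbC]

end

section

variable {G N P : Type} [Group G] [TopologicalSpace G] [AddCommGroup N] [DistribMulAction G N]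

private theorem card_VN {D : Dat G N P} (ax : Ax D) : Nat.card (VN N) = 4 := by
  rw [← ax.four]
  exact Nat.card_congr ⟨fun x => ⟨x.v, x.two⟩, fun y => VN.mk y.1 y.2, fun x => rfl, fun y => rfl⟩

omit [Group G] [TopologicalSpace G] [DistribMulAction G N] in
private theorem typ_C (D : Dat G N P) {m : ℕ} (w : VN N) :
    typ D (pbC (TT D) (VN N) m w) = fun _ => w.v := by
  funext j
  rcases j with ⟨v, hv⟩ | i
  · simp [typ, pbC]
  · rfl

end

theorem tPbd (_hTin : S_Tin) (hLnk : S_Lnk) (hPwc : S_Pwc) : S_Pbd := by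
  intro G N P _ _ _ _ D ax S hS m z hz
  obtain ⟨hk1, hk2, hk3, hk4⟩ := hLnk D ax S hS m z hz
  have hc4 := card_VN ax
  have hfin : Finite (VN N) := Nat.finite_of_card_ne_zero (by rw [hc4]; norm_num)
  have hsol : ∀ x : Unk (TT D) (VN N) m, typ D x ∈ D.Dk z 1 ↔
      S.Sol (nz D z) (Az D z) (Bz D z) x := by
    intro x
    rw [hk1]
    exact ⟨fun ⟨y, hy, hs⟩ => by rwa [hk2 hy], fun h => ⟨x, rfl, h⟩⟩
  let τ : Unk (TT D) (VN N) m →+ (D.J (Fin m) → N) := AddMonoidHom.mk' (typ D) hk3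
  let Sl : Submodule (ZMod 2) (Unk (TT D) (VN N) m) :=
    AddSubgroup.toZModSubmodule 2 ((D.Dk z 1).comap τ)
  have hSl : ∀ x, x ∈ Sl ↔ S.Sol (nz D z) (Az D z) (Bz D z) x := fun x => hsol x
  let f : Sl →ₗ[ZMod 2] (TT D → VN N) × (Fin m → VN N) := (pbF (TT D) (VN N) m).domRestrict Sl
  have hker : Nat.card (LinearMap.ker f) = 4 := by
    rw [← hc4]
    refine Nat.card_congr
      ⟨fun x => x.1.1.2.1, fun w => ⟨⟨pbC _ _ _ w, (hSl _).mpr (sol_C S _ _ _ w)⟩, ?_⟩, ?_, ?_⟩
    · exact pbF_C w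
    · intro x
      apply Subtype.ext
      apply Subtype.ext
      exact (pbF_zero x.2).symm
    · intro w
      rfl
  have hcard : Nat.card (D.Dk z 1) = 4 * 2 ^ Module.finrank (ZMod 2) (LinearMap.range f) := by
    rw [hk4]
    have e1 : Nat.card {x : Unk (TT D) (VN N) m // S.Sol (nz D z) (Az D z) (Bz D z) x} =
        Nat.card Sl := Nat.card_congr (Equiv.subtypeEquivRight fun x => (hSl x).symm)
    rw [e1, Submodule.card_eq_card_quotient_mul_card (LinearMap.ker f), hker,
      Nat.card_congr f.quotKerEquivRange.toEquiv, Module.natCard_eq_pow_finrank (K := ZMod 2),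
      Nat.card_zmod]
  refine ⟨⟨_, hcard⟩, ?_⟩
  intro k hk b L hpat
  have hkk : Module.finrank (ZMod 2) (LinearMap.range f) = k := by
    have : 2 ^ Module.finrank (ZMod 2) (LinearMap.range f) = 2 ^ k := by
      have := hcard.symm.trans hk
      omega
    exact Nat.pow_right_injective le_rfl this
  let bas := Module.finBasisOfFinrankEq (ZMod 2) (LinearMap.range f) hkk
  choose xs hxs using fun j => (bas j).2
  have hspan : ∀ y : Sl, ∃ (β : Fin k → ZMod 2) (κ : Sl), y = ∑ j, β j • xs j + κ ∧ f κ = 0 := by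
    intro y
    refine ⟨fun j => bas.repr ⟨f y, y, rfl⟩ j,
      y - ∑ j, bas.repr ⟨f y, y, rfl⟩ j • xs j, by abel, ?_⟩
    rw [map_sub, map_sum, sub_eq_zero]
    have e := congrArg Subtype.val (bas.sum_repr ⟨f y, y, rfl⟩)
    rw [Submodule.coe_sum] at e
    refine e.symm.trans (Finset.sum_congr rfl fun j _ => ?_)
    rw [map_smul, hxs j]
    rfl
  let x : Unk (TT D) (Fin k → VN N) m :=
    (fun v j => (xs j).1.1 v, fun j => (xs j).1.2.1, fun i j => (xs j).1.2.2 i)
  refine ⟨x, ?_, ⟨?_, ?_⟩⟩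
  · rw [(hPwc (TT D) (VN N) m S _ _ _ k).1]
    intro j
    exact (hSl _).mp (xs j).2
  · intro β h1 h2
    have e : ∑ j, β j • bas j = 0 := by
      apply Subtype.ext
      rw [Submodule.coe_sum]
      have e1 : ∑ j, ((β j • bas j : LinearMap.range f) : (TT D → VN N) × (Fin m → VN N)) =
          ∑ j, β j • f (xs j) := by
        refine Finset.sum_congr rfl fun j _ => ?_
        rw [hxs j]
        rfl
      rw [e1]
      refine Prod.ext ?_ ?_
      · rw [Prod.fst_sum]
        funext v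
        rw [Finset.sum_apply]
        exact h1 v
      · rw [Prod.snd_sum]
        funext v
        rw [Finset.sum_apply]
        exact h2 v
    funext j
    exact Fintype.linearIndependent_iff.mp bas.linearIndependent β e j
  · unfold Dat.Pat at hpat
    push Not at hpat
    obtain ⟨c, hc1, hc2, hc3, hc4'⟩ := hpat
    have hmem : ∀ y : Sl, typ D y.1 ∈ D.Dk z 1 := fun y => (hsol _).mpr ((hSl _).mp y.2)
    let g₀ : Sl →+ VN N := AddMonoidHom.mk' (fun y => VN.mk (c (typ D y.1)) (hc3 _ (hmem y)))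
      (by
        intro y y'
        apply VN.inj
        rw [VN.v_add, VN.v_mk, VN.v_mk, VN.v_mk, ← hc1 _ (hmem y) _ (hmem y'), ← hk3]
        rfl)
    let g : Sl →ₗ[ZMod 2] VN N := g₀.toZModLinearMap 2
    have hg : ∀ y : Sl, (g y).v = c (typ D y.1) := fun y => rfl
    refine ⟨fun j => g (xs j), ?_⟩
    by_contra hlt
    push Not at hlt
    classical
    have hset : {i | i ≠ b ∧ x.2.2 i = x.2.2 b + fun j => g (xs j)} =
        ((univ.filter fun i => i ≠ b ∧ x.2.2 i = x.2.2 b + fun j => g (xs j) : Finset (Fin m)) :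
          Set (Fin m)) := by
      ext i
      simp
    rw [hset, Set.ncard_coe_finset] at hlt
    obtain ⟨I, hI, hIc⟩ := Finset.exists_subset_card_eq hlt
    have hI' : ∀ i ∈ I, i ≠ b ∧ x.2.2 i = x.2.2 b + fun j => g (xs j) := fun i hi =>
      (Finset.mem_filter.mp (hI hi)).2
    obtain ⟨i, hi, ν, hν, hne⟩ := hc4' I hIc (fun hb => (hI' b hb).1 rfl)
    apply hne
    obtain ⟨y, rfl, hy⟩ := (hk1 ν).mp hν
    obtain ⟨β, κ, hy1, hκ⟩ := hspan ⟨y, (hSl y).mpr hy⟩
    let h : Sl →ₗ[ZMod 2] VN N :=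
      { toFun := fun y => y.1.2.2 i - y.1.2.2 b
        map_add' := fun y y' => by
          change (y.1.2.2 i + y'.1.2.2 i) - (y.1.2.2 b + y'.1.2.2 b) =
            (y.1.2.2 i - y.1.2.2 b) + (y'.1.2.2 i - y'.1.2.2 b)
          abel
        map_smul' := fun a y => by
          change a • y.1.2.2 i - a • y.1.2.2 b = a • (y.1.2.2 i - y.1.2.2 b)
          rw [smul_sub] }
    have hκ' : κ.1 = pbC _ _ _ κ.1.2.1 := pbF_zero hκ
    have hgκ : g κ = 0 := by
      apply VN.inj
      rw [hg, hκ', typ_C, VN.v_zero]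
      exact hc2 _ ⟨_, VN.two _, rfl⟩
    have hhκ : h κ = 0 := by
      change κ.1.2.2 i - κ.1.2.2 b = 0
      rw [hκ']
      exact sub_self _
    have hgh : g ⟨y, (hSl y).mpr hy⟩ = h ⟨y, (hSl y).mpr hy⟩ := by
      rw [hy1, map_add, map_add, hgκ, hhκ, map_sum, map_sum]
      congr 1
      refine Finset.sum_congr rfl fun j _ => ?_
      rw [map_smul, map_smul]
      congr 1
      have e := congrFun (hI' i hi).2 j
      change g (xs j) = (xs j).1.2.2 i - (xs j).1.2.2 b
      rw [eq_sub_iff_add_eq, add_comm]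
      exact e.symm
    change (y.2.2 i).v = (y.2.2 b).v + c (typ D y)
    rw [← hg ⟨y, (hSl y).mpr hy⟩, hgh, ← VN.v_add]
    congr 1
    change y.2.2 i = y.2.2 b + (y.2.2 i - y.2.2 b)
    abel

end Pool.Agent.MP72S.Lv
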