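import Pool.Agent.Lib.MP_72e2e6_nt.Sm.G.SpecA

set_option autoImplicit false

namespace Pool.Agent.MP72S.Lv

open Finset

/-- a double sum as a sum over the pairs `i < j` and the diagonal -/
private theorem prb_split {m : ℕ} (F : Fin m → Fin m → ZMod 2) :
    ∑ i, ∑ j, F i j = (∑ i, ∑ j ∈ univ.filter (fun j => i < j), (F i j + F j i)) + ∑ i, F i i := by
  have h1 : ∀ i j : Fin m, F i j = (if i < j then F i j else 0) + (if j < i then F i j else 0) +
      (if i = j then F i j else 0) := by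
    intro i j
    rcases lt_trichotomy i j with h | h | h
    · rw [if_pos h, if_neg (not_lt.2 h.le), if_neg h.ne]
      ring
    · subst h
      simp
    · rw [if_neg (not_lt.2 h.le), if_pos h, if_neg h.ne']
      ring
  have h2 : ∑ i, ∑ j, F i j = ∑ i, ∑ j, (if i < j then F i j else 0) +
      ∑ i, ∑ j, (if j < i then F i j else 0) + ∑ i, ∑ j, (if i = j then F i j else 0) := by
    rw [← sum_add_distrib, ← sum_add_distrib]
    apply sum_congr rfl
    intro i _
    rw [← sum_add_distrib, ← sum_add_distrib]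
    exact sum_congr rfl fun j _ => h1 i j
  rw [h2, sum_comm (f := fun i j => if j < i then F i j else 0)]
  congr 1
  · rw [← sum_add_distrib]
    apply sum_congr rfl
    intro i _
    rw [← sum_add_distrib, sum_filter]
    apply sum_congr rfl
    intro j _
    by_cases h : i < j
    · rw [if_pos h, if_pos h, if_pos h]
    · rw [if_neg h, if_neg h, if_neg h, add_zero]
  · apply sum_congr rfl
    intro i _
    rw [sum_ite_eq univ i, if_pos (mem_univ i)]

private theorem prb_sgn_abs (a : ZMod 2) : |sgn a| = 1 := by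
  unfold sgn
  split_ifs <;> simp

section

variable {T W : Type} [Fintype T] [AddCommGroup W] [Module (ZMod 2) W] {m : ℕ}

/-- the left side of the equation at a variable prime -/
private def gd (S : Opr T W) (n : Fin m → ZMod 2) (A : T → Fin m → ZMod 2)
    (B : Fin m → Fin m → ZMod 2) (x : Unk T W m) (i : Fin m) : W :=
  ∑ v, A v i • S.σ v (x.1 v - x.2.2 i) + ∑ j, B i j • (x.2.2 j - x.2.2 i) +
    n i • S.Λ (x.2.1 - x.2.2 i)

/-- the left side of the equation at a fixed prime -/
private def bd (S : Opr T W) (A : T → Fin m → ZMod 2) (x : Unk T W m) (v : T) : W :=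
  ∑ v', S.l v v' • S.σ v' (x.1 v' - x.1 v) + ∑ i, A v i • (x.2.2 i - x.1 v) +
    S.d v • S.Λ (x.2.1 - x.1 v)

/-- the constant part of the exponent -/
private def kap (S : Opr T W) (n : Fin m → ZMod 2) (x : Unk T W m)
    (lam : Fin m → Module.Dual (ZMod 2) W) (δ : T → Module.Dual (ZMod 2) W) : ZMod 2 :=
  ∑ i, lam i (n i • S.Λ (x.2.1 - x.2.2 i)) +
    ∑ v, (δ v (∑ v', S.l v v' • S.σ v' (x.1 v' - x.1 v)) + δ v (S.d v • S.Λ (x.2.1 - x.1 v)))

private def alp (S : Opr T W) (x : Unk T W m)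
    (lam : Fin m → Module.Dual (ZMod 2) W) (δ : T → Module.Dual (ZMod 2) W) (v : T)
    (i : Fin m) : ZMod 2 :=
  lam i (S.σ v (x.1 v - x.2.2 i)) + δ v (x.2.2 i - x.1 v)

private def bet (x : Unk T W m) (lam : Fin m → Module.Dual (ZMod 2) W) (i j : Fin m) : ZMod 2 :=
  (lam i - lam j) (x.2.2 j - x.2.2 i)

private theorem prb_exp (S : Opr T W) (n : Fin m → ZMod 2) (A : T → Fin m → ZMod 2)
    (B : Fin m → Fin m → ZMod 2) (hB : ∀ i j, i ≠ j → B i j = B j i) (x : Unk T W m)
    (lam : Fin m → Module.Dual (ZMod 2) W) (δ : T → Module.Dual (ZMod 2) W) :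
    ∑ i, lam i (gd S n A B x i) + ∑ v, δ v (bd S A x v) =
      kap S n x lam δ + bch (alp S x lam δ) (bet x lam) A B := by
  have h1 : ∑ i, lam i (gd S n A B x i) =
      ∑ v, ∑ i, lam i (S.σ v (x.1 v - x.2.2 i)) * A v i +
        ∑ i, ∑ j, lam i (x.2.2 j - x.2.2 i) * B i j +
        ∑ i, lam i (n i • S.Λ (x.2.1 - x.2.2 i)) := by
    rw [sum_comm (s := (univ : Finset T)), ← sum_add_distrib, ← sum_add_distrib]
    apply sum_congr rfl
    intro i _
    unfold gd
    rw [map_add, map_add, map_sum, map_sum]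
    congr 2
    · apply sum_congr rfl
      intro v _
      rw [map_smul, smul_eq_mul, mul_comm]
    · apply sum_congr rfl
      intro v _
      rw [map_smul, smul_eq_mul, mul_comm]
  have h2 : ∑ v, δ v (bd S A x v) =
      ∑ v, (δ v (∑ v', S.l v v' • S.σ v' (x.1 v' - x.1 v)) +
        δ v (S.d v • S.Λ (x.2.1 - x.1 v))) + ∑ v, ∑ i, δ v (x.2.2 i - x.1 v) * A v i := by
    rw [← sum_add_distrib]
    apply sum_congr rfl
    intro v _
    unfold bd
    rw [map_add, map_add]
    have h3 : δ v (∑ i, A v i • (x.2.2 i - x.1 v)) = ∑ i, δ v (x.2.2 i - x.1 v) * A v i := by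
      rw [map_sum]
      apply sum_congr rfl
      intro i _
      rw [map_smul, smul_eq_mul, mul_comm]
    rw [h3]
    ring
  have h4 : ∑ i, ∑ j, lam i (x.2.2 j - x.2.2 i) * B i j =
      ∑ i, ∑ j ∈ univ.filter (fun j => i < j), bet x lam i j * B i j := by
    rw [prb_split]
    have h5 : ∑ i, lam i (x.2.2 i - x.2.2 i) * B i i = 0 := by
      apply sum_eq_zero
      intro i _
      rw [sub_self, map_zero, zero_mul]
    rw [h5, add_zero]
    apply sum_congr rfl
    intro i _
    apply sum_congr rfl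
    intro j hj
    rw [mem_filter] at hj
    rw [hB j i hj.2.ne', ← add_mul]
    congr 1
    unfold bet
    rw [LinearMap.sub_apply]
    have h6 : lam j (x.2.2 i - x.2.2 j) = - lam j (x.2.2 j - x.2.2 i) := by
      rw [← map_neg, neg_sub]
    rw [h6]
    ring
  have h7 : ∑ v, ∑ i, alp S x lam δ v i * A v i =
      ∑ v, ∑ i, lam i (S.σ v (x.1 v - x.2.2 i)) * A v i +
        ∑ v, ∑ i, δ v (x.2.2 i - x.1 v) * A v i := by
    rw [← sum_add_distrib]
    apply sum_congr rfl
    intro v _
    rw [← sum_add_distrib]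
    apply sum_congr rfl
    intro i _
    unfold alp
    ring
  unfold kap bch
  rw [h1, h2, h4, h7]
  ring

private theorem prb_cmp (S : Opr T W) (x : Unk T W m)
    (lam : Fin m → Module.Dual (ZMod 2) W) (δ : T → Module.Dual (ZMod 2) W)
    (h : ¬ S.Cmp x.1 x.2.2 lam δ) :
    (∃ v i, alp S x lam δ v i ≠ 0) ∨ ∃ i j, i < j ∧ bet x lam i j ≠ 0 := by
  by_contra hcon
  push Not at hcon
  obtain ⟨h1, h2⟩ := hcon
  apply h
  refine ⟨fun v i => h1 v i, fun i j => ?_⟩
  rcases lt_trichotomy i j with hij | hij | hij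
  · have h3 := h2 i j hij
    unfold bet at h3
    rw [← neg_sub (x.2.2 j) (x.2.2 i), map_neg, h3, neg_zero]
  · subst hij
    rw [sub_self, sub_self, map_zero]
  · have h3 := h2 j i hij
    unfold bet at h3
    rw [← neg_sub (lam j) (lam i), LinearMap.neg_apply, h3, neg_zero]

end

theorem tPrb (h1 : S_Fou) : S_Prb := by
  intro T W X _ _ _ _ m S n Z A B M ε hM hε hE x
  classical
  have hfinD : Finite (Module.Dual (ZMod 2) W) :=
    Finite.of_injective (fun f : Module.Dual (ZMod 2) W => (f : W → ZMod 2)) DFunLike.coe_injective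
  have hftD : Fintype (Module.Dual (ZMod 2) W) := Fintype.ofFinite _
  obtain ⟨hc, hadd, hF⟩ := h1 (Fin m ⊕ T) W
  have hN0 : (0 : ℝ) < Nat.card W := by
    have : 0 < Nat.card W := Nat.card_pos
    exact_mod_cast this
  have hcI : Fintype.card (Fin m ⊕ T) = Fintype.card T + m := by
    rw [Fintype.card_sum, Fintype.card_fin, add_comm]
  rw [hcI] at hF
  -- the equations as a family
  let g : X → Fin m ⊕ T → W := fun z => Sum.elim (gd S n (A z) (B z) x) (bd S (A z) x)
  have hg : ∀ z, S.Eqs n (A z) (B z) x ↔ g z = 0 := by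
    intro z
    constructor
    · intro h
      funext k
      rcases k with i | v
      · exact h.good i
      · exact h.bad v
    · intro h
      exact ⟨fun v => congrFun h (Sum.inr v), fun i => congrFun h (Sum.inl i)⟩
  have hset : ({z | z ∈ Z ∧ S.Eqs n (A z) (B z) x} : Set X) =
      ((Z.filter fun z => S.Eqs n (A z) (B z) x : Finset X) : Set X) := by
    ext z
    simp
  rw [hset, Set.ncard_coe_finset]
  -- the sum over the characters
  have hsum : ((#(Z.filter fun z => S.Eqs n (A z) (B z) x) : ℕ) : ℝ) *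
      (Nat.card W : ℝ) ^ (Fintype.card T + m) =
      ∑ p : (Fin m → Module.Dual (ZMod 2) W) × (T → Module.Dual (ZMod 2) W),
        ∑ z ∈ Z, sgn (∑ i, p.1 i (gd S n (A z) (B z) x i) + ∑ v, p.2 v (bd S (A z) x v)) := by
    have e1 : ∀ z, ∑ lam : Fin m ⊕ T → Module.Dual (ZMod 2) W, sgn (∑ i, lam i (g z i)) =
        if S.Eqs n (A z) (B z) x then (Nat.card W : ℝ) ^ (Fintype.card T + m) else 0 := by
      intro z
      by_cases h : S.Eqs n (A z) (B z) x
      · rw [if_pos h, (hF (g z)).1 ((hg z).1 h)]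
      · rw [if_neg h, (hF (g z)).2 fun h' => h ((hg z).2 h')]
    have e2 : ∀ z, ∑ lam : Fin m ⊕ T → Module.Dual (ZMod 2) W, sgn (∑ i, lam i (g z i)) =
        ∑ p : (Fin m → Module.Dual (ZMod 2) W) × (T → Module.Dual (ZMod 2) W),
          sgn (∑ i, p.1 i (gd S n (A z) (B z) x i) + ∑ v, p.2 v (bd S (A z) x v)) := by
      intro z
      apply Fintype.sum_equiv (Equiv.sumArrowEquivProdArrow (Fin m) T (Module.Dual (ZMod 2) W))
      intro lam
      rw [Fintype.sum_sum_type]
      rfl
    rw [sum_comm]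
    have e3 : ∀ z ∈ Z, ∑ p : (Fin m → Module.Dual (ZMod 2) W) × (T → Module.Dual (ZMod 2) W),
          sgn (∑ i, p.1 i (gd S n (A z) (B z) x i) + ∑ v, p.2 v (bd S (A z) x v)) =
        if S.Eqs n (A z) (B z) x then (Nat.card W : ℝ) ^ (Fintype.card T + m) else 0 := by
      intro z _
      rw [← e2 z, e1 z]
    rw [sum_congr rfl e3, ← sum_filter, sum_const, nsmul_eq_mul]
  -- the bound for every character
  have hbd : ∀ p : (Fin m → Module.Dual (ZMod 2) W) × (T → Module.Dual (ZMod 2) W),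
      ∑ z ∈ Z, sgn (∑ i, p.1 i (gd S n (A z) (B z) x i) + ∑ v, p.2 v (bd S (A z) x v)) ≤
        (if S.Cmp x.1 x.2.2 p.1 p.2 then M else 0) + ε * M := by
    intro p
    have e1 : ∑ z ∈ Z, sgn (∑ i, p.1 i (gd S n (A z) (B z) x i) + ∑ v, p.2 v (bd S (A z) x v)) =
        sgn (kap S n x p.1 p.2) *
          ∑ z ∈ Z, sgn (bch (alp S x p.1 p.2) (bet x p.1) (A z) (B z)) := by
      rw [mul_sum]
      apply sum_congr rfl
      intro z hz
      rw [prb_exp S n (A z) (B z) (hE.sym z hz) x p.1 p.2, hadd]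
    refine (le_abs_self _).trans ?_
    rw [e1, abs_mul, prb_sgn_abs, one_mul]
    by_cases h : S.Cmp x.1 x.2.2 p.1 p.2
    · rw [if_pos h]
      have e2 : |∑ z ∈ Z, sgn (bch (alp S x p.1 p.2) (bet x p.1) (A z) (B z))| ≤ #Z := by
        refine (abs_sum_le_sum_abs _ _).trans ?_
        rw [sum_congr rfl fun z _ => prb_sgn_abs _, sum_const, nsmul_eq_mul, mul_one]
      have e3 : 0 ≤ ε * M := mul_nonneg hε hM
      linarith [hE.card]
    · rw [if_neg h, zero_add]
      exact hE.chr _ _ (prb_cmp S x p.1 p.2 h)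
  have hcardP : ((Fintype.card ((Fin m → Module.Dual (ZMod 2) W) ×
      (T → Module.Dual (ZMod 2) W)) : ℕ) : ℝ) = (Nat.card W : ℝ) ^ (Fintype.card T + m) := by
    rw [Fintype.card_prod, Fintype.card_fun, Fintype.card_fun, Fintype.card_fin,
      ← Nat.card_eq_fintype_card (α := Module.Dual (ZMod 2) W), hc]
    push_cast
    ring
  have hP : (0 : ℝ) < (Nat.card W : ℝ) ^ (Fintype.card T + m) := by positivity
  have hfin : ((#(Z.filter fun z => S.Eqs n (A z) (B z) x) : ℕ) : ℝ) *
      (Nat.card W : ℝ) ^ (Fintype.card T + m) ≤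
      M * (Nat.card {p : (Fin m → Module.Dual (ZMod 2) W) × (T → Module.Dual (ZMod 2) W) //
        S.Cmp x.1 x.2.2 p.1 p.2} : ℝ) + ε * M * (Nat.card W : ℝ) ^ (Fintype.card T + m) := by
    rw [hsum]
    refine (sum_le_sum fun p _ => hbd p).trans (le_of_eq ?_)
    have e4 : Nat.card {p : (Fin m → Module.Dual (ZMod 2) W) × (T → Module.Dual (ZMod 2) W) //
        S.Cmp x.1 x.2.2 p.1 p.2} = #(univ.filter fun p : (Fin m → Module.Dual (ZMod 2) W) ×
          (T → Module.Dual (ZMod 2) W) => S.Cmp x.1 x.2.2 p.1 p.2) := by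
      rw [Nat.card_eq_fintype_card, Fintype.card_subtype]
    rw [sum_add_distrib, sum_const, card_univ, nsmul_eq_mul, hcardP, ← sum_filter, sum_const,
      nsmul_eq_mul, e4]
    ring
  have e9 : M * ((Nat.card {p : (Fin m → Module.Dual (ZMod 2) W) × (T → Module.Dual (ZMod 2) W) //
        S.Cmp x.1 x.2.2 p.1 p.2} : ℝ) / (Nat.card W : ℝ) ^ (Fintype.card T + m) + ε) =
      (M * (Nat.card {p : (Fin m → Module.Dual (ZMod 2) W) × (T → Module.Dual (ZMod 2) W) //
        S.Cmp x.1 x.2.2 p.1 p.2} : ℝ) + ε * M * (Nat.card W : ℝ) ^ (Fintype.card T + m)) /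
        (Nat.card W : ℝ) ^ (Fintype.card T + m) := by
    field_simp
  rw [e9, le_div_iff₀ hP]
  exact hfin

end Pool.Agent.MP72S.Lv
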