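import Pool.Agent.Lib.MP_72e2e6_nt.Sm.G.SpecA

/-!
# MP_72e2e6_nt, `Sm`, block G: solutions of the powers
-/

set_option autoImplicit false

namespace Pool.Agent.MP72S.Lv

theorem tPwc : S_Pwc := by
  intro T V _ _ _ _ m S n A B k
  have hl : (S.pow k).l = S.l := rfl
  have hd : (S.pow k).d = S.d := rfl
  have key : ∀ x : Unk T (Fin k → V) m, (S.pow k).Sol n A B x ↔
      ∀ j, S.Sol n A B (fun v => x.1 v j, x.2.1 j, fun i => x.2.2 i j) := by
    intro x
    constructor
    · rintro ⟨h1, h2, h3⟩ j
      refine ⟨?_, ?_, ?_⟩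
      · have h := congrFun h1 j
        simpa only [Opr.Inf, Pi.add_apply, Finset.sum_apply, Pi.smul_apply, Pi.sub_apply,
          Pi.zero_apply, Opr.pow_σ, hl, hd] using h
      · intro v
        have h := congrFun (h2 v) j
        simpa only [Pi.add_apply, Finset.sum_apply, Pi.smul_apply, Pi.sub_apply,
          Pi.zero_apply, Opr.pow_σ, Opr.pow_Λ, hl, hd] using h
      · intro i
        have h := congrFun (h3 i) j
        simpa only [Pi.add_apply, Finset.sum_apply, Pi.smul_apply, Pi.sub_apply,
          Pi.zero_apply, Opr.pow_σ, Opr.pow_Λ, hl, hd] using h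
    · intro h
      refine ⟨?_, ?_, ?_⟩
      · unfold Opr.Inf
        funext j
        have h1 := (h j).1
        simpa only [Opr.Inf, Pi.add_apply, Finset.sum_apply, Pi.smul_apply, Pi.sub_apply,
          Pi.zero_apply, Opr.pow_σ, hl, hd] using h1
      · intro v
        funext j
        have h1 := (h j).2.bad v
        simpa only [Pi.add_apply, Finset.sum_apply, Pi.smul_apply, Pi.sub_apply,
          Pi.zero_apply, Opr.pow_σ, Opr.pow_Λ, hl, hd] using h1
      · intro i
        funext j
        have h1 := (h j).2.good i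
        simpa only [Pi.add_apply, Finset.sum_apply, Pi.smul_apply, Pi.sub_apply,
          Pi.zero_apply, Opr.pow_σ, Opr.pow_Λ, hl, hd] using h1
  refine ⟨key, ?_⟩
  have he : {x : Unk T (Fin k → V) m // (S.pow k).Sol n A B x} ≃
      (Fin k → {x : Unk T V m // S.Sol n A B x}) :=
    { toFun := fun x j => ⟨(fun v => x.1.1 v j, x.1.2.1 j, fun i => x.1.2.2 i j), (key x.1).1 x.2 j⟩
      invFun := fun y => ⟨(fun v j => (y j).1.1 v, fun j => (y j).1.2.1, fun i j => (y j).1.2.2 i),
        (key _).2 fun j => (y j).2⟩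
      left_inv := fun x => rfl
      right_inv := fun y => rfl }
  rw [Nat.card_congr he, Nat.card_fun, Nat.card_fin]

end Pool.Agent.MP72S.Lv
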