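import Pool.Agent.Lib.MP_72e2e6_nt.Sm.G.SpecA

/-!
# MP_72e2e6_nt, `Sm`, block G: the operators of rank one
-/

set_option autoImplicit false

namespace Pool.Agent.MP72S.Lv

open Finset

section

variable {V : Type} [AddCommGroup V] [Module (ZMod 2) V]

private theorem rk_two (a : ZMod 2) : a = 0 ∨ a = 1 := by
  revert a
  decide

private theorem rk_all (hV : Nat.card V = 4) (f : V →ₗ[ZMod 2] Module.Dual (ZMod 2) V)
    (alt : ∀ x, f x x = 0) {x x' : V} (h : f x x' = 1) (z : V) :
    z = 0 ∨ z = x ∨ z = x' ∨ z = x + x' := by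
  classical
  haveI : Finite V := Nat.finite_of_card_ne_zero (by omega)
  haveI : Fintype V := Fintype.ofFinite V
  have hx0 : x ≠ 0 := by
    intro h0
    rw [h0, map_zero, LinearMap.zero_apply] at h
    exact zero_ne_one h
  have hx'0 : x' ≠ 0 := by
    intro h0
    rw [h0, map_zero] at h
    exact zero_ne_one h
  have hne : x ≠ x' := by
    intro h0
    rw [← h0, alt] at h
    exact zero_ne_one h
  have hs0 : x + x' ≠ 0 := by
    intro h0
    have h1 : f x (x + x') = 1 := by rw [map_add, alt, h, zero_add]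
    rw [h0, map_zero] at h1
    exact zero_ne_one h1
  have hs1 : x + x' ≠ x := by
    intro h0
    exact hx'0 (by simpa using h0)
  have hs2 : x + x' ≠ x' := by
    intro h0
    exact hx0 (by simpa using h0)
  have hc : ({0, x, x', x + x'} : Finset V).card = 4 := by
    rw [Finset.card_insert_of_notMem, Finset.card_insert_of_notMem,
      Finset.card_insert_of_notMem, Finset.card_singleton]
    · simp only [Finset.mem_singleton]
      exact fun h0 => hs2 h0.symm
    · simp only [Finset.mem_insert, Finset.mem_singleton, not_or]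
      exact ⟨hne, fun h0 => hs1 h0.symm⟩
    · simp only [Finset.mem_insert, Finset.mem_singleton, not_or]
      exact ⟨hx0.symm, hx'0.symm, hs0.symm⟩
  have hu : ({0, x, x', x + x'} : Finset V) = Finset.univ := by
    apply Finset.eq_univ_of_card
    rw [hc, ← hV, Nat.card_eq_fintype_card]
  have hz : z ∈ ({0, x, x', x + x'} : Finset V) := by
    rw [hu]
    exact Finset.mem_univ z
  simpa using hz

private theorem rk_one (hV : Nat.card V = 4) (f : V →ₗ[ZMod 2] Module.Dual (ZMod 2) V)
    (alt : ∀ x, f x x = 0) (nd : ∀ x, (∀ y, f x y = 0) → x = 0) {x x' : V} (hx : x ≠ 0)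
    (h0 : x' ≠ 0) (h1 : x' ≠ x) : f x x' = 1 := by
  have h2 : ∃ y, f x y ≠ 0 := by
    by_contra hcon
    push Not at hcon
    exact hx (nd x hcon)
  obtain ⟨y, hy⟩ := h2
  have hy1 : f x y = 1 := (rk_two _).resolve_left hy
  rcases rk_all hV f alt hy1 x' with h | h | h | h
  · exact absurd h h0
  · exact absurd h h1
  · rw [h, hy1]
  · rw [h, map_add, alt, hy1, zero_add]

/-- The key claim. -/
private theorem rk_claim (hV : Nat.card V = 4) (f : V →ₗ[ZMod 2] Module.Dual (ZMod 2) V)
    (alt : ∀ x, f x x = 0) (nd : ∀ x, (∀ y, f x y = 0) → x = 0)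
    {x : V} (hx : x ≠ 0) (g : Module.End (ZMod 2) V) (sa : ∀ x y, f x (g y) = f (g x) y)
    (h0 : g x ≠ 0) (h1 : g x ≠ x) :
    ∃ y, y ≠ 0 ∧ y ≠ x ∧ ((∀ a, f a y • y = g a) ∨ (∀ a, f a y • y = g a - a)) := by
  set x' := g x with hx'
  have hf : f x x' = 1 := rk_one hV f alt nd hx h0 h1
  have hsym : f x' x = 1 := by
    have h2 := alt (x + x')
    rw [map_add f x x', LinearMap.add_apply, map_add, map_add, alt, alt, hf, zero_add,
      add_zero] at h2
    have h3 : f x' x = 1 := by
      rcases rk_two (f x' x) with h | h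
      · rw [h, add_zero] at h2
        exact absurd h2 one_ne_zero
      · exact h
    exact h3
  have hfg : f x (g x') = 0 := by rw [sa, ← hx', alt]
  have hx2 : x + x = 0 := ZModModule.add_self x
  have hx2' : x' + x' = 0 := ZModModule.add_self x'
  rcases rk_all hV f alt hf (g x') with h | h | h | h
  · refine ⟨x', h0, h1, Or.inl fun a => ?_⟩
    rcases rk_all hV f alt hf a with ha | ha | ha | ha
    · rw [ha]
      simp
    · rw [ha, hf, one_smul]
    · rw [ha, alt, zero_smul, h]
    · rw [ha, map_add, LinearMap.add_apply, hf, alt, add_zero, one_smul, map_add, h, add_zero]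
  · refine ⟨x + x', ?_, ?_, Or.inr fun a => ?_⟩
    · intro h2
      have h3 : f x (x + x') = 1 := by rw [map_add, alt, hf, zero_add]
      rw [h2, map_zero] at h3
      exact zero_ne_one h3
    · intro h2
      exact h0 (by simpa using h2)
    · rcases rk_all hV f alt hf a with ha | ha | ha | ha
      · rw [ha]
        simp
      · rw [ha, map_add, alt, hf, zero_add, one_smul, sub_eq_add_neg, ZModModule.neg_eq_self,
          add_comm]
      · rw [ha, map_add, alt, hsym, add_zero, one_smul, sub_eq_add_neg, ZModModule.neg_eq_self, h]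
      · rw [ha, alt, zero_smul, map_add, h, ← hx', add_comm x' x, sub_self]
  · rw [h, hf] at hfg
    exact absurd hfg one_ne_zero
  · rw [h, map_add, alt, hf, zero_add] at hfg
    exact absurd hfg one_ne_zero

end

/-- **Rk1.** -/
theorem tRk1 : S_Rk1 := by
  intro T V _ _ hV f alt nd S sa hS k A hA
  have claim : ∀ x, x ≠ 0 → ∃ y, y ≠ 0 ∧ y ≠ x ∧
      ∀ a ∈ A, (fun j => f (a j) y • y) ∈ A := by
    intro x hx
    obtain ⟨v, h0, h1⟩ := hS x hx
    obtain ⟨y, hy0, hyx, hy⟩ := rk_claim hV f alt nd hx (S.σ v) (sa v) h0 h1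
    refine ⟨y, hy0, hyx, fun a ha => ?_⟩
    have h2 := hA v a ha
    rcases hy with hy | hy
    · have h3 : (fun j => f (a j) y • y) = (S.pow k).σ v a := by
        funext j
        rw [Opr.pow_σ, hy]
      rw [h3]
      exact h2
    · have h3 : (fun j => f (a j) y • y) = (S.pow k).σ v a - a := by
        funext j
        rw [Pi.sub_apply, Opr.pow_σ, hy]
      rw [h3]
      exact A.sub_mem h2 ha
  have hex : ∃ x : V, x ≠ 0 := by
    by_contra hcon
    push Not at hcon
    haveI : Subsingleton V := ⟨fun a b => by rw [hcon a, hcon b]⟩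
    have := Nat.card_of_subsingleton (0 : V)
    omega
  obtain ⟨x₁, hx₁⟩ := hex
  obtain ⟨y₁, hy₁, -, hP₁⟩ := claim x₁ hx₁
  obtain ⟨y₂, hy₂, hy12, hP₂⟩ := claim y₁ hy₁
  have hf12 : f y₁ y₂ = 1 := rk_one hV f alt nd hy₁ hy₂ hy12
  have hf21 : f y₂ y₁ = 1 := rk_one hV f alt nd hy₂ hy₁ (Ne.symm hy12)
  have hP12 : ∀ a ∈ A, (fun j => f (a j) y₁ • y₂) ∈ A := by
    intro a ha
    have h2 := hP₂ _ (hP₁ a ha)
    have h3 : (fun j => f (a j) y₁ • y₂) = fun j => f ((fun j => f (a j) y₁ • y₁) j) y₂ • y₂ := by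
      funext j
      simp only [map_smul, LinearMap.smul_apply, hf12, smul_eq_mul, mul_one]
    rw [h3]
    exact h2
  have hP21 : ∀ a ∈ A, (fun j => f (a j) y₂ • y₁) ∈ A := by
    intro a ha
    have h2 := hP₁ _ (hP₂ a ha)
    have h3 : (fun j => f (a j) y₂ • y₁) = fun j => f ((fun j => f (a j) y₂ • y₂) j) y₁ • y₁ := by
      funext j
      simp only [map_smul, LinearMap.smul_apply, hf21, smul_eq_mul, mul_one]
    rw [h3]
    exact h2
  have add1 : ∀ y y' z : V, (∀ a ∈ A, (fun j => f (a j) y • z) ∈ A) →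
      (∀ a ∈ A, (fun j => f (a j) y' • z) ∈ A) → ∀ a ∈ A, (fun j => f (a j) (y + y') • z) ∈ A := by
    intro y y' z h h' a ha
    have h3 : (fun j => f (a j) (y + y') • z)
        = (fun j => f (a j) y • z) + fun j => f (a j) y' • z := by
      funext j
      simp only [Pi.add_apply, map_add, add_smul]
    rw [h3]
    exact A.add_mem (h a ha) (h' a ha)
  have add2 : ∀ y z z' : V, (∀ a ∈ A, (fun j => f (a j) y • z) ∈ A) →
      (∀ a ∈ A, (fun j => f (a j) y • z') ∈ A) → ∀ a ∈ A, (fun j => f (a j) y • (z + z')) ∈ A := by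
    intro y z z' h h' a ha
    have h3 : (fun j => f (a j) y • (z + z'))
        = (fun j => f (a j) y • z) + fun j => f (a j) y • z' := by
      funext j
      simp only [Pi.add_apply, smul_add]
    rw [h3]
    exact A.add_mem (h a ha) (h' a ha)
  have all1 : ∀ z : V, (∀ a ∈ A, (fun j => f (a j) y₁ • z) ∈ A) →
      (∀ a ∈ A, (fun j => f (a j) y₂ • z) ∈ A) → ∀ y : V, ∀ a ∈ A, (fun j => f (a j) y • z) ∈ A := by
    intro z h h' y
    rcases rk_all hV f alt hf12 y with hy | hy | hy | hy
    · intro a ha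
      have h3 : (fun j => f (a j) y • z) = 0 := by
        funext j
        simp [hy]
      rw [h3]
      exact A.zero_mem
    · rw [hy]
      exact h
    · rw [hy]
      exact h'
    · rw [hy]
      exact add1 _ _ _ h h'
  have hz1 := all1 y₁ hP₁ hP21
  have hz2 := all1 y₂ hP12 hP₂
  intro y z
  rcases rk_all hV f alt hf12 z with hz | hz | hz | hz
  · intro a ha
    have h3 : (fun j => f (a j) y • z) = 0 := by
      funext j
      simp [hz]
    rw [h3]
    exact A.zero_mem
  · rw [hz]
    exact hz1 y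
  · rw [hz]
    exact hz2 y
  · rw [hz]
    exact add2 _ _ _ (hz1 y) (hz2 y)

end Pool.Agent.MP72S.Lv
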