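import Pool.Agent.Lib.MP_72e2e6_nt.Sm.G.SpecA

/-!
# MP_72e2e6_nt, `Sm`, block G: the structure of the main term
-/

set_option autoImplicit false

namespace Pool.Agent.MP72S.Lv

open Finset MP72e2e6

private theorem str_back {W : Type} [AddCommGroup W] [Module (ZMod 2) W] [Finite W]
    (τ : Module.End (ZMod 2) W) (hτ : ∀ x, τ x = 0 → x = 0) (A : Submodule (ZMod 2) W)
    (hA : ∀ y ∈ A, τ y ∈ A) {y : W} (hy : τ y ∈ A) : y ∈ A := by
  have hinj : Function.Injective τ := by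
    intro a b hab
    have h0 : τ (a - b) = 0 := by rw [map_sub, hab, sub_self]
    exact sub_eq_zero.1 (hτ _ h0)
  let g : A → A := fun a => ⟨τ a.1, hA a.1 a.2⟩
  have hg : Function.Injective g := by
    intro a b hab
    apply Subtype.ext
    exact hinj (congrArg Subtype.val hab)
  have hs : Function.Surjective g := Finite.surjective_of_injective hg
  obtain ⟨a, ha⟩ := hs ⟨τ y, hy⟩
  have h1 : τ a.1 = τ y := congrArg Subtype.val ha
  have h2 : a.1 = y := hinj h1
  rw [← h2]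
  exact a.2

/-- **Str.** -/
theorem tStr (h1 : MP72e2e6.StmtPpTS) : S_Str := by
  classical
  intro T W _ _ _ _ m S n hTm x hInf lam δ hC L hex
  obtain ⟨𝓥, hcard, hmem, hmult⟩ := hex
  obtain ⟨c, c₀, s⟩ := x
  simp only at hInf hC hmem hmult ⊢
  have hidx : ∀ w ∈ 𝓥, ∃ i, (s i, lam i) = w := by
    intro w hw
    have h2 := hmult w hw
    have h3 : {i | (s i, lam i) = w}.ncard ≠ 0 := by omega
    obtain ⟨i, hi⟩ := Set.nonempty_of_ncard_ne_zero h3
    exact ⟨i, hi⟩
  have hunl : ∀ w ∈ 𝓥, ∀ w' ∈ 𝓥, BW w w' + BW w' w = 0 := by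
    intro w hw w' hw'
    obtain ⟨i, rfl⟩ := hidx w hw
    obtain ⟨j, rfl⟩ := hidx w' hw'
    have h2 := hC.un i j
    unfold BW
    simp only
    rw [LinearMap.sub_apply] at h2
    have h3 : s j - s i = -(s i - s j) := by abel
    rw [h3, map_neg]
    rw [← sub_eq_zero.1 h2]
    ring
  have hpos : 0 < #𝓥 := by
    rw [hcard]
    exact Nat.card_pos
  obtain ⟨u₀, hu₀⟩ := Finset.card_pos.1 hpos
  obtain ⟨L', hL, hQ, hE⟩ := (h1 2 W 𝓥 hunl).2 hcard u₀ hu₀
  set A : Submodule (ZMod 2) W := L'.map (LinearMap.fst (ZMod 2) W (Module.Dual (ZMod 2) W))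
    with hAd
  have hmA : ∀ y, y ∈ A ↔ ∃ e, (y, e) ∈ L' := by
    intro y
    rw [hAd, Submodule.mem_map]
    constructor
    · rintro ⟨⟨a, e⟩, h, rfl⟩
      exact ⟨e, h⟩
    · rintro ⟨e, h⟩
      exact ⟨(y, e), h, rfl⟩
  have hshift : ∀ i, ∀ z ∈ L', ((s i, lam i) + z) ∈ 𝓥 := by
    intro i z hz
    rw [hL]
    have h2 := (hL _).1 (hmem i)
    have h3 : (s i, lam i) + z - u₀ = ((s i, lam i) - u₀) + z := by abel
    rw [h3]
    exact L'.add_mem h2 hz
  have ha : ∀ i j, s i - s j ∈ A := by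
    intro i j
    rw [hmA]
    refine ⟨lam i - lam j, ?_⟩
    have h2 := L'.sub_mem ((hL _).1 (hmem i)) ((hL _).1 (hmem j))
    have h3 : (s i, lam i) - u₀ - ((s j, lam j) - u₀) = (s i - s j, lam i - lam j) := by
      rw [sub_sub_sub_cancel_right, Prod.mk_sub_mk]
    rw [h3] at h2
    exact h2
  have hstep : ∀ i, ∀ w e, (w, e) ∈ L' → ∃ i', s i' = s i + w ∧ lam i' = lam i + e := by
    intro i w e hwe
    obtain ⟨i', hi'⟩ := hidx _ (hshift i _ hwe)
    rw [Prod.mk_add_mk, Prod.mk.injEq] at hi'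
    exact ⟨i', hi'.1, hi'.2⟩
  -- (c)
  have hc : ∀ v i, S.σ v (c v - s i) ∈ A := by
    intro v i
    by_contra hcon
    obtain ⟨e, he1, he2⟩ := Submodule.exists_le_ker_of_notMem hcon
    have h0e : ((0 : W), e) ∈ L' := hE e fun z hz => he2 ((hmA _).2 ⟨z.2, hz⟩)
    obtain ⟨i', hi1, hi2⟩ := hstep i 0 e h0e
    rw [add_zero] at hi1
    have hf1 := hC.fx v i
    have hf2 := hC.fx v i'
    rw [hi1, hi2, LinearMap.add_apply] at hf2
    apply he1
    have h5 : lam i (S.σ v (c v - s i)) + e (S.σ v (c v - s i)) + δ v (s i - c v)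
        - (lam i (S.σ v (c v - s i)) + δ v (s i - c v)) = 0 := by
      rw [hf1, hf2, sub_self]
    rw [← h5]
    ring
  have hi₀ : ∃ i₀ : Fin m, True := by
    obtain ⟨i, -⟩ := hidx u₀ hu₀
    exact ⟨i, trivial⟩
  obtain ⟨i₀, -⟩ := hi₀
  have hd : ∀ v, ∀ y ∈ A, S.σ v y ∈ A := by
    intro v y hy
    obtain ⟨e, he⟩ := (hmA y).1 hy
    obtain ⟨i', hi', -⟩ := hstep i₀ y e he
    have h5 : y = (c v - s i₀) - (c v - s i') := by
      rw [hi']
      abel
    rw [h5, map_sub]
    exact A.sub_mem (hc v i₀) (hc v i')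
  have he : ∀ v i, c v - s i ∈ A := by
    intro v i
    exact str_back (S.σ v) (hTm.inj v) A (hd v) (hc v i)
  refine ⟨A, hd, ha, he, ?_, ?_⟩
  · intro b
    let τ : Module.End (ZMod 2) W := ∑ v, S.d v • S.σ v + (∑ i, n i) • LinearMap.id
    have hτv : ∀ y, τ y = ∑ v, S.d v • S.σ v y + (∑ i, n i) • y := by
      intro y
      simp only [τ, LinearMap.add_apply, LinearMap.sum_apply, LinearMap.smul_apply,
        LinearMap.id_apply]
    have hτ0 : ∀ y, τ y = 0 → y = 0 := by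
      intro y hy
      rw [hτv] at hy
      exact hTm.inf y hy
    have hτA : ∀ y ∈ A, τ y ∈ A := by
      intro y hy
      rw [hτv]
      exact A.add_mem (A.sum_mem fun v _ => A.smul_mem _ (hd v y hy)) (A.smul_mem _ hy)
    have hkey : τ (s b - c₀) ∈ A := by
      have hI : ∑ v, S.d v • S.σ v (c v - c₀) + ∑ i, n i • (s i - c₀) = 0 := hInf
      have h6 : ∑ v, S.d v • S.σ v (c v - c₀)
          = ∑ v, S.d v • S.σ v (c v - s b) + ∑ v, S.d v • S.σ v (s b - c₀) := by
        rw [← Finset.sum_add_distrib]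
        refine Finset.sum_congr rfl fun v _ => ?_
        rw [← smul_add, ← map_add, sub_add_sub_cancel]
      have h7 : ∑ i, n i • (s i - c₀) = ∑ i, n i • (s i - s b) + (∑ i, n i) • (s b - c₀) := by
        rw [Finset.sum_smul, ← Finset.sum_add_distrib]
        refine Finset.sum_congr rfl fun i _ => ?_
        rw [← smul_add, sub_add_sub_cancel]
      rw [h6, h7] at hI
      have h8 : τ (s b - c₀)
          = -(∑ v, S.d v • S.σ v (c v - s b) + ∑ i, n i • (s i - s b)) := by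
        rw [hτv, eq_neg_iff_add_eq_zero, ← hI]
        abel
      rw [h8]
      exact A.neg_mem (A.add_mem (A.sum_mem fun v _ => A.smul_mem _ (hc v b))
        (A.sum_mem fun i _ => A.smul_mem _ (ha i b)))
    have h9 := str_back τ hτ0 A hτA hkey
    have h10 : c₀ - s b = -(s b - c₀) := by abel
    rw [h10]
    exact A.neg_mem h9
  · intro b w hw
    obtain ⟨e, he'⟩ := (hmA w).1 hw
    have h5 := hmult _ (hshift b _ he')
    have hsub : {i | (s i, lam i) = (s b, lam b) + (w, e)}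
        ⊆ insert b {i | i ≠ b ∧ s i = s b + w} := by
      intro i hi
      rw [Set.mem_setOf_eq, Prod.mk_add_mk, Prod.mk.injEq] at hi
      by_cases hib : i = b
      · exact Or.inl hib
      · exact Or.inr ⟨hib, hi.1⟩
    have h6 := Set.ncard_le_ncard hsub (Set.toFinite _)
    have h7 := Set.ncard_insert_le b {i | i ≠ b ∧ s i = s b + w}
    omega

end Pool.Agent.MP72S.Lv
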