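import Pool.Agent.Lib.MP_72e2e6_nt.Sm.G.SpecD

/-!
# MP_72e2e6_nt, `Sm`, block G: module `Tmc`
-/

set_option autoImplicit false

namespace Pool.Agent.MP72S.Lv

open Finset Polynomial MP72e2e6

private theorem tmc_deg {F : Type} [Field F] (a : Fin 3 → F[X]) (i : Fin 3) :
    ∃ j, j ≠ i ∧ (a i - a j).natDegree = HD.mxd a := by
  have hle : ∀ i j, (a i - a j).natDegree ≤ HD.mxd a := fun i j =>
    (Finset.le_sup (f := fun j : Fin 3 => (a i - a j).natDegree) (mem_univ j)).trans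
      (Finset.le_sup (f := fun i : Fin 3 => univ.sup fun j : Fin 3 => (a i - a j).natDegree)
        (mem_univ i))
  have hsy : ∀ i j, (a i - a j).natDegree = (a j - a i).natDegree := fun i j => by
    rw [← neg_sub, natDegree_neg]
  obtain ⟨i₀, -, h0⟩ := Finset.exists_mem_eq_sup (univ : Finset (Fin 3)) ⟨0, mem_univ _⟩
    (fun i : Fin 3 => univ.sup fun j : Fin 3 => (a i - a j).natDegree)
  obtain ⟨j₀, -, h1⟩ := Finset.exists_mem_eq_sup (univ : Finset (Fin 3)) ⟨0, mem_univ _⟩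
    (fun j : Fin 3 => (a i₀ - a j).natDegree)
  have h2 : HD.mxd a = (a i₀ - a j₀).natDegree := h0.trans h1
  by_cases hi : i₀ = i
  · subst hi
    by_cases hj : j₀ = i₀
    · subst hj
      obtain ⟨j, hj⟩ := exists_ne j₀
      refine ⟨j, hj, le_antisymm (hle _ _) ?_⟩
      rw [h2, sub_self, natDegree_zero]
      exact Nat.zero_le _
    · exact ⟨j₀, hj, h2.symm⟩
  · by_cases hj : j₀ = i
    · subst hj
      exact ⟨i₀, hi, by rw [h2, hsy]⟩
    · have h3 : a i₀ - a j₀ = (a i - a j₀) - (a i - a i₀) := by ring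
      have h4 := natDegree_sub_le (a i - a j₀) (a i - a i₀)
      rw [← h3, ← h2] at h4
      rcases le_max_iff.1 h4 with h5 | h5
      · exact ⟨j₀, hj, le_antisymm (hle _ _) h5⟩
      · exact ⟨i₀, hi, le_antisymm (hle _ _) h5⟩

private theorem tmc_odd {m : ℤ} (h : Odd m) : (m : ZMod 2) = 1 := by
  obtain ⟨k, rfl⟩ := h
  push_cast
  have h2 : (2 : ZMod 2) = 0 := rfl
  rw [h2, zero_mul, zero_add]

theorem tTmc (h1 : C.S_Tam) (h2 : D.S_Kl) (h3 : HD.S_Vl) (h4 : HD.S_Nu) (h5 : HD.S_Irf) :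
    S_Tmc := by
  intro F _ _ a d u S A hy hS hA r n hadm z hz s hs Q hQ
  have hq := hy.q4
  have h2F : (2 : F) ≠ 0 := by
    intro h0
    haveI : CharP F 2 := CharTwo.of_one_ne_zero_of_two_eq_zero one_ne_zero h0
    haveI : Fintype F := Fintype.ofFinite F
    obtain ⟨k, -, hk⟩ := FiniteField.card F 2
    rw [Nat.card_eq_fintype_card, hk] at hq
    have h6 : 2 ∣ 2 ^ (k : ℕ) := dvd_pow_self 2 k.pos.ne'
    omega
  obtain ⟨hv1, hv2, hv3, hv4, hv5, hv6⟩ := h3 F A hA
  obtain ⟨hn1, hn2, hn3, hn4⟩ := h4 F a h2F hy.inj A hA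
  obtain ⟨-, -, hirr⟩ := h5 F a d A hy hA
  have hzi := (hirr S).1
  have hkl := (h2 F h2F s.o (A s) (hA.ok s)).1
  have hyp : C.Hyp (HD.aR a) (D.Qf F) := by
    refine ⟨?_, fun i j hij => hy.inj (RatFunc.algebraMap_injective F hij)⟩
    have h6 : (2 : D.Qf F) = algebraMap (RatFunc F) (D.Qf F) (RatFunc.C 2) := by
      rw [map_ofNat, map_ofNat]
    rw [h6]
    intro h0
    have h7 := (algebraMap (RatFunc F) (D.Qf F)).injective (h0.trans (map_zero _).symm)
    exact h2F (RatFunc.C_injective (h7.trans (map_zero _).symm))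
  refine h1 (RatFunc F) (HD.aR a) (D.Qf F) _ _ _ _ _ _ hyp (hn1 s)
    ((HD.DD F a d u S A).chi z ((HD.DD F a d u S A).tau s)) ?_ Q hQ
  intro i
  have hchi : (HD.DD F a d u S A).chi z ((HD.DD F a d u S A).tau s) =
      D.hK (algebraMap F[X] (RatFunc F) d) ((A s).rQ (A s).t) +
        ∑ i, D.hK (HD.piP (z i)) ((A s).rQ (A s).t) := rfl
  have hd0 : d ≠ 0 := hy.sqf.ne_zero
  rw [hchi]
  rcases s with _ | P
  · obtain ⟨j, hji, hj⟩ := tmc_deg a i
    refine ⟨j, hji, -(a i - a j).natDegree, hn3 i j hji.symm, ?_⟩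
    rw [hj, hkl _ _ (hv2 d hd0)]
    have h6 : ∀ k, D.hK (HD.piP (z k)) ((A none).rQ (A none).t) = ((-(n k : ℤ) : ℤ) : ZMod 2) := by
      intro k
      obtain ⟨⟨Pk, hPk, hPd⟩, -⟩ := (hzi (n k) (z k)).1 (hz.1 k)
      rw [hPk, ← hPd]
      exact hkl _ _ (hv2 Pk.1 Pk.2.1.ne_zero)
    simp only [h6]
    rw [← Int.cast_sum, ← Int.cast_add, ← Int.cast_add]
    apply tmc_odd
    have h7 : (-(HD.mxd a : ℤ) + (-(d.natDegree : ℤ) + ∑ k, (-(n k : ℤ)))) =
        -((d.natDegree + ∑ i, n i + HD.mxd a : ℕ) : ℤ) := by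
      push_cast
      rw [Finset.sum_neg_distrib]
      ring
    rw [h7]
    exact ((Int.odd_coe_nat _).2 hadm).neg
  · have hPS := (hS (some P)).1 hs
    have h6 : ∀ k, D.hK (HD.piP (z k)) ((A (some P)).rQ (A (some P)).t) = 0 := by
      intro k
      obtain ⟨⟨Pk, hPk, hPd⟩, hkS⟩ := (hzi (n k) (z k)).1 (hz.1 k)
      rw [hPk] at hkS ⊢
      have h8 : P ≠ Pk := by
        rintro rfl
        exact hkS hs
      have h9 := hkl _ _ (hv3 P Pk.1 Pk.2.1.ne_zero (hv4 P Pk h8))
      rw [Int.cast_zero] at h9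
      exact h9
    simp only [h6]
    rw [sum_const_zero, add_zero, hkl _ _ (hv1 P d hd0)]
    by_cases hPp : P.1 ∣ (a 0 - a 1) * (a 0 - a 2) * (a 1 - a 2)
    · obtain ⟨j, hji, hj⟩ := hy.tame P.1 P.2.2 hPp i
      refine ⟨j, hji, multiplicity P.1 (a i - a j), hn2 P i j hji.symm, ?_⟩
      rw [← Int.cast_add]
      apply tmc_odd
      rw [add_comm, ← Nat.cast_add]
      exact (Int.odd_coe_nat _).2 hj
    · have hPd : P.1 ∣ d := by
        rcases hPS with h | ⟨P', hP', hb⟩
        · exact absurd h (by simp)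
        · obtain rfl : P = P' := Option.some_injective _ hP'
          rcases P.2.2.prime.dvd_or_dvd hb with h | h
          · exact h
          · exact absurd h hPp
      have hm1 : multiplicity P.1 d = 1 := by
        apply multiplicity_eq_of_dvd_of_not_dvd
        · rw [pow_one]
          exact hPd
        · intro h
          rw [pow_succ, pow_one] at h
          exact P.2.2.not_isUnit (hy.sqf _ h)
      obtain ⟨j, hji⟩ := exists_ne i
      have hnd : ¬ P.1 ∣ a i - a j := by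
        intro h
        apply hPp
        have h01 : P.1 ∣ a 0 - a 1 → P.1 ∣ (a 0 - a 1) * (a 0 - a 2) * (a 1 - a 2) := fun h =>
          (h.mul_right _).mul_right _
        have h02 : P.1 ∣ a 0 - a 2 → P.1 ∣ (a 0 - a 1) * (a 0 - a 2) * (a 1 - a 2) := fun h =>
          (h.mul_left _).mul_right _
        have h12 : P.1 ∣ a 1 - a 2 → P.1 ∣ (a 0 - a 1) * (a 0 - a 2) * (a 1 - a 2) := fun h =>
          h.mul_left _
        have hs' := (dvd_sub_comm (a := P.1) (b := a i) (c := a j)).1 h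
        fin_cases i <;> fin_cases j
        · exact absurd rfl hji
        · exact h01 h
        · exact h02 h
        · exact h01 hs'
        · exact absurd rfl hji
        · exact h12 h
        · exact h02 hs'
        · exact h12 hs'
        · exact absurd rfl hji
      refine ⟨j, hji, 0, ?_, ?_⟩
      · rw [hn4 P i j hji.symm hnd]
        rfl
      · rw [hm1]
        rfl

end Pool.Agent.MP72S.Lv
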