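import Pool.Agent.Lib.MP_72e2e6_nt.Sm.G.SpecC

/-!
# MP_72e2e6_nt, `Sm`, block G, module Tmz: tameness in terms of the operators
-/

set_option autoImplicit false

namespace Pool.Agent.MP72S.Lv

open Finset Polynomial MP72e2e6

theorem tTmz (_hTai : S_Tai) (hMop : S_Mop) (hExp : S_Exp) : S_Tmz := by
  intro G N P _ _ _ _ D ax S hS m z hz ht
  obtain ⟨-, -, h3, -, -, -, h7, h8⟩ := hMop D ax
  obtain ⟨-, -, -, h4⟩ := hExp D ax
  have hzi : ∀ i, z i ≠ D.inf := fun i hi => hz.nS i (hi ▸ ax.infS)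
  refine ⟨fun v x hx => ?_, fun x hx => ?_⟩
  · have hchi : D.chi z (D.tau v.1) = D.ch0 (D.tau v.1) + 0 := by
      rw [Dat.chi]
      congr 1
      refine Finset.sum_eq_zero fun i _ => ax.ch_tau' _ _ (hzi i) v.2.2 ?_
      intro hi
      exact hz.nS i (hi ▸ v.2.1)
    have hm := h7 D.ch0 (D.chi z) (D.tau v.1) 0 (S.σ v) hchi (hS.sg v)
    rw [zero_smul, add_zero] at hm
    exact (h8 _ _ _ hm).mp (ht v.1 v.2.1) x hx
  · obtain ⟨L, hL⟩ := h3 D.ch0 (D.tau D.inf)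
    have hchi : D.chi z (D.tau D.inf) = D.ch0 (D.tau D.inf) + ∑ i, nz D z i := rfl
    have hm := h7 D.ch0 (D.chi z) (D.tau D.inf) (∑ i, nz D z i) L hchi hL
    refine (h8 _ _ _ hm).mp (ht D.inf ax.infS) x ?_
    rw [LinearMap.add_apply, h4 S hS _ L hL x, ax.cst_tau, zero_smul, add_zero,
      LinearMap.smul_apply, Module.End.one_apply]
    simp only [← hS.d]
    exact hx

end Pool.Agent.MP72S.Lv
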