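import Pool.Agent.Lib.MP_72e2e6_nt.Sm.G.SpecA

/-!
# MP_72e2e6_nt, `Sm`, block G: self-adjoint operators on a space with four elements
-/

set_option autoImplicit false

namespace Pool.Agent.MP72S.Lv

namespace TwoAux

section

variable {V : Type} [AddCommGroup V] [Module (ZMod 2) V]
  {f : V →ₗ[ZMod 2] Module.Dual (ZMod 2) V}

private theorem symm' (hf : ∀ x, f x x = 0) (x y : V) : f x y = f y x := by
  have h := hf (x + y)
  simp only [map_add, LinearMap.add_apply, hf, zero_add, add_zero] at h
  rw [eq_neg_of_add_eq_zero_right h, ZModModule.neg_eq_self]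

/-- A symplectic basis. -/
private theorem exists_basis (hV : Nat.card V = 4) (hf : ∀ x, f x x = 0)
    (hnd : ∀ x, (∀ y, f x y = 0) → x = 0) :
    ∃ e₁ e₂ : V, f e₁ e₂ = 1 ∧ f e₂ e₁ = 1 ∧ ∀ x : V, ∃ a b : ZMod 2, x = a • e₁ + b • e₂ := by
  have hfin : Finite V := Nat.finite_of_card_ne_zero (by omega)
  have hnt : Nontrivial V := Finite.one_lt_card_iff_nontrivial.1 (by omega)
  obtain ⟨e₁, he₁⟩ := exists_ne (0 : V)
  have h1 : ∃ y, f e₁ y ≠ 0 := by
    by_contra hne
    push Not at hne
    exact he₁ (hnd e₁ hne)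
  obtain ⟨e₂, he₂⟩ := h1
  have h2 : f e₁ e₂ = 1 := by
    have h3 : ∀ a : ZMod 2, a ≠ 0 → a = 1 := by decide
    exact h3 _ he₂
  have h3 : f e₂ e₁ = 1 := by rw [symm' hf, h2]
  refine ⟨e₁, e₂, h2, h3, ?_⟩
  have hinj : Function.Injective (fun p : ZMod 2 × ZMod 2 => p.1 • e₁ + p.2 • e₂) := by
    intro p p' h
    have h4 : p.1 • e₁ + p.2 • e₂ = p'.1 • e₁ + p'.2 • e₂ := h
    have h5 := congrArg (fun x => f x e₂) h4
    have h6 := congrArg (fun x => f x e₁) h4
    simp only [map_add, map_smul, LinearMap.add_apply, LinearMap.smul_apply, h2, h3, hf,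
      smul_eq_mul, mul_one, mul_zero, add_zero, zero_add] at h5 h6
    exact Prod.ext h5 h6
  have hcard : Nat.card (ZMod 2 × ZMod 2) = Nat.card V := by
    rw [hV, Nat.card_prod, Nat.card_zmod]
  have hbij := (Nat.bijective_iff_injective_and_card (fun p : ZMod 2 × ZMod 2 =>
    p.1 • e₁ + p.2 • e₂)).2 ⟨hinj, hcard⟩
  intro x
  obtain ⟨p, hp⟩ := hbij.2 x
  exact ⟨p.1, p.2, hp.symm⟩

end

private theorem sq2 : ∀ a : ZMod 2, a * a = a := by decide

private theorem dec1 (a b c a' b' c' p q : ZMod 2) (h : a' * a + c' * b = a * a' + c * b') :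
    p * (a' * (p * c + q * a) + c' * (p * a + q * b)) +
      q * (b' * (p * c + q * a) + a' * (p * a + q * b)) =
    p * (b' * c + c' * a + (b * c' + c * a')) + q * (b' * a + c' * b + (b * a' + c * b')) := by
  have h1 : c' * b = c * b' := by
    have h2 : a' * a = a * a' := mul_comm _ _
    rw [h2] at h
    exact add_left_cancel h
  have h3 : (2 : ZMod 2) = 0 := rfl
  linear_combination (a' * c + c' * a) * sq2 p + (b' * a + a' * b) * sq2 q + p * q * h1 + (p * q * a' * a) * h3 + (p * q * b' * c - p * b' * c - q * c * b') * h3 - (p + q) * h1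

private theorem dec2 (a b c : ZMod 2) (h : a * a + b * c = 1) : b * a + c * b = b := by
  revert a b c
  decide

private theorem dec3 (a b c : ZMod 2) (h : a * a + b * c = 1) : b * c + c * a = c := by
  revert a b c
  decide

private theorem dec4 (a b c a' b' c' : ZMod 2) (h : a' * a + c' * b = a * a' + c * b') :
    b * (a' * c + c' * b) + c * (b' * c + a' * b) = 0 := by
  revert a b c a' b' c'
  decide

end TwoAux

open TwoAux in
theorem tTwo : S_Two := by
  intro V _ _ hV f hf hnd
  obtain ⟨e₁, e₂, h12, h21, hb⟩ := exists_basis hV hf hnd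
  have h11 := hf e₁
  have h22 := hf e₂
  have hext : ∀ x y, f x e₂ = f y e₂ → f x e₁ = f y e₁ → x = y := by
    intro x y hx hy
    obtain ⟨p, q, rfl⟩ := hb x
    obtain ⟨p', q', rfl⟩ := hb y
    simp only [map_add, map_smul, LinearMap.add_apply, LinearMap.smul_apply, h12, h22, h11, h21,
      smul_eq_mul, mul_one, mul_zero, add_zero, zero_add] at hx hy
    rw [hx, hy]
  have hsa : ∀ g : Module.End (ZMod 2) V, (∀ x y, f x (g y) = f (g x) y) →
      ∃ a b c : ZMod 2, g e₁ = a • e₁ + c • e₂ ∧ g e₂ = b • e₁ + a • e₂ := by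
    intro g hg
    obtain ⟨a, c, h1⟩ := hb (g e₁)
    obtain ⟨b, d, h2⟩ := hb (g e₂)
    have h3 := hg e₁ e₂
    rw [h1, h2] at h3
    simp only [map_add, map_smul, LinearMap.add_apply, LinearMap.smul_apply, h12, h22, h11,
      smul_eq_mul, mul_one, mul_zero, add_zero, zero_add] at h3
    exact ⟨a, b, c, h1, by rw [h2, h3]⟩
  constructor
  · intro g hg
    obtain ⟨a, b, c, h1, h2⟩ := hsa g hg
    refine ⟨b • e₁ + c • e₂, fun x => ?_⟩
    obtain ⟨p, q, rfl⟩ := hb x
    simp only [map_add, map_smul, LinearMap.add_apply, LinearMap.smul_apply, h1, h2, h12, h22, h11,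
      h21, smul_eq_mul, mul_one, mul_zero, add_zero, zero_add]
    clear h1 h2
    revert a b c p q
    decide
  · intro g M hg hM hinj hcom h h' hh hh'
    obtain ⟨a, b, c, h1, h2⟩ := hsa g hg
    obtain ⟨a', b', c', h3, h4⟩ := hsa M hM
    obtain ⟨p, q, rfl⟩ := hb h
    obtain ⟨p', q', rfl⟩ := hb h'
    have hp := hh e₂
    have hq := hh e₁
    have hp' := hh' e₂
    have hq' := hh' e₁
    simp only [map_add, map_smul, LinearMap.add_apply, LinearMap.smul_apply, h1, h2, h3, h4, h12,
      h22, h11, h21, smul_eq_mul, mul_one, mul_zero, add_zero, zero_add] at hp hq hp' hq'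
    subst hp hq hp' hq'
    have hc := congrArg (fun y => f y e₂) (hcom e₁)
    simp only [map_add, map_smul, LinearMap.add_apply, LinearMap.smul_apply, h1, h2, h3, h4, h12,
      h22, smul_eq_mul, mul_one, mul_zero, add_zero] at hc
    have hd : a * a + b * c = 1 := by
      by_contra hne
      have hdec : ∀ t : ZMod 2, t ≠ 1 → t = 0 := by decide
      have h0 := hdec _ hne
      have hk : g (g e₁) = 0 := by
        apply hext <;> simp only [map_add, map_smul, LinearMap.add_apply, LinearMap.smul_apply, h1,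
          h2, h12, h22, h11, h21, smul_eq_mul, mul_one, mul_zero, add_zero, zero_add, map_zero,
          LinearMap.zero_apply]
        · rw [mul_comm c b]
          exact h0
        · rw [mul_comm c a]
          exact ZModModule.add_self _
      have h5 := hinj _ (hinj _ hk)
      rw [h5, map_zero, LinearMap.zero_apply] at h12
      exact absurd h12 (by decide)
    refine ⟨fun x => ?_, ?_, ?_⟩
    · obtain ⟨p, q, rfl⟩ := hb x
      simp only [map_add, map_smul, LinearMap.add_apply, LinearMap.smul_apply, h1, h2, h3, h4, h12,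
        h22, h11, h21, smul_eq_mul, mul_one, mul_zero, add_zero, zero_add]
      exact dec1 _ _ _ _ _ _ _ _ hc
    · apply hext <;> simp only [map_add, map_smul, LinearMap.add_apply, LinearMap.smul_apply, h1,
          h2, h12, h22, h11, h21, smul_eq_mul, mul_one, mul_zero, add_zero, zero_add]
      · exact dec2 _ _ _ hd
      · exact dec3 _ _ _ hd
    · simp only [map_add, map_smul, LinearMap.add_apply, LinearMap.smul_apply, h3,
          h4, h12, h22, h11, h21, smul_eq_mul, mul_one, mul_zero, add_zero, zero_add]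
      exact dec4 _ _ _ _ _ _ hc

end Pool.Agent.MP72S.Lv
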