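import Pool.Agent.Lib.MP_72e2e6_nt.Sm.G.SpecC
import Pool.Agent.Lib.MP_72e2e6_nt.Sm.H.Fin

/-!
# MP_72e2e6_nt, `Sm`, block G, statements with proofs, part D (the concrete datum)

Every module proves one of the propositions `S_X` below: file `Sm/G/X.lean` (import this file only)
with `theorem tX : S_X` or `theorem tX (h1 : S_Y) (h2 : S_Z) .. : S_X` (the used statements in the order of the
docstring), namespace `Pool.Agent.MP72S.Lv`, all other declarations `private`. The complete proofs are in the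
docstrings. `HD.S_X`: statements of `Sm/H/Fin.lean` (namespace `Pool.Agent.MP72S.HD`), `C.S_X`: of `Sm/C/SpecC.lean`, `D.S_X`: of
`Sm/D/Spec.lean`. The datum `HD.DD F a d u S A` is defined in `Sm/H/Dat.lean`.
-/

set_option autoImplicit false

namespace Pool.Agent.MP72S.Lv

open Finset Polynomial MP72e2e6

/-- The polynomial of a place. -/
noncomputable def pq {F : Type} [Field F] (w : D.Pl F) : F[X] :=
  match w with
  | none => 1
  | some P => P.1

/-- **Odm** (80 lines). A polynomial which is not a constant times a square has a prime divisor of odd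
multiplicity.

Proof. Suppose that all the multiplicities `multiplicity P f` of monic irreducible `P` are even. They are the counts of
`P` in the multiset `normalizedFactors f` (`emultiplicity_eq_count_normalizedFactors`; all elements of
`normalizedFactors f` are monic and irreducible). A multiset `s` with even counts is `t + t` for some `t` (the multiset with
half the counts, e.g. `∑ P ∈ s.toFinset, (s.count P / 2) • {P}`). So `f` is associated to `(t.prod) ^ 2`
(`prod_normalizedFactors`), i.e. `f = C c * t.prod ^ 2` for a constant `c`. -/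
def S_Odm : Prop :=
  ∀ (F : Type) [Field F] (f : F[X]), f ≠ 0 → (∀ (c : F) (z : F[X]), f ≠ C c * z ^ 2) →
    ∃ P : F[X], P.Monic ∧ Irreducible P ∧ Odd (multiplicity P f)

/-- **Irc** (150 lines, uses `C.S_Vee`, `C.S_Msg`, `HD.S_Nu`, `S_Odm`). No cyclic subgroup of order four is stable
under inertia.

Proof. `C.Hyp (aR a) (Qf F)` holds (`2 ≠ 0` as `q` is odd). Let `4 Q = 0`, `2 Q ≠ 0`, `Q ∈ NN`; `2 (pt Q)` is a point of order two,
so it is `ee i` (`C.S_Vee`). Let `j`, `l` be the two other indices. By `Hy.nis` and `S_Odm` there is a monic irreducible `P` with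
`m_P((a i - a j) (a i - a l))` odd; it is `m_P(a i - a j) + m_P(a i - a l)` (`multiplicity_mul`), so exactly one of the
two is odd. `P` divides `bad a d`, so `v = some P ∈ S`, and `v ≠ ∞`. Let `y = τ_v Q - Q`. By `C.S_Msg` for `j`: with
`ρ = rr (pt Q) j`, `ρ ^ 2 = α i - α j` (fixed by `τ_v` as it is in the base field), `τ_v ρ = ρ` iff `m_P(a i - a j)` is even
(`HD.S_Nu` (1), (2), `Plc.sq`, `ρ ≠ -ρ`), so `e2 y (ee j) = 0` iff `m_P(a i - a j)` is even; the same for `l`. So
`e2 y (ee j) ≠ e2 y (ee l)`. But `e2 0 _ = 0`, and `e2 (ee i) (ee j) = 1 = e2 (ee i) (ee l)` (the `ee` are different and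
nonzero: `C.S_Vee`). So `y ≠ 0` and `y ≠ ee i`, i.e. `τ_v Q ≠ Q`, and `τ_v Q ≠ -Q` since `-Q - Q = -ee i = ee i`. -/
def S_Irc : Prop :=
  ∀ (F : Type) [Field F] [Finite F] (a : Fin 3 → F[X]) (d : F[X]) (u : F) (S : Finset (D.Pl F))
    (A : D.Pl F → D.Lcd F), HD.Hy a d → HD.Sok a d S → D.LDok F A → Ird (HD.DD F a d u S A)

/-- **Tmc** (150 lines, uses `C.S_Tam`, `D.S_Kl`, `HD.S_Vl`, `HD.S_Nu`, `HD.S_Irf`). The tuples are tame in the
strong sense.

Proof. This is what the proof of `HD.S_Okt` shows (read it): `C.S_Tam` uses only `τ_s`. -/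
def S_Tmc : Prop :=
  ∀ (F : Type) [Field F] [Finite F] (a : Fin 3 → F[X]) (d : F[X]) (u : F) (S : Finset (D.Pl F))
    (A : D.Pl F → D.Lcd F), HD.Hy a d → HD.Sok a d S → D.LDok F A → ∀ r n, HD.Adm a d r n →
    ∀ z ∈ tup fun i : Fin (r + 1) => HD.irr F S (n i), Tms (HD.DD F a d u S A) z

/-- **Ari** (150 lines, uses `StmtSuSy`, `StmtPeSyl`, `D.S_Kl`, `HD.S_Vl`, `HD.S_Irf`, `S_Ksy`). The arithmetic of the
finite places.

Proof. `mi`, `inj`, `sur`: clear (`v ≠ none`). `deg`: `D.S_Kl` (1) at `∞` with `HD.S_Vl` (2): `hK P (τ_∞) = - deg P = deg P` in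
`ZMod 2`. `sym`: `v = some P`, `w = some R`, `P ≠ R`, so `R ∤ P` (`HD.S_Vl` (4)). By `S_Ksy` `hK P (φ_w) = 0` iff `mk R P` is a square,
and by `StmtSuSy` (for `ℓ = 2`, `χ = cs`, `IsLg 2 cs` by `StmtPeSyl`) `syl cs R P = 0` iff `mk R P` is a square; two elements of
`ZMod 2` which vanish at the same time are equal. `irr`: `HD.S_Irf`, `SF.Irs F n` is the set of the `some P` with
`P.1.natDegree = n`; for `v ∉ S`: `v ≠ none`. -/
def S_Ari : Prop :=
  ∀ (F : Type) [Field F] [Finite F] (a : Fin 3 → F[X]) (d : F[X]) (u : F) (S : Finset (D.Pl F))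
    (A : D.Pl F → D.Lcd F), HD.Hy a d → (¬ ∃ b, b ^ 2 = u) → HD.Sok a d S → D.LDok F A →
    Arith (HD.DD F a d u S A) pq (HD.irr F S)

/-- **Hg** (60 lines, uses `HD.S_Ax`, `HD.S_Okt`, `S_Irc`, `S_Tmc`, `S_Ari`, `S_Lvg`). The targets of block G.

Proof. `S_Lvg` for `D = HD.DD F a d u S A`, `pi = pq`, `Irr = HD.irr F S`, `Adm = HD.Adm a d`; `4 ∣ q - 1` by `Hy.q4`. -/
def S_Hg : Prop := HD.S_G1 ∧ HD.S_G2 ∧ HD.S_G3

end Pool.Agent.MP72S.Lv
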