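import Pool.Agent.Lib.MP_72e2e6_nt.Sm.G.SpecA

/-!
# MP_72e2e6_nt, `Sm`, block G: the density theorem
-/

set_option autoImplicit false

namespace Pool.Agent.MP72S.Lv

open Finset

/-- **Dns.** -/
theorem tDns (h1 : S_Rk1) : S_Dns := by
  classical
  intro T V _ _ hV f alt nd S sa hS k A hA hne
  have hR := h1 T V hV f alt nd S sa hS k A hA
  let Bc : Submodule (ZMod 2) (Fin k → ZMod 2) :=
    { carrier := {β | ∀ z : V, (fun j => β j • z) ∈ A}
      zero_mem' := by
        intro z
        have h3 : (fun j => (0 : Fin k → ZMod 2) j • z) = 0 := by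
          funext j
          simp
        rw [h3]
        exact A.zero_mem
      add_mem' := by
        intro β β' hb hb' z
        have h3 : (fun j => (β + β') j • z) = (fun j => β j • z) + fun j => β' j • z := by
          funext j
          simp only [Pi.add_apply, add_smul]
        rw [h3]
        exact A.add_mem (hb z) (hb' z)
      smul_mem' := by
        intro c β hb z
        have h3 : (fun j => (c • β) j • z) = c • fun j => β j • z := by
          funext j
          simp only [Pi.smul_apply, smul_assoc]
        rw [h3]
        exact A.smul_mem c (hb z) }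
  have hBc : ∀ β, β ∈ Bc ↔ ∀ z : V, (fun j => β j • z) ∈ A := fun β => Iff.rfl
  have hlt : Bc < ⊤ := by
    rw [lt_top_iff_ne_top]
    intro htop
    apply hne
    rw [eq_top_iff]
    intro a _
    have h3 : a = ∑ j, fun i => (Pi.single j (1 : ZMod 2) : Fin k → ZMod 2) i • a j := by
      funext i
      rw [Finset.sum_apply]
      rw [Finset.sum_eq_single i]
      · simp
      · intro j _ hj
        rw [Pi.single_eq_of_ne (Ne.symm hj), zero_smul]
      · intro h
        exact absurd (Finset.mem_univ i) h
    rw [h3]
    refine A.sum_mem fun j _ => ?_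
    have h4 : (Pi.single j (1 : ZMod 2) : Fin k → ZMod 2) ∈ Bc := by
      rw [htop]
      exact Submodule.mem_top
    exact (hBc _).1 h4 (a j)
  obtain ⟨φ, hφ0, hφ⟩ := Submodule.exists_le_ker_of_lt_top Bc hlt
  have hexp : ∀ β : Fin k → ZMod 2, φ β = ∑ j, β j * φ (Pi.single j 1) := by
    intro β
    have h3 : β = ∑ j, β j • (Pi.single j (1 : ZMod 2) : Fin k → ZMod 2) := by
      funext i
      rw [Finset.sum_apply, Finset.sum_eq_single i]
      · simp
      · intro j _ hj
        rw [Pi.smul_apply, Pi.single_eq_of_ne (Ne.symm hj), smul_zero]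
      · intro h
        exact absurd (Finset.mem_univ i) h
    conv_lhs => rw [h3]
    rw [map_sum]
    refine Finset.sum_congr rfl fun j _ => ?_
    rw [map_smul, smul_eq_mul]
  refine ⟨fun j => φ (Pi.single j 1), ?_, ?_⟩
  · intro h0
    apply hφ0
    apply LinearMap.ext
    intro β
    rw [hexp, LinearMap.zero_apply]
    refine Finset.sum_eq_zero fun j _ => ?_
    have h5 : φ (Pi.single j 1) = 0 := congrFun h0 j
    rw [h5, mul_zero]
  · intro x hx
    apply nd
    intro y
    have h5 : (fun j => f (x j) y) ∈ Bc := by
      rw [hBc]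
      intro z
      exact hR y z x hx
    have h6 : φ (fun j => f (x j) y) = 0 := hφ h5
    rw [hexp] at h6
    rw [map_sum, LinearMap.sum_apply, ← h6]
    refine Finset.sum_congr rfl fun j _ => ?_
    rw [map_smul, LinearMap.smul_apply, smul_eq_mul, mul_comm]

end Pool.Agent.MP72S.Lv
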