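import Pool.Agent.Lib.MP_72e2e6_nt.Sm.G.SpecC

/-!
# MP_72e2e6_nt, `Sm/G`, module `Lg1`: the average order of `Dk z 1`
-/

set_option autoImplicit false

namespace Pool.Agent.MP72S.Lv

open Finset Polynomial MP72e2e6

private theorem lg1Tup {P : Type} {m : ℕ} (Irr : ℕ → Finset P) (n : Fin m → ℕ) :
    (tup fun i => Irr (n i)) = (↑(tupF Irr n) : Set (Fin m → P)) := by
  ext z
  simp [tup, tupF, Fintype.mem_piFinset]

theorem tLg1 (h1 : S_Mop) (h2 : S_Exp) (h3 : S_Eqz) (h4 : S_Lnk) (h5 : S_Mom) : S_Lg1 := by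
  intro G N P F _ _ _ _ _ _ D pi Irr hA ar hq
  have hc : Nat.card (VN N) = 4 := (h1 D hA).1
  obtain ⟨S, hS⟩ := (h2 D hA).2.2.1
  have : Finite (VN N) := Nat.finite_of_card_ne_zero (by rw [hc]; norm_num)
  refine ⟨(4 : ℝ) ^ (Fintype.card (TT D) + 1) * 2 ^ 16 + 1, fun m => ?_⟩
  obtain ⟨N₀, hN⟩ := h3 D pi Irr hA ar hq m ((4 : ℝ) ^ (Fintype.card (TT D) + 1 + m))⁻¹
    (by positivity)
  refine ⟨N₀, fun n hn hok => ?_⟩
  rw [lg1Tup] at hok ⊢
  rw [finsum_mem_coe_finset]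
  have hnz : ∀ z ∈ tupF Irr n, nz D z = fun i => (n i : ZMod 2) := by
    intro z hz
    have hz' : z ∈ tup fun i => Irr (n i) := by
      rw [lg1Tup]
      exact hz
    funext i
    obtain ⟨hS', hd⟩ := (ar.irr _ _).1 (hz'.1 i)
    have hne : z i ≠ D.inf := fun h => hS' (by rw [h]; exact hA.infS)
    rw [nz, ar.deg _ hne, hd]
  have e : ∑ z ∈ tupF Irr n, (Nat.card (D.Dk z 1) : ℝ) = ∑ z ∈ tupF Irr n,
      (Nat.card {x : Unk (TT D) (VN N) m // S.Sol (fun i => (n i : ZMod 2)) (Az D z) (Bz D z) x} :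
        ℝ) := by
    refine sum_congr rfl fun z hz => ?_
    rw [((h4 D hA S hS m z (hok z hz)).2.2.2), hnz z hz]
  rw [e]
  refine (h5 (TT D) (VN N) (Fin m → P) m S (fun i => (n i : ZMod 2)) (tupF Irr n) (Az D) (Bz D)
    (∏ i, (#(Irr (n i)) : ℝ)) _ (prod_nonneg fun i _ => Nat.cast_nonneg _) (by positivity)
    (hN n hn)).trans (le_of_eq ?_)
  rw [hc, mul_comm]
  congr 1
  push_cast
  rw [inv_mul_cancel₀ (by positivity)]

end Pool.Agent.MP72S.Lv
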