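import Pool.Agent.Lib.MP_72e2e6_nt.Sm.G.SpecB

/-!
# MP_72e2e6_nt, `Sm`, block G, module `Nir`: the number of the monic irreducible polynomials
-/

set_option autoImplicit false

namespace Pool.Agent.MP72S.Lv

open Finset Polynomial MP72e2e6

private theorem geo {q : ℕ} (hq : 2 ≤ q) (m : ℕ) : ∑ d ∈ range (m + 1), q ^ d ≤ 2 * q ^ m := by
  induction m with
  | zero => simp
  | succ m ih =>
    rw [sum_range_succ]
    have h : 2 * q ^ m ≤ q ^ (m + 1) := by
      rw [pow_succ, mul_comm]
      exact Nat.mul_le_mul_left _ hq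
    omega

private theorem sq_le {n : ℕ} (hn : 4 ≤ n) : n * n ≤ 2 ^ n := by
  induction n, hn using Nat.le_induction with
  | base => norm_num
  | succ n hn ih =>
    rw [pow_succ]
    nlinarith

private theorem main {F : Type} [Field F] [Finite F] (h1 : StmtSuPsi.{0}) (n : ℕ) (hn : 4 ≤ n) :
    Nat.card F ^ n ≤ 2 * n * #(irr F n) := by
  obtain ⟨-, h2, -, -, h5⟩ := h1 F 2 Nat.prime_two
  set q := Nat.card F with hq
  have hq2 : 2 ≤ q := Finite.one_lt_card
  have hs : ∑ d ∈ n.divisors, d * #(irr F d) = q ^ n := by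
    have h := h2 n (by omega)
    unfold psiC at h
    simp only [one_pow, mul_one, sum_const, nsmul_eq_mul] at h
    have h' : ((∑ d ∈ n.divisors, d * #(irr F d) : ℕ) : ℂ) = ((q ^ n : ℕ) : ℂ) := by
      push_cast
      rw [← h]
      exact sum_congr rfl fun d _ => mul_comm _ _
    exact_mod_cast h'
  have hp : ∑ d ∈ n.properDivisors, d * #(irr F d) ≤ 2 * q ^ (n / 2) := by
    refine le_trans ?_ (geo hq2 (n / 2))
    calc ∑ d ∈ n.properDivisors, d * #(irr F d) ≤ ∑ d ∈ n.properDivisors, q ^ d := by
          refine sum_le_sum fun d hd => h5 d ?_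
          exact Nat.pos_of_mem_properDivisors hd
      _ ≤ ∑ d ∈ range (n / 2 + 1), q ^ d := by
          refine sum_le_sum_of_subset fun d hd => ?_
          rw [mem_range]
          obtain ⟨⟨e, he⟩, hlt⟩ := Nat.mem_properDivisors.1 hd
          have he2 : 2 ≤ e := by
            by_contra hcon
            have : e = 0 ∨ e = 1 := by omega
            rcases this with rfl | rfl
            · omega
            · omega
          have : 2 * d ≤ n := by
            rw [he, mul_comm 2 d]
            exact Nat.mul_le_mul_left d he2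
          omega
  have hd : ∑ d ∈ n.divisors, d * #(irr F d) =
      ∑ d ∈ n.properDivisors, d * #(irr F d) + n * #(irr F n) := by
    rw [← Nat.cons_self_properDivisors (by omega : n ≠ 0), sum_cons, add_comm]
  have h4 : 2 * (2 * q ^ (n / 2)) ≤ q ^ n := by
    have e1 : q ^ n = q ^ (n - n / 2) * q ^ (n / 2) := by
      rw [← pow_add]
      congr 1
      omega
    have e2 : 2 ^ 2 ≤ q ^ (n - n / 2) :=
      (Nat.pow_le_pow_left hq2 2).trans (Nat.pow_le_pow_right (by omega) (by omega))
    rw [e1, ← mul_assoc]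
    exact Nat.mul_le_mul_right _ (by simpa using e2)
  have h6 : q ^ n ≤ 2 * q ^ (n / 2) + n * #(irr F n) := by
    rw [← hs, hd]
    omega
  rw [mul_assoc]
  omega

theorem tNir (h1 : StmtSuPsi.{0}) : S_Nir := by
  intro F _ _
  refine ⟨fun n hn => ?_, fun M => ⟨max 4 (2 * M), fun n hn => ?_⟩⟩
  · have h := main (F := F) h1 n hn
    exact_mod_cast h
  · have h4 : 4 ≤ n := (le_max_left _ _).trans hn
    have hM : 2 * M ≤ n := (le_max_right _ _).trans hn
    have h := main (F := F) h1 n h4
    have hq2 : 2 ≤ Nat.card F := Finite.one_lt_card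
    have h2 : 2 ^ n ≤ Nat.card F ^ n := Nat.pow_le_pow_left hq2 n
    have h3 := sq_le h4
    have h5 : (2 * n) * M ≤ (2 * n) * #(irr F n) := by
      calc (2 * n) * M = (2 * M) * n := by ring
        _ ≤ n * n := Nat.mul_le_mul_right n hM
        _ ≤ _ := (h3.trans h2).trans h
    exact Nat.le_of_mul_le_mul_left h5 (by omega)

end Pool.Agent.MP72S.Lv
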