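import Pool.Agent.Lib.MP_72e2e6_nt.PeChr
import Pool.Agent.Lib.MP_72e2e6_nt.PeExt
import Pool.Agent.Lib.MP_72e2e6_nt.PeHas
import Pool.Agent.Lib.MP_72e2e6_nt.PeNon
import Pool.Agent.Lib.MP_72e2e6_nt.PeSte
import Pool.Agent.Lib.MP_72e2e6_nt.PeSyl
import Pool.Agent.Lib.MP_72e2e6_nt.PgFrm
import Pool.Agent.Lib.MP_72e2e6_nt.PpEvn
import Pool.Agent.Lib.MP_72e2e6_nt.PpTS
import Pool.Agent.Lib.MP_72e2e6_nt.Sm.A.Hom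
import Pool.Agent.Lib.MP_72e2e6_nt.Sm.A.Inj
import Pool.Agent.Lib.MP_72e2e6_nt.Sm.A.Msa
import Pool.Agent.Lib.MP_72e2e6_nt.Sm.A.Sym
import Pool.Agent.Lib.MP_72e2e6_nt.Sm.A.Tai
import Pool.Agent.Lib.MP_72e2e6_nt.Sm.A.Tin
import Pool.Agent.Lib.MP_72e2e6_nt.Sm.C.All
import Pool.Agent.Lib.MP_72e2e6_nt.Sm.D.All
import Pool.Agent.Lib.MP_72e2e6_nt.Sm.G.Ari
import Pool.Agent.Lib.MP_72e2e6_nt.Sm.G.Bin
import Pool.Agent.Lib.MP_72e2e6_nt.Sm.G.Chs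
import Pool.Agent.Lib.MP_72e2e6_nt.Sm.G.Cmm
import Pool.Agent.Lib.MP_72e2e6_nt.Sm.G.Dns
import Pool.Agent.Lib.MP_72e2e6_nt.Sm.G.Dnz
import Pool.Agent.Lib.MP_72e2e6_nt.Sm.G.Eqz
import Pool.Agent.Lib.MP_72e2e6_nt.Sm.G.Exp
import Pool.Agent.Lib.MP_72e2e6_nt.Sm.G.Fct
import Pool.Agent.Lib.MP_72e2e6_nt.Sm.G.Few
import Pool.Agent.Lib.MP_72e2e6_nt.Sm.G.Fou
import Pool.Agent.Lib.MP_72e2e6_nt.Sm.G.Hg
import Pool.Agent.Lib.MP_72e2e6_nt.Sm.G.Irc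
import Pool.Agent.Lib.MP_72e2e6_nt.Sm.G.Ksy
import Pool.Agent.Lib.MP_72e2e6_nt.Sm.G.Lg1
import Pool.Agent.Lib.MP_72e2e6_nt.Sm.G.Lg2
import Pool.Agent.Lib.MP_72e2e6_nt.Sm.G.Lg2a
import Pool.Agent.Lib.MP_72e2e6_nt.Sm.G.Lg2b
import Pool.Agent.Lib.MP_72e2e6_nt.Sm.G.Lg3
import Pool.Agent.Lib.MP_72e2e6_nt.Sm.G.Lnk
import Pool.Agent.Lib.MP_72e2e6_nt.Sm.G.Lvg
import Pool.Agent.Lib.MP_72e2e6_nt.Sm.G.Mbd
import Pool.Agent.Lib.MP_72e2e6_nt.Sm.G.Mom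
import Pool.Agent.Lib.MP_72e2e6_nt.Sm.G.Mop
import Pool.Agent.Lib.MP_72e2e6_nt.Sm.G.Nir
import Pool.Agent.Lib.MP_72e2e6_nt.Sm.G.Nrr
import Pool.Agent.Lib.MP_72e2e6_nt.Sm.G.Odm
import Pool.Agent.Lib.MP_72e2e6_nt.Sm.G.Pbd
import Pool.Agent.Lib.MP_72e2e6_nt.Sm.G.Prb
import Pool.Agent.Lib.MP_72e2e6_nt.Sm.G.Pwc
import Pool.Agent.Lib.MP_72e2e6_nt.Sm.G.Rk1
import Pool.Agent.Lib.MP_72e2e6_nt.Sm.G.Str
import Pool.Agent.Lib.MP_72e2e6_nt.Sm.G.Tmc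
import Pool.Agent.Lib.MP_72e2e6_nt.Sm.G.Tmz
import Pool.Agent.Lib.MP_72e2e6_nt.Sm.G.Tup
import Pool.Agent.Lib.MP_72e2e6_nt.Sm.G.Two
import Pool.Agent.Lib.MP_72e2e6_nt.SuMon
import Pool.Agent.Lib.MP_72e2e6_nt.SuPsi
import Pool.Agent.Lib.MP_72e2e6_nt.SuSy
import Pool.Agent.Lib.MP_72e2e6_nt.TwMon
import Pool.Agent.Lib.MP_72e2e6_nt.TwPsi
import Pool.Agent.Lib.MP_72e2e6_nt.TwRec
import Pool.Agent.Lib.MP_72e2e6_nt.TwSy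

/-!
# MP_72e2e6_nt, `Sm`, block G: all the modules together
-/

set_option autoImplicit false

namespace Pool.Agent.MP72S.Lv

open MP72e2e6

theorem lSuSy : StmtSuSy.{0} := tSuSy

theorem lSuPsi : StmtSuPsi.{0} := tSuPsi tTwMon (tTwPsi tTwMon) tSuMon

theorem lPeChr : StmtPeChr.{0} := tPeChr (tPeSte tPeHas.{0} tPeNon.{0})

theorem lPeExt : StmtPeExt.{0} := tPeExt lSuSy lSuPsi

theorem lPeSyl : StmtPeSyl.{0} := tPeSyl tTwSy (tTwRec tTwSy)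

theorem lPpTS : StmtPpTS := tPpTS

theorem lPgFrm : StmtPgFrm.{0} := tPgFrm tPpEvn.{0} tPpEvn.{0}

theorem aFew : S_Few :=
  tFew

theorem aBin : S_Bin :=
  tBin

theorem aFou : S_Fou :=
  tFou

theorem aPrb : S_Prb :=
  tPrb aFou

theorem aStr : S_Str :=
  tStr lPpTS

theorem aRk1 : S_Rk1 :=
  tRk1

theorem aDns : S_Dns :=
  tDns aRk1

theorem aTwo : S_Two :=
  tTwo

theorem aMom : S_Mom :=
  tMom aFew aPrb lPpTS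

theorem aMbd : S_Mbd :=
  tMbd aFew aPrb aStr lPpTS

theorem aPwc : S_Pwc :=
  tPwc

theorem aFct : S_Fct :=
  tFct aTwo lPgFrm

theorem aNir : S_Nir :=
  tNir lSuPsi

theorem aChs : S_Chs :=
  tChs lSuSy lSuPsi lPeChr lPeExt lPeSyl aNir

theorem aTup : S_Tup :=
  tTup lPeSyl aNir aChs

theorem bSym : S_Sym :=
  tSym

theorem aEqz : S_Eqz :=
  tEqz bSym aTup

theorem aNrr : S_Nrr :=
  tNrr aNir

theorem aKsy : S_Ksy :=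
  tKsy D.aLf D.aLc D.aLn D.aCs D.aQG D.aRt D.aRq D.aKm

theorem bMsa : S_Msa :=
  tMsa

theorem aMop : S_Mop :=
  tMop bMsa

theorem aCmm : S_Cmm :=
  tCmm bMsa

theorem bHom : S_Hom :=
  tHom

theorem aExp : S_Exp :=
  tExp bHom aMop

theorem bInj : S_Inj :=
  tInj bHom

theorem bTai : S_Tai :=
  tTai

theorem aLnk : S_Lnk :=
  tLnk bHom bInj bTai bSym aMop aExp

theorem aTmz : S_Tmz :=
  tTmz bTai aMop aExp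

theorem aDnz : S_Dnz :=
  tDnz aMop aDns

theorem aLg3 : S_Lg3 :=
  tLg3 bSym aMop aCmm aExp aLnk aTmz aFct

theorem bTin : S_Tin :=
  tTin

theorem aPbd : S_Pbd :=
  tPbd bTin aLnk aPwc

theorem aLg1 : S_Lg1 :=
  tLg1 aMop aExp aEqz aLnk aMom

theorem aLg2a : S_Lg2a :=
  tLg2a aMop aExp aEqz aLnk aMom aPwc

theorem aLg2b : S_Lg2b :=
  tLg2b aMop aExp aEqz aTmz aDnz aMbd aBin aPbd

theorem aLg2 : S_Lg2 :=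
  tLg2 aPbd aLg2a aLg2b aExp

theorem aLvg : S_Lvg :=
  tLvg aNrr aLg1 aLg2 aLg3

theorem aOdm : S_Odm :=
  tOdm

theorem aIrc (hNu : HD.S_Nu) : S_Irc :=
  tIrc C.aVee C.aMsg hNu aOdm

theorem aTmc (hIrf : HD.S_Irf) (hNu : HD.S_Nu) (hVl : HD.S_Vl) : S_Tmc :=
  tTmc C.aTam D.aKl hVl hNu hIrf

theorem aAri (hIrf : HD.S_Irf) (hVl : HD.S_Vl) : S_Ari :=
  tAri lSuSy lPeSyl D.aKl hVl hIrf aKsy

theorem aHg (hAx : HD.S_Ax) (hIrf : HD.S_Irf) (hNu : HD.S_Nu) (hOkt : HD.S_Okt) (hVl : HD.S_Vl) : S_Hg :=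
  tHg hAx hOkt (aIrc hNu) (aTmc hIrf hNu hVl) (aAri hIrf hVl) aLvg

end Pool.Agent.MP72S.Lv
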