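import Pool.Agent.Lib.MP_72e2e6_nt.Sm.H.Spec
import Pool.Agent.Lib.MP_72e2e6_nt.PgStmt

/-!
# MP_72e2e6_nt, `Sm`, block G (level one for tuples): definitions

`T` is the finite set of the fixed finite places, `W` a finite vector space over `F_2`, `m` the number
of the variable primes. `Opr T W`: the operators `σ v` (inertia) and `Λ` (Frobenius at infinity), the symbols `l v v'` and the
degrees `d v` of the fixed places. `A v i`, `B i j` are the symbols of the variable primes, `n i` their
degrees (modulo two). `S.Sol n A B x`: the linear equations for `x = (c, c₀, s)`, `c v`, `c₀`, `s i` are the unknowns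
at the fixed places, at infinity and at the variable primes. `S.pow k`: the `k`-th power of a system.
`Eqd Z A B M ε`: the symbols are equidistributed on `Z` (up to `ε`).
-/

set_option autoImplicit false

namespace Pool.Agent.MP72S.Lv

open Finset MP72e2e6

/-! ### Finite systems of equations -/

/-- The operators, symbols and degrees of the fixed places. -/
structure Opr (T W : Type) [AddCommGroup W] [Module (ZMod 2) W] where
  σ : T → Module.End (ZMod 2) W
  Λ : Module.End (ZMod 2) W
  l : T → T → ZMod 2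
  d : T → ZMod 2

section

variable {T W V X : Type} [AddCommGroup W] [Module (ZMod 2) W] [AddCommGroup V]
  [Module (ZMod 2) V] {m : ℕ}

/-- The unknowns `(c, c₀, s)`. -/
abbrev Unk (T W : Type) (m : ℕ) : Type := (T → W) × W × (Fin m → W)

/-- The equation at infinity. -/
def Opr.Inf [Fintype T] (S : Opr T W) (n : Fin m → ZMod 2) (x : Unk T W m) : Prop :=
  ∑ v, S.d v • S.σ v (x.1 v - x.2.1) + ∑ i, n i • (x.2.2 i - x.2.1) = 0

/-- The equations at the fixed finite places and at the variable primes. -/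
structure Opr.Eqs [Fintype T] (S : Opr T W) (n : Fin m → ZMod 2) (A : T → Fin m → ZMod 2)
    (B : Fin m → Fin m → ZMod 2) (x : Unk T W m) : Prop where
  bad : ∀ v, ∑ v', S.l v v' • S.σ v' (x.1 v' - x.1 v) + ∑ i, A v i • (x.2.2 i - x.1 v) +
    S.d v • S.Λ (x.2.1 - x.1 v) = 0
  good : ∀ i, ∑ v, A v i • S.σ v (x.1 v - x.2.2 i) + ∑ j, B i j • (x.2.2 j - x.2.2 i) +
    n i • S.Λ (x.2.1 - x.2.2 i) = 0

/-- The solutions. -/
def Opr.Sol [Fintype T] (S : Opr T W) (n : Fin m → ZMod 2) (A : T → Fin m → ZMod 2)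
    (B : Fin m → Fin m → ZMod 2) (x : Unk T W m) : Prop :=
  S.Inf n x ∧ S.Eqs n A B x

/-- Tameness at all fixed places. -/
structure Opr.Tm [Fintype T] (S : Opr T W) (n : Fin m → ZMod 2) : Prop where
  inj : ∀ v x, S.σ v x = 0 → x = 0
  inf : ∀ x, ∑ v, S.d v • S.σ v x + (∑ i, n i) • x = 0 → x = 0

/-- The powers of a system. -/
def Opr.pow (S : Opr T V) (k : ℕ) : Opr T (Fin k → V) where
  σ v := LinearMap.pi fun j => (S.σ v) ∘ₗ (LinearMap.proj j)
  Λ := LinearMap.pi fun j => S.Λ ∘ₗ (LinearMap.proj j)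
  l := S.l
  d := S.d

theorem Opr.pow_σ (S : Opr T V) (k : ℕ) (v : T) (x : Fin k → V) (j : Fin k) :
    (S.pow k).σ v x j = S.σ v (x j) := rfl

theorem Opr.pow_Λ (S : Opr T V) (k : ℕ) (x : Fin k → V) (j : Fin k) :
    (S.pow k).Λ x j = S.Λ (x j) := rfl

/-- The invariant proper subspaces of `V ^ k` satisfy a linear relation with coefficients in `F_2`. -/
def Opr.Dns (S : Opr T V) (k : ℕ) : Prop :=
  ∀ A : Submodule (ZMod 2) (Fin k → V), (∀ v, ∀ x ∈ A, (S.pow k).σ v x ∈ A) → A ≠ ⊤ →
    ∃ β : Fin k → ZMod 2, β ≠ 0 ∧ ∀ x ∈ A, ∑ j, β j • x j = 0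

/-- `lam`, `δ` (characters for the equations at the variable and at the fixed primes) are compatible
with `c`, `s`: the exponent does not depend on the symbols of the variable primes. -/
structure Opr.Cmp (S : Opr T W) (c : T → W) (s : Fin m → W)
    (lam : Fin m → Module.Dual (ZMod 2) W) (δ : T → Module.Dual (ZMod 2) W) : Prop where
  fx : ∀ v i, lam i (S.σ v (c v - s i)) + δ v (s i - c v) = 0
  un : ∀ i j, (lam i - lam j) (s i - s j) = 0

/-- The sign of an element of `F_2`. -/
noncomputable def sgn (a : ZMod 2) : ℝ := if a = 0 then 1 else -1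

/-- The characters of the symbols. -/
def bch [Fintype T] (α : T → Fin m → ZMod 2) (β : Fin m → Fin m → ZMod 2)
    (A : T → Fin m → ZMod 2) (B : Fin m → Fin m → ZMod 2) : ZMod 2 :=
  ∑ v, ∑ i, α v i * A v i + ∑ i, ∑ j ∈ univ.filter (fun j => i < j), β i j * B i j

/-- The symbols are equidistributed on `Z` up to `ε`. -/
structure Eqd [Fintype T] (Z : Finset X) (A : X → T → Fin m → ZMod 2)
    (B : X → Fin m → Fin m → ZMod 2) (M ε : ℝ) : Prop where
  sym : ∀ z ∈ Z, ∀ i j, i ≠ j → B z i j = B z j i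
  card : (#Z : ℝ) ≤ M
  chr : ∀ (α : T → Fin m → ZMod 2) (β : Fin m → Fin m → ZMod 2),
    ((∃ v i, α v i ≠ 0) ∨ ∃ i j, i < j ∧ β i j ≠ 0) →
    |∑ z ∈ Z, sgn (bch α β (A z) (B z))| ≤ ε * M

/-- An upper bound for the number of the maps to a set with `N` elements which take a given value at
most `L` times. -/
def few (N L m : ℕ) : ℕ := ∑ j ∈ range (L + 1), m.choose j * (N - 1) ^ (m - j)

/-- `x` consists of `k` independent elements, and some pattern occurs less than `L` times. -/
structure Bad (k : ℕ) (b : Fin m) (L : ℕ) (x : Unk T (Fin k → V) m) : Prop where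
  ind : ∀ β : Fin k → ZMod 2, (∀ v, ∑ j, β j • (x.1 v j - x.2.1 j) = 0) →
    (∀ i, ∑ j, β j • (x.2.2 i j - x.2.1 j) = 0) → β = 0
  few : ∃ w : Fin k → V, {i | i ≠ b ∧ x.2.2 i = x.2.2 b + w}.ncard < L

end

/-! ### The group of the elements of order two as a vector space -/

/-- The elements of order two. -/
def VN (N : Type) [AddCommGroup N] : Type := tor N 1

section

variable {N : Type} [AddCommGroup N]

instance : AddCommGroup (VN N) := inferInstanceAs (AddCommGroup (tor N 1))

/-- The element of `N`. -/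
def VN.v (x : VN N) : N := Subtype.val x

theorem VN.inj {x y : VN N} (h : x.v = y.v) : x = y := Subtype.ext h

theorem VN.two (x : VN N) : 2 • x.v = 0 := by
  have h : 2 ^ 1 • x.v = 0 := Subtype.property x
  rwa [pow_one] at h

/-- The element of `VN N`. -/
def VN.mk (x : N) (h : 2 • x = 0) : VN N :=
  (⟨x, by rw [mem_tor, pow_one, h]⟩ : tor N 1)

theorem VN.v_mk (x : N) (h : 2 • x = 0) : (VN.mk x h).v = x := rfl

theorem VN.v_add (x y : VN N) : (x + y).v = x.v + y.v := rfl

theorem VN.v_zero : (0 : VN N).v = 0 := rfl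

theorem VN.v_neg (x : VN N) : (-x).v = -x.v := rfl

theorem VN.v_sub (x y : VN N) : (x - y).v = x.v - y.v := rfl

instance : Module (ZMod 2) (VN N) :=
  AddCommGroup.zmodModule (n := 2) fun x => VN.inj (VN.two x)

/-- `L` is the operator `x ↦ (g - 1) (x / 2)` for the action twisted by `χ`. -/
def IsMo {G : Type} [Group G] [DistribMulAction G N] (χ : G → ZMod 2) (g : G)
    (L : Module.End (ZMod 2) (VN N)) : Prop :=
  ∀ (x : VN N) (Q : N), 2 • Q = x.v → (L x).v = tw χ g Q - Q

/-- `f` is the Weil pairing as a bilinear form on `VN N`. -/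
structure IsF {G P : Type} (D : Dat G N P)
    (f : VN N →ₗ[ZMod 2] Module.Dual (ZMod 2) (VN N)) : Prop where
  eq : ∀ x y, f x y = D.e x.v y.v
  alt : ∀ x, f x x = 0
  nd : ∀ x, (∀ y, f x y = 0) → x = 0

end

section

variable {G N P : Type}

/-- The fixed finite places. -/
abbrev TT (D : Dat G N P) : Type := {v : P // v ∈ D.S ∧ v ≠ D.inf}

noncomputable instance (D : Dat G N P) : Fintype (TT D) :=
  (D.S.finite_toSet.subset fun _ h => h.1 : {v : P | v ∈ D.S ∧ v ≠ D.inf}.Finite).fintype

variable [Group G] [AddCommGroup N] [DistribMulAction G N]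

/-- The system belonging to `D`. -/
structure IsSy (D : Dat G N P) (S : Opr (TT D) (VN N)) : Prop where
  sg : ∀ v, IsMo D.ch0 (D.tau v.1) (S.σ v)
  la : IsMo D.ch0 (D.phi D.inf) S.Λ
  l : ∀ v v', S.l v v' = D.ch v'.1 (D.phi v.1)
  d : ∀ v, S.d v = D.ch v.1 (D.tau D.inf)

variable {m : ℕ}

/-- The degrees of the primes of a tuple, modulo two. -/
def nz (D : Dat G N P) (z : Fin m → P) (i : Fin m) : ZMod 2 := D.ch (z i) (D.tau D.inf)

/-- The symbols between the fixed and the variable primes. -/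
def Az (D : Dat G N P) (z : Fin m → P) (v : TT D) (i : Fin m) : ZMod 2 :=
  D.ch v.1 (D.phi (z i))

/-- The symbols between the variable primes. -/
def Bz (D : Dat G N P) (z : Fin m → P) (i j : Fin m) : ZMod 2 := D.ch (z i) (D.phi (z j))

open Classical in
/-- The type with the values `c v`, `c₀`, `s i`. -/
noncomputable def typ (D : Dat G N P) (x : Unk (TT D) (VN N) m) : D.J (Fin m) → N :=
  Sum.elim (fun v => if h : v.1 = D.inf then x.2.1.v else (x.1 ⟨v.1, v.2, h⟩).v)
    fun i => (x.2.2 i).v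

/-- Tameness (only for the inertia generators). -/
def Tms (D : Dat G N P) (z : Fin m → P) : Prop :=
  ∀ s ∈ D.S, ∀ Q : N, tw (D.chi z) (D.tau s) Q = Q → 2 • Q = 0

/-- No cyclic subgroup of order four is stable under the inertia groups of the finite places. -/
def Ird (D : Dat G N P) : Prop :=
  ∀ Q : N, 4 • Q = 0 → 2 • Q ≠ 0 →
    ∃ v, v ∈ D.S ∧ v ≠ D.inf ∧ D.tau v • Q ≠ Q ∧ D.tau v • Q ≠ -Q

open Polynomial in
/-- The arithmetic of the finite places: `pi v` is the monic irreducible polynomial of the place `v`,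
`Irr n` the set of the places outside `S` of degree `n`. -/
structure Arith {F : Type} [Field F] (D : Dat G N P) (pi : P → F[X]) (Irr : ℕ → Finset P) :
    Prop where
  mi : ∀ v, v ≠ D.inf → (pi v).Monic ∧ Irreducible (pi v)
  inj : ∀ v w, v ≠ D.inf → w ≠ D.inf → pi v = pi w → v = w
  sur : ∀ Q : F[X], Q.Monic → Irreducible Q → ∃ v, v ≠ D.inf ∧ pi v = Q
  deg : ∀ v, v ≠ D.inf → D.ch v (D.tau D.inf) = (pi v).natDegree
  sym : ∀ v w, v ≠ D.inf → w ≠ D.inf → v ≠ w → D.ch v (D.phi w) = syl cs (pi w) (pi v)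
  irr : ∀ n v, v ∈ Irr n ↔ v ∉ D.S ∧ (pi v).natDegree = n

open Classical in
/-- The injective tuples as a finite set. -/
noncomputable def tupF (Irr : ℕ → Finset P) (n : Fin m → ℕ) : Finset (Fin m → P) :=
  (Fintype.piFinset fun i => Irr (n i)).filter Function.Injective

end

end Pool.Agent.MP72S.Lv
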