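import Pool.Agent.Lib.MP_72e2e6_nt.Sm.G.SpecA

/-!
# MP_72e2e6_nt, `Sm`, block G: double counting for `Mom` and `Mbd`
-/

set_option autoImplicit false

namespace Pool.Agent.MP72S.Lv

open Finset MP72e2e6

namespace MomAux

section

variable {T W X : Type} [Fintype T] [AddCommGroup W] [Module (ZMod 2) W] [Finite W] {m : ℕ}

omit [Fintype T] in
theorem card_dual (W : Type) [AddCommGroup W] [Module (ZMod 2) W] [Finite W] :
    Nat.card (Module.Dual (ZMod 2) W) = Nat.card W := by
  rw [Module.natCard_eq_pow_finrank (K := ZMod 2) (V := W),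
    Module.natCard_eq_pow_finrank (K := ZMod 2) (V := Module.Dual (ZMod 2) W),
    Subspace.dual_finrank_eq]

theorem fin_dual (W : Type) [AddCommGroup W] [Module (ZMod 2) W] [Finite W] :
    Finite (Module.Dual (ZMod 2) W) :=
  Finite.of_injective (fun g : Module.Dual (ZMod 2) W => (g : W → ZMod 2)) DFunLike.coe_injective

omit [AddCommGroup W] [Module (ZMod 2) W] [Finite W] in
theorem card_unk : Nat.card (Unk T W m) = Nat.card W ^ (Fintype.card T + 1 + m) := by
  rw [Nat.card_prod, Nat.card_prod, Nat.card_fun, Nat.card_fun, Nat.card_fin,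
    Nat.card_eq_fintype_card (α := T), pow_add, pow_add, pow_one, mul_assoc]

open Classical in
theorem sum_le (hPrb : S_Prb) (S : Opr T W) (n : Fin m → ZMod 2) (Z : Finset X)
    (A : X → T → Fin m → ZMod 2) (B : X → Fin m → Fin m → ZMod 2) {M ε : ℝ} (hM : 0 ≤ M)
    (hε : 0 ≤ ε) (h : Eqd Z A B M ε) (P : Unk T W m → Prop) :
    (∑ z ∈ Z, (Nat.card {x : Unk T W m // S.Eqs n (A z) (B z) x ∧ P x} : ℝ)) ≤
      M * ((Nat.card {q : Unk T W m × ((Fin m → Module.Dual (ZMod 2) W) ×
          (T → Module.Dual (ZMod 2) W)) // P q.1 ∧ S.Cmp q.1.1 q.1.2.2 q.2.1 q.2.2} : ℝ) /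
            (Nat.card W : ℝ) ^ (Fintype.card T + m) +
        ε * (Nat.card W : ℝ) ^ (Fintype.card T + 1 + m)) := by
  have : Fintype W := Fintype.ofFinite W
  have := fin_dual W
  have : Fintype (Module.Dual (ZMod 2) W) := Fintype.ofFinite _
  have h1 : ∀ z, (Nat.card {x : Unk T W m // S.Eqs n (A z) (B z) x ∧ P x} : ℝ) =
      ∑ x : Unk T W m, if S.Eqs n (A z) (B z) x ∧ P x then (1 : ℝ) else 0 := by
    intro z
    rw [Nat.card_eq_fintype_card, Fintype.card_subtype, Finset.sum_boole]
  have h2 : ∀ x : Unk T W m, ({z | z ∈ Z ∧ S.Eqs n (A z) (B z) x}.ncard : ℝ) =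
      ∑ z ∈ Z, if S.Eqs n (A z) (B z) x then (1 : ℝ) else 0 := by
    intro x
    rw [Finset.sum_boole]
    congr 1
    rw [← Set.ncard_coe_finset]
    congr 1
    ext z
    simp
  have h3 : (Nat.card {q : Unk T W m × ((Fin m → Module.Dual (ZMod 2) W) ×
          (T → Module.Dual (ZMod 2) W)) // P q.1 ∧ S.Cmp q.1.1 q.1.2.2 q.2.1 q.2.2} : ℝ) =
      ∑ x : Unk T W m, if P x then (Nat.card {p : (Fin m → Module.Dual (ZMod 2) W) ×
        (T → Module.Dual (ZMod 2) W) // S.Cmp x.1 x.2.2 p.1 p.2} : ℝ) else 0 := by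
    rw [Nat.card_eq_fintype_card, Fintype.card_subtype, Finset.card_filter]
    push_cast
    rw [Fintype.sum_prod_type]
    refine Finset.sum_congr rfl fun x _ => ?_
    by_cases hP : P x
    · rw [if_pos hP, Nat.card_eq_fintype_card, Fintype.card_subtype, Finset.card_filter]
      push_cast
      refine Finset.sum_congr rfl fun p _ => ?_
      simp only [hP, true_and]
    · rw [if_neg hP]
      refine Finset.sum_eq_zero fun p _ => ?_
      simp only [hP, false_and, if_false]
  calc (∑ z ∈ Z, (Nat.card {x : Unk T W m // S.Eqs n (A z) (B z) x ∧ P x} : ℝ))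
      = ∑ x : Unk T W m, if P x then ({z | z ∈ Z ∧ S.Eqs n (A z) (B z) x}.ncard : ℝ) else 0 := by
        simp_rw [h1]
        rw [Finset.sum_comm]
        refine Finset.sum_congr rfl fun x _ => ?_
        by_cases hP : P x
        · rw [if_pos hP, h2]
          simp only [hP, and_true]
        · rw [if_neg hP]
          refine Finset.sum_eq_zero fun z _ => ?_
          simp only [hP, and_false, if_false]
    _ ≤ ∑ x : Unk T W m, ((if P x then M * ((Nat.card {p : (Fin m → Module.Dual (ZMod 2) W) ×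
          (T → Module.Dual (ZMod 2) W) // S.Cmp x.1 x.2.2 p.1 p.2} : ℝ) /
          (Nat.card W : ℝ) ^ (Fintype.card T + m)) else 0) + M * ε) := by
        refine Finset.sum_le_sum fun x _ => ?_
        by_cases hP : P x
        · rw [if_pos hP, if_pos hP, ← mul_add]
          exact hPrb T W X m S n Z A B M ε hM hε h x
        · rw [if_neg hP, if_neg hP, zero_add]
          exact mul_nonneg hM hε
    _ = _ := by
        rw [Finset.sum_add_distrib, Finset.sum_const, Finset.card_univ,
          ← Nat.card_eq_fintype_card (α := Unk T W m), card_unk, h3, mul_add, Finset.sum_div,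
          Finset.mul_sum, nsmul_eq_mul]
        congr 1
        · refine Finset.sum_congr rfl fun x _ => ?_
          by_cases hP : P x
          · rw [if_pos hP, if_pos hP]
          · rw [if_neg hP, if_neg hP, zero_div, mul_zero]
        · push_cast
          ring

theorem card_le (S : Opr T W) (P : Unk T W m → Prop)
    (Q : (Fin m → W × Module.Dual (ZMod 2) W) → Prop)
    (hPQ : ∀ (x : Unk T W m) (lam : Fin m → Module.Dual (ZMod 2) W)
      (δ : T → Module.Dual (ZMod 2) W), P x → S.Cmp x.1 x.2.2 lam δ →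
        Q fun i => (x.2.2 i, lam i)) :
    Nat.card {q : Unk T W m × ((Fin m → Module.Dual (ZMod 2) W) ×
          (T → Module.Dual (ZMod 2) W)) // P q.1 ∧ S.Cmp q.1.1 q.1.2.2 q.2.1 q.2.2} ≤
      Nat.card W ^ (2 * Fintype.card T + 1) *
        Nat.card {u : Fin m → W × Module.Dual (ZMod 2) W // Q u} := by
  have h1 : Nat.card ((T → W) × W × (T → Module.Dual (ZMod 2) W) ×
      {u : Fin m → W × Module.Dual (ZMod 2) W // Q u}) =
      Nat.card W ^ (2 * Fintype.card T + 1) *
        Nat.card {u : Fin m → W × Module.Dual (ZMod 2) W // Q u} := by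
    rw [Nat.card_prod, Nat.card_prod, Nat.card_prod, Nat.card_fun, Nat.card_fun, card_dual,
      Nat.card_eq_fintype_card (α := T)]
    ring
  have := fin_dual W
  rw [← h1]
  refine Nat.card_le_card_of_injective (fun q => (q.1.1.1, q.1.1.2.1, q.1.2.2,
    ⟨fun i => (q.1.1.2.2 i, q.1.2.1 i), hPQ _ _ _ q.2.1 q.2.2⟩)) ?_
  rintro ⟨⟨⟨c, c₀, s⟩, lam, δ⟩, hq⟩ ⟨⟨⟨c', c₀', s'⟩, lam', δ'⟩, hq'⟩ h
  simp only [Prod.mk.injEq, Subtype.mk.injEq] at h
  obtain ⟨h2, h3, h4, h5⟩ := h
  have h6 : s = s' := funext fun i => (Prod.mk.inj (congrFun h5 i)).1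
  have h7 : lam = lam' := funext fun i => (Prod.mk.inj (congrFun h5 i)).2
  subst h2 h3 h4 h6 h7
  rfl

end

end MomAux

end Pool.Agent.MP72S.Lv
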