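import Pool.Agent.Lib.MP_72e2e6_nt.Sm.G.Defs

/-!
# MP_72e2e6_nt, `Sm`, block G, statements with proofs, part A (finite linear algebra and counting)

Every module proves one of the propositions `S_X` below: file `Sm/G/X.lean` (import this file only)
with `theorem tX : S_X` or `theorem tX (h1 : S_Y) (h2 : S_Z) .. : S_X` (the used statements in the order of the
docstring), namespace `Pool.Agent.MP72S.Lv`, all other declarations `private`. The complete proofs are in the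
docstrings. Everything is over `ZMod 2`: signs do not matter (`-x = x`; `ZModModule.neg_eq_self`,
`ZModModule.add_self`). `N = |W| = |Dual W|`.
-/

set_option autoImplicit false

namespace Pool.Agent.MP72S.Lv

open Finset

/-- **Few** (200 lines). Counting tuples of pairwise related elements.

Proof. (1) For a tuple `u` with `R (u i) (u j)` for all `i`, `j` the range `𝓥` of `u` (a `Finset`) consists of pairwise
related elements, so it has at most `N` elements. There are at most `2 ^ |U|` finsets `𝓥`, and at most `N ^ m`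
maps `Fin m → 𝓥`. (2) Let `u` be in the second set, `𝓥'` its range, `#𝓥' ≤ N`. Let `𝓥 ⊇ 𝓥'` be a finset with `N`
elements (`Finset.exists_superset_card_eq` or similar, `N ≤ |U|`). By hypothesis there is `w ∈ 𝓥` which is a
value of `u` at most `L` times. So `u` is in one of the sets `E(𝓥, w) = {u | (∀ i, u i ∈ 𝓥) ∧
#{i | u i = w} ≤ L}`, `w ∈ 𝓥`, `#𝓥 = N`; there are at most `2 ^ |U| * N` pairs. `#E(𝓥, w) ≤ few N L m`: sort by the set
`I = {i | u i = w}`, `#I = j ≤ L`: there are `m.choose j` sets `I`, and outside of `I` there are `N - 1` possible values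
at each of the `m - j` places. -/
def S_Few : Prop :=
  ∀ (U : Type) [Finite U] (R : U → U → Prop) (N : ℕ), 1 ≤ N → N ≤ Nat.card U →
    (∀ 𝓥 : Finset U, (∀ w ∈ 𝓥, ∀ w' ∈ 𝓥, R w w') → #𝓥 ≤ N) → ∀ m L : ℕ,
    Nat.card {u : Fin m → U // ∀ i j, R (u i) (u j)} ≤ 2 ^ Nat.card U * N ^ m ∧
    Nat.card {u : Fin m → U // (∀ i j, R (u i) (u j)) ∧
      ¬ ∃ 𝓥 : Finset U, #𝓥 = N ∧ (∀ i, u i ∈ 𝓥) ∧ ∀ w ∈ 𝓥, L < {i | u i = w}.ncard} ≤
        2 ^ Nat.card U * N * few N L m

/-- **Bin** (80 lines). The binomial tail.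

Proof. `m.choose j ≤ m ^ j ≤ m ^ L` for `j ≤ L`, `1 ≤ m`; for `m ≥ L`: `(N - 1) ^ (m - j) ≤ N ^ L (N - 1) ^ (m - L)` if
`N ≥ 2` (`(N - 1) ^ (L - j) ≤ N ^ L`); so `few N L m ≤ (L + 1) N ^ L m ^ L (N - 1) ^ (m - L)` and
`few N L m / N ^ m ≤ C m ^ L ((N - 1) / N) ^ m` with a constant `C`, which tends to `0`
(`tendsto_pow_const_mul_const_pow_of_abs_lt_one`). For `N = 1` and `m > L` all terms are `0`. -/
def S_Bin : Prop :=
  ∀ N L : ℕ, 1 ≤ N → ∀ ε : ℝ, 0 < ε → ∃ m₀, ∀ m, m₀ ≤ m → (few N L m : ℝ) ≤ ε * (N : ℝ) ^ m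

/-- **Fou** (80 lines). Detecting zero by characters.

Proof. `sgn (a + b) = sgn a * sgn b`, so `sgn (∑ i, lam i (g i)) = ∏ i, sgn (lam i (g i))` and the sum over all
`lam : I → Dual W` is `∏ i, ∑ e : Dual W, sgn (e (g i))` (`Finset.prod_univ_sum`, `Fintype.piFinset_univ`). For `w ∈ W` the
sum `∑ e, sgn (e w)` is `|Dual W| = |W|` if `w = 0`; if `w ≠ 0` there is `e₀` with `e₀ w = 1`
(`Module.exists_dual_forall_apply_eq_zero_iff`, `Module.forall_dual_apply_eq_zero_iff`), and the shift `e ↦ e + e₀` changes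
the sign, so the sum is `0`. -/
def S_Fou : Prop :=
  ∀ (I W : Type) [Fintype I] [AddCommGroup W] [Module (ZMod 2) W] [Finite W]
    [Fintype (Module.Dual (ZMod 2) W)] [DecidableEq I],
    Nat.card (Module.Dual (ZMod 2) W) = Nat.card W ∧
    (∀ a b : ZMod 2, sgn (a + b) = sgn a * sgn b) ∧
    ∀ g : I → W, (g = 0 → ∑ lam : I → Module.Dual (ZMod 2) W, sgn (∑ i, lam i (g i)) =
        (Nat.card W : ℝ) ^ Fintype.card I) ∧
      (g ≠ 0 → ∑ lam : I → Module.Dual (ZMod 2) W, sgn (∑ i, lam i (g i)) = 0)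

/-- **Prb** (200 lines, uses `S_Fou`). The probability of a solution.

Proof. Let `g i` and `b v` be the left sides of the equations `good i`, `bad v` (for `z`). By `S_Fou` for `I = Fin m ⊕ T`:
`N ^ (m + |T|) * [all equations hold] = ∑_{lam, δ} sgn (∑ i, lam i (g i) + ∑ v, δ v (b v))`. The exponent is
`κ + bch α β (A z) (B z)` where `κ` does not depend on `z`,
`α v i = lam i (S.σ v (c v - s i)) + δ v (s i - c v)` and `β i j = (lam i - lam j) (s j - s i)`: for
`i < j` the coefficient of `B z i j = B z j i` is `lam i (s j - s i) + lam j (s i - s j)`, and the terms with `i = j`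
vanish. Sum over `z ∈ Z`: if `α = 0` and `β i j = 0` for all `i < j`, i.e. if `Cmp` holds, the absolute value of the
sum over `z` is at most `#Z ≤ M`; otherwise it is at most `ε * M`. There are `N ^ (m + |T|)` pairs `(lam, δ)`.
Divide by `N ^ (m + |T|)`. -/
def S_Prb : Prop :=
  ∀ (T W X : Type) [Fintype T] [AddCommGroup W] [Module (ZMod 2) W] [Finite W] (m : ℕ)
    (S : Opr T W) (n : Fin m → ZMod 2) (Z : Finset X) (A : X → T → Fin m → ZMod 2)
    (B : X → Fin m → Fin m → ZMod 2) (M ε : ℝ), 0 ≤ M → 0 ≤ ε → Eqd Z A B M ε →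
    ∀ x : Unk T W m, ({z | z ∈ Z ∧ S.Eqs n (A z) (B z) x}.ncard : ℝ) ≤
      M * ((Nat.card {p : (Fin m → Module.Dual (ZMod 2) W) × (T → Module.Dual (ZMod 2) W) //
        S.Cmp x.1 x.2.2 p.1 p.2} : ℝ) / (Nat.card W : ℝ) ^ (Fintype.card T + m) + ε)

/-- **Str** (250 lines, uses `MP72e2e6.StmtPpTS`). The structure of the main term.

Proof. Write `u i = (s i, lam i)`. `𝓥` is the set of the `u i` (every element of `𝓥` is one of them). By `Cmp.un` the
elements of `𝓥` satisfy the hypothesis of `StmtPpTS` (`ℓ = 2`: `BW w w' + BW w' w = (w.2 - w'.2) (w'.1 - w.1)`). `m ≥ 1`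
as `𝓥` is not empty; let `u₀ ∈ 𝓥` and `L' ≤ W × Dual W` be the subspace of `StmtPpTS` (`u ∈ 𝓥 ↔ u - u₀ ∈ L'`); put
`A = L'.map fst`. (a) `s i - s j ∈ A`: `u i - u j ∈ L'`. (b) Let `w ∈ A`, `w = x.1`, `x ∈ L'`. For every `b`
`u b + x ∈ 𝓥`, so there are more than `L` indices `i` with `u i = u b + x`, so `s i = s b + w`; at most one of
them is `b`. (c) Let `e : Dual W` vanish on `A`; then `(0, e) ∈ L'`, and for every `i` `u i + (0, e) ∈ 𝓥`, so there is
`i'` with `s i' = s i`, `lam i' = lam i + e`; subtract `Cmp.fx v i` and `Cmp.fx v i'`: `e (S.σ v (c v - s i)) = 0`. As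
this holds for all `e` vanishing on `A` (`Submodule.exists_le_ker_of_notMem`, `Submodule.dualCoannihilator`..)
`S.σ v (c v - s i) ∈ A` for all `v`, `i`. (d) `A` is stable: `a ∈ A` is `s i' - s i` for some `i`, `i'` by (b), and
`S.σ v a = S.σ v (c v - s i) - S.σ v (c v - s i')`. (e) `S.σ v` is injective and maps the finite set `A` to `A`, so it is
bijective on `A`; `S.σ v (c v - s i) = S.σ v a` with `a ∈ A`, so `c v - s i = a ∈ A`. (f) With
`τ y = ∑ v, S.d v • S.σ v y + (∑ i, n i) • y` the equation `Inf` says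
`τ (s b - c₀) = - ∑ v, S.d v • S.σ v (c v - s b) - ∑ i, n i • (s i - s b) ∈ A`; `τ` is injective (`Tm.inf`) and maps `A` to
`A`, so as in (e) `s b - c₀ ∈ A`. -/
def S_Str : Prop :=
  ∀ (T W : Type) [Fintype T] [AddCommGroup W] [Module (ZMod 2) W] [Finite W] (m : ℕ)
    (S : Opr T W) (n : Fin m → ZMod 2), S.Tm n → ∀ x : Unk T W m, S.Inf n x →
    ∀ (lam : Fin m → Module.Dual (ZMod 2) W) (δ : T → Module.Dual (ZMod 2) W),
    S.Cmp x.1 x.2.2 lam δ → ∀ L : ℕ,
    (∃ 𝓥 : Finset (W × Module.Dual (ZMod 2) W), #𝓥 = Nat.card W ∧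
      (∀ i, (x.2.2 i, lam i) ∈ 𝓥) ∧ ∀ w ∈ 𝓥, L < {i | (x.2.2 i, lam i) = w}.ncard) →
    ∃ A : Submodule (ZMod 2) W, (∀ v, ∀ y ∈ A, S.σ v y ∈ A) ∧
      (∀ i j, x.2.2 i - x.2.2 j ∈ A) ∧ (∀ v i, x.1 v - x.2.2 i ∈ A) ∧
      (∀ i, x.2.1 - x.2.2 i ∈ A) ∧
      ∀ b, ∀ w ∈ A, L ≤ {i | i ≠ b ∧ x.2.2 i = x.2.2 b + w}.ncard

/-- **Rk1** (150 lines). The operators of rank one.

Proof. `V` has four elements. For `y : V` let `N y` be the operator `a ↦ f a y • y` of `V` (it acts on `V ^ k`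
componentwise). For `x ≠ 0`: `f x z = 0` iff `z ∈ {0, x}`. Claim: if `x ≠ 0`, then there is `y ≠ 0`, `y ≠ x` such that `A` is
stable under `N y`. Let `g = S.σ v` with `x' = g x ∉ {0, x}`; `x, x'` is a basis of `V`, `f x x' = 1`. As `g` is self-adjoint,
`f x (g x') = f (g x) x' = f x' x' = 0`, so `g x' ∈ {0, x}`. If `g x' = 0`, then `g = N x'`: `N x' x = f x x' • x' = x'`,
`N x' x' = 0`; take `y = x'`. If `g x' = x`, take `y = x + x'`: `g = 1 + N y`: `x + f x y • y = x + x + x' = x'`,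
`x' + f x' y • y = x' + x + x' = x`; so `N y = g - 1` maps `A` to `A`. Apply the claim to some `x₁ ≠ 0`, get `y₁`; apply it to
`x₂ = y₁`, get `y₂ ≠ y₁`. So `f y₁ y₂ = 1`, `y₁, y₂` is a basis, and the composition `N y₂ N y₁` is `a ↦ f a y₁ • y₂`,
`N y₁ N y₂` is `a ↦ f a y₂ • y₁`. So `A` is stable under `a ↦ f a y • z` for `y, z ∈ {y₁, y₂}`, and by bilinearity for all `y`,
`z`. -/
def S_Rk1 : Prop :=
  ∀ (T V : Type) [AddCommGroup V] [Module (ZMod 2) V], Nat.card V = 4 →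
    ∀ f : V →ₗ[ZMod 2] Module.Dual (ZMod 2) V, (∀ x, f x x = 0) →
    (∀ x, (∀ y, f x y = 0) → x = 0) → ∀ S : Opr T V,
    (∀ v x y, f x (S.σ v y) = f (S.σ v x) y) →
    (∀ x, x ≠ 0 → ∃ v, S.σ v x ≠ 0 ∧ S.σ v x ≠ x) → ∀ k : ℕ,
    ∀ A : Submodule (ZMod 2) (Fin k → V), (∀ v, ∀ x ∈ A, (S.pow k).σ v x ∈ A) →
      ∀ (y z : V), ∀ x ∈ A, (fun j => f (x j) y • z) ∈ A

/-- **Dns** (100 lines, uses `S_Rk1`). The density theorem.

Proof. Let `Bc = {β : Fin k → ZMod 2 | ∀ z : V, (fun j => β j • z) ∈ A}`, a subspace of `Fin k → ZMod 2`. If `Bc = ⊤` then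
`A = ⊤`: every `a : Fin k → V` is `∑ j, (fun i => Pi.single j 1 i • a j)`. So `Bc ≠ ⊤`, and there is a functional `φ ≠ 0`
on `Fin k → ZMod 2` which vanishes on `Bc` (`Submodule.exists_le_ker_of_lt_top`); `φ β = ∑ j, φ (Pi.single j 1) * β j`.
Put `γ j = φ (Pi.single j 1)`; `γ ≠ 0`. Let `x ∈ A`. For every `y : V` the vector `(f (x j) y)_j` is in `Bc` by `S_Rk1`, so
`∑ j, γ j * f (x j) y = 0`, i.e. `f (∑ j, γ j • x j) y = 0` for all `y`, so `∑ j, γ j • x j = 0`. -/
def S_Dns : Prop :=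
  ∀ (T V : Type) [AddCommGroup V] [Module (ZMod 2) V], Nat.card V = 4 →
    ∀ f : V →ₗ[ZMod 2] Module.Dual (ZMod 2) V, (∀ x, f x x = 0) →
    (∀ x, (∀ y, f x y = 0) → x = 0) → ∀ S : Opr T V,
    (∀ v x y, f x (S.σ v y) = f (S.σ v x) y) →
    (∀ x, x ≠ 0 → ∃ v, S.σ v x ≠ 0 ∧ S.σ v x ≠ x) → ∀ k : ℕ, S.Dns k

/-- **Two** (150 lines). Self-adjoint operators on a space with four elements.

Proof. (1) `x ↦ f x (g x)` is additive: `f (x + y) (g (x + y)) = f x (g x) + f y (g y) + f x (g y) + f y (g x)`, and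
`f x (g y) = f (g x) y = f y (g x)` (`f` is symmetric as it is alternating). `f` is nondegenerate and `V` finite, so every
functional is `f h`. (2) `h` is unique. If `g` is a scalar `r`, then `f x (g x) = 0`, `h = 0`, and `r = 1` by injectivity
(`V ≠ 0`); all the claims are clear (`f x (M x) = f h' x`). Otherwise there is `x` with `x' = g x ∉ {0, x}` (an operator
with `g x ∈ {0, x}` for all `x` is a scalar on a space with four elements; by injectivity: `g x = x` for all `x`). `x, x'`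
is a basis, `f x x' = 1`, and `g x' ∈ {0, x}` as in `S_Rk1`, so `g x' = x` by injectivity. So `g` exchanges `x` and `x'`, and
`h = x + x'` (`f x (g x) = 1`, `f x' (g x') = 1`), `g h = h`. `M` commutes with `g`: let `M x = a • x + b • x'`; then
`M x' = M (g x) = g (M x) = a • x' + b • x`, so `M = a + b g`, `h' = b • h`, and `f (g y) (M y) = a f (g y) y + b f (g y) (g y) =
a f h y`, `f (g h' + M h) y = f (b • h + a • h + b • h) y = a f h y`, `f h (M h) = f h ((a + b) • h) = 0`. -/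
def S_Two : Prop :=
  ∀ (V : Type) [AddCommGroup V] [Module (ZMod 2) V], Nat.card V = 4 →
    ∀ f : V →ₗ[ZMod 2] Module.Dual (ZMod 2) V, (∀ x, f x x = 0) →
    (∀ x, (∀ y, f x y = 0) → x = 0) →
    (∀ g : Module.End (ZMod 2) V, (∀ x y, f x (g y) = f (g x) y) →
      ∃ h : V, ∀ x, f x (g x) = f h x) ∧
    ∀ g M : Module.End (ZMod 2) V, (∀ x y, f x (g y) = f (g x) y) →
      (∀ x y, f x (M y) = f (M x) y) → (∀ x, g x = 0 → x = 0) → (∀ x, g (M x) = M (g x)) →
      ∀ h h' : V, (∀ x, f x (g x) = f h x) → (∀ x, f x (M x) = f h' x) →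
        (∀ x, f (g x) (M x) = f (g h' + M h) x) ∧ g h = h ∧ f h (M h) = 0

/-- **Mom** (150 lines, uses `S_Few`, `S_Prb`, `MP72e2e6.StmtPpTS`). The average number of solutions.

Proof. Let `U = W × Dual W`, `|U| = N ^ 2`, and `R u u' = ((u.2 - u'.2) (u.1 - u'.1) = 0)`; the hypothesis of `S_Few` is
the first claim of `StmtPpTS` (`ℓ = 2`; `BW u u' + BW u' u = (u.2 - u'.2) (u'.1 - u.1)`). Exchange the sums: the
left side is at most `∑_x #{z ∈ Z | S.Eqs n (A z) (B z) x}`, and by `S_Prb` at most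
`M (N ^ -(|T| + m) ∑_x #{(lam, δ) | Cmp} + ε N ^ (|T| + 1 + m))`. The sum is the number of the quintuples
`(c, c₀, s, lam, δ)` with `Cmp`, at most `N ^ |T| * N * N ^ |T| * #{u : Fin m → U | pairwise R} ≤
N ^ (2 |T| + 1) * 2 ^ (N ^ 2) * N ^ m`. -/
def S_Mom : Prop :=
  ∀ (T W X : Type) [Fintype T] [AddCommGroup W] [Module (ZMod 2) W] [Finite W] (m : ℕ)
    (S : Opr T W) (n : Fin m → ZMod 2) (Z : Finset X) (A : X → T → Fin m → ZMod 2)
    (B : X → Fin m → Fin m → ZMod 2) (M ε : ℝ), 0 ≤ M → 0 ≤ ε → Eqd Z A B M ε →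
    (∑ z ∈ Z, (Nat.card {x : Unk T W m // S.Sol n (A z) (B z) x} : ℝ)) ≤
      M * ((Nat.card W : ℝ) ^ (Fintype.card T + 1) * 2 ^ (Nat.card W ^ 2) +
        ε * (Nat.card W : ℝ) ^ (Fintype.card T + 1 + m))

/-- **Mbd** (200 lines, uses `S_Few`, `S_Prb`, `S_Str`, `MP72e2e6.StmtPpTS`). The average number of the bad
solutions.

Proof. `W = Fin k → V`, `N = |W|`; `(S.pow k).Tm n` holds (componentwise). As in `S_Mom`, summing only over the `x` which
are `Bad` and satisfy `Inf`: the left side is at most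
`M (N ^ -(|T| + m) * #{(x, lam, δ) | Inf, Bad, Cmp} + ε N ^ (|T| + 1 + m))`. Claim: for such `(x, lam, δ)` the tuple
`u i = (s i, lam i)` is in the second set of `S_Few` (for `L`): otherwise there is `𝓥` as in `S_Str`, so there is `A`. If
`A = ⊤`, then for every `w` the set `{i | i ≠ b ∧ s i = s b + w}` has at least `L` elements, against `Bad.few`. If
`A ≠ ⊤`, let `β ≠ 0` be as in `Dns`; `c v - c₀ = (c v - s i) - (c₀ - s i) ∈ A` and `s i - c₀ ∈ A` (take any `i`; `m ≥ 1` as `b`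
exists), so the sums in `Bad.ind` vanish and `β = 0`, a contradiction. So the number of these `(x, lam, δ)` is at most
`N ^ (2 |T| + 1) * 2 ^ (N ^ 2) * N * few N L m`. -/
def S_Mbd : Prop :=
  ∀ (T V X : Type) [Fintype T] [AddCommGroup V] [Module (ZMod 2) V] [Finite V] (m : ℕ)
    (S : Opr T V) (n : Fin m → ZMod 2), S.Tm n → ∀ k : ℕ, S.Dns k →
    ∀ (Z : Finset X) (A : X → T → Fin m → ZMod 2)
    (B : X → Fin m → Fin m → ZMod 2) (M ε : ℝ), 0 ≤ M → 0 ≤ ε → Eqd Z A B M ε →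
    ∀ (b : Fin m) (L N : ℕ), N = Nat.card V ^ k →
    (∑ z ∈ Z, (Nat.card {x : Unk T (Fin k → V) m // (S.pow k).Sol n (A z) (B z) x ∧
        Bad k b L x} : ℝ)) ≤
      M * ((N : ℝ) ^ (Fintype.card T + 1) * 2 ^ (N ^ 2) * N * (few N L m / (N : ℝ) ^ m) +
        ε * (N : ℝ) ^ (Fintype.card T + 1 + m))

/-- **Pwc** (80 lines). Solutions of the powers.

Proof. (1) An element `x : Unk T (Fin k → V) m` is the same as the `k` elements `x_j = (c · j, c₀ j, s · j)` of
`Unk T V m`; a sum in `Fin k → V` is `0` iff all its components are, and `(S.pow k).σ v`, `(S.pow k).Λ` act on the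
components. (2) So the solutions of the power are the functions from `Fin k` to the solutions. -/
def S_Pwc : Prop :=
  ∀ (T V : Type) [Fintype T] [AddCommGroup V] [Module (ZMod 2) V] [Finite V] (m : ℕ)
    (S : Opr T V) (n : Fin m → ZMod 2) (A : T → Fin m → ZMod 2) (B : Fin m → Fin m → ZMod 2)
    (k : ℕ), (∀ x : Unk T (Fin k → V) m, (S.pow k).Sol n A B x ↔
      ∀ j, S.Sol n A B (fun v => x.1 v j, x.2.1 j, fun i => x.2.2 i j)) ∧
    Nat.card {x : Unk T (Fin k → V) m // (S.pow k).Sol n A B x} =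
      Nat.card {x : Unk T V m // S.Sol n A B x} ^ k

/-- **Fct** (250 lines, uses `S_Two`, `MP72e2e6.StmtPgFrm.{0}`). The number of solutions is a power of four.

Proof. The system is invariant under translations: `x = (c, c₀, s)` is a solution iff `(c - c₀, 0, s - c₀)` is one. So the
number of solutions is `4` times the number of the solutions with `c₀ = 0`. These are the `y : T ⊕ Fin m → V`
(`y = Sum.elim c s`) in the set of `StmtPgFrm` for `ι = T ⊕ Fin m`, `W = V`, the form `f`, the operators `σ' = S.σ v` at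
`inl v` and `1` at `inr i`, `Λ = S.Λ`, the degrees `D = S.d v`, `n i`, and the symbols `l (inl v) (inl v') = S.l v v'`,
`l (inl v) (inr i) = l (inr i) (inl v) = A v i`, `l (inr i) (inr j) = B i j` for `i ≠ j` and `0` for `i = j`
(characteristic two: signs do not matter). The hypotheses of `StmtPgFrm`: `h v`, `h₀` are the vectors of `S_Two` (1)
for `S.σ v`, `S.Λ`, and `h (inr i) = 0` (`f x x = 0`). Let `M β = ∑ β', l β β' • σ' β' + D β • Λ`; it is self-adjoint. Its
vector (`f x (M β x) = f h' x`) is `∑ β', l β β' • h β' + D β • h₀`. The commutation: hypothesis for `inl v`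
(`M (inl v) = ∑ v', S.l v v' • S.σ v' + (∑ i, A v i) • 1 + S.d v • S.Λ`), trivial for `inr i`. The relation, `σ h = h` and
`f h (M h) = 0` are `S_Two` (2) for `g = σ' β`, `M = M β` (for `inr i`: `g = 1`, `h = 0`; also directly). The conditions on
`h' = ∑ D β • h β`: with `τ = ∑ D β • σ' β = ∑ S.d v • S.σ v + (∑ n i) • 1`, which is self-adjoint and injective, its vector
is `h'`, and it commutes with `S.Λ` (hypothesis): `S_Two` (2) for `g = τ`, `M = S.Λ` gives `τ h' = h'` and `f h' (Λ h') = 0`. -/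
def S_Fct : Prop :=
  ∀ (T V : Type) [Fintype T] [AddCommGroup V] [Module (ZMod 2) V], Nat.card V = 4 →
    ∀ f : V →ₗ[ZMod 2] Module.Dual (ZMod 2) V, (∀ x, f x x = 0) →
    (∀ x, (∀ y, f x y = 0) → x = 0) → ∀ (m : ℕ) (S : Opr T V) (n : Fin m → ZMod 2), S.Tm n →
    (∀ v x y, f x (S.σ v y) = f (S.σ v x) y) → (∀ x y, f x (S.Λ y) = f (S.Λ x) y) →
    (∀ v v', S.l v v' = S.l v' v) →
    ∀ (A : T → Fin m → ZMod 2) (B : Fin m → Fin m → ZMod 2), (∀ i j, i ≠ j → B i j = B j i) →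
    (∀ v y, S.σ v (∑ v', S.l v v' • S.σ v' y + (∑ i, A v i) • y + S.d v • S.Λ y) =
      ∑ v', S.l v v' • S.σ v' (S.σ v y) + (∑ i, A v i) • S.σ v y + S.d v • S.Λ (S.σ v y)) →
    (∀ y, S.Λ (∑ v, S.d v • S.σ v y + (∑ i, n i) • y) =
      ∑ v, S.d v • S.σ v (S.Λ y) + (∑ i, n i) • S.Λ y) →
    ∃ a : ℕ, Nat.card {x : Unk T V m // S.Sol n A B x} = 4 ^ (a + 1)

end Pool.Agent.MP72S.Lv
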