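import Pool.Agent.Lib.MP_72e2e6_nt.Sm.G.Defs
import Pool.Agent.Lib.MP_72e2e6_nt.Sm.A.Spec1
import Pool.Agent.Lib.MP_72e2e6_nt.Sm.D.Spec

/-!
# MP_72e2e6_nt, `Sm`, block G, statements with proofs, part B (equidistribution of the symbols)

Every module proves one of the propositions `S_X` below: file `Sm/G/X.lean` (import this file only, and the proved files
`MP_72e2e6_nt/Pe*.lean`, if you want to use their lemmas) with `theorem tX : S_X` or
`theorem tX (h1 : S_Y) (h2 : S_Z) .. : S_X` (the used statements in the order of the docstring), namespace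
`Pool.Agent.MP72S.Lv`, all other declarations `private`. The complete proofs are in the docstrings. `q = Nat.card F`.
The statements `StmtX` are in the namespace `MP72e2e6` (take them with universe `0`: `StmtPeExt.{0}`).
-/

set_option autoImplicit false

namespace Pool.Agent.MP72S.Lv

open Finset Polynomial MP72e2e6

open Classical in
/-- The quadratic character of the family `pr` at the prime `P`. -/
noncomputable def fch {F : Type} [Field F] {ι : Type} [Fintype ι] (pr : ι → F[X]) (P : F[X]) :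
    ℝ :=
  if ∃ b, pr b = P then 0 else sgn (∑ b, syl cs (pr b) P)

/-- **Nir** (80 lines, uses `StmtSuPsi`). The number of the monic irreducible polynomials.

Proof. `psiC 1 n = ∑_{d ∣ n} d * #(irr F d) = q ^ n` (second claim of `StmtSuPsi`; cast to `ℝ`), and
`d * #(irr F d) ≤ q ^ d` (last claim). The divisors `d < n` are at most `n / 2`, so
`n * #(irr F n) ≥ q ^ n - ∑_{d ≤ n / 2} q ^ d ≥ q ^ n - 2 q ^ (n / 2)` (`q ≥ 2`; natural number division), and
`2 q ^ (n / 2) ≤ q ^ n / 2` for `n ≥ 4` (`q ^ (n - n / 2) ≥ 4`). (2): `q ^ n / (2 n)` tends to infinity. -/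
def S_Nir : Prop :=
  ∀ (F : Type) [Field F] [Finite F],
    (∀ n : ℕ, 4 ≤ n → (Nat.card F : ℝ) ^ n ≤ 2 * n * #(irr F n)) ∧
    ∀ M : ℕ, ∃ n₀, ∀ n, n₀ ≤ n → M ≤ #(irr F n)

/-- **Chs** (300 lines, uses `StmtSuSy`, `StmtSuPsi`, `StmtPeChr`, `StmtPeExt`, `StmtPeSyl`, `S_Nir`). Character sums
over the primes of degree `n`.

Proof. `q` is odd, `q ≥ 5`; `cs` is a logarithm (`IsLg 2 cs`) with `Rcp cs` (`StmtPeSyl`). Let `m = ∑ b, deg (pr b) ≥ 1`,
`m ≤ C (n + 1)`, `φ = phE cs pr 0`. For a monic irreducible `P`: `φ P = fch pr P` (`phE` is `1 ^ _ * ∏ b, lgc cs 1 (pr b) P`; if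
`P = pr b` for some `b` both are `0`; otherwise `pr b ∤ P`, `syl cs (pr b) P = cs (nm (pr b) P)` by `StmtSuSy`, and
`ZMod.stdAddChar a = (-1) ^ a` for `a : ZMod 2`). Let `K` be the extension of `F` of degree `n` (as in PeWei.lean:
`FiniteField.Extension`). As in the proof of `tPeWei` (PeWei.lean; copy it): if `20 m < q ^ n` and `16 ≤ q ^ n` then
`StmtPeExt` and `StmtPeChr` (for the image of `∏ b, pr b` in `K[X]`, which is monic, squarefree and not a constant) give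
`‖psiC φ n‖ ≤ 15 m √(q ^ n)`. `psiC φ n = n ∑_{P ∈ irr F n} φ P + ∑_{d ∣ n, d < n} d ∑_{P ∈ irr F d} φ P ^ (n / d)`, and the
second sum is at most `∑_{d ≤ n / 2} q ^ d ≤ 2 q ^ (n / 2)` (`|φ P| ≤ 1`, last claim of `StmtSuPsi`). So
`n |∑_{P ∈ irr F n} fch pr P| ≤ (15 C (n + 1) + 2) √(q ^ n)`, and with `S_Nir` (1) it is at most
`2 n #(irr F n) (15 C (n + 1) + 2) / √(q ^ n)`; `(15 C (n + 1) + 2) / √(q ^ n) → 0`. -/
def S_Chs : Prop :=
  ∀ (F : Type) [Field F] [Finite F], 4 ∣ Nat.card F - 1 → ∀ (C : ℕ) (ε : ℝ), 0 < ε →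
    ∃ n₀ : ℕ, ∀ n, n₀ ≤ n → ∀ (ι : Type) [Fintype ι] [Nonempty ι] (pr : ι → F[X]), Fam pr →
    ∑ b, (pr b).natDegree ≤ C * (n + 1) →
    |∑ P ∈ irr F n, fch pr P| ≤ ε * (#(irr F n) : ℝ)

/-- **Tup** (300 lines, uses `StmtPeSyl`, `S_Nir`, `S_Chs`). Character sums over tuples.

Proof. `Rcp cs`: `syl cs P Q = syl cs Q P` for different monic irreducible `P`, `Q` (`StmtPeSyl`). There are finitely many
`(α, β)`; fix one. Say that the index `i` occurs if `α v i ≠ 0` for some `v`, or `β i j ≠ 0` for some `j > i`, or `β j i ≠ 0` for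
some `j < i`. Let `i₀` be an index which occurs with `n i₀` maximal among those. Let `J` be the set of the `j ≠ i₀` with
`β i₀ j ≠ 0` (`i₀ < j`) or `β j i₀ ≠ 0` (`j < i₀`); all `j ∈ J` occur, so `n j ≤ n i₀`. Fix the `z j`, `j ≠ i₀`, different
(otherwise there is no injective tuple). The exponent `bch ..` is a constant plus
`∑_{v, α v i₀ ≠ 0} syl cs (pr v) (z i₀) + ∑_{j ∈ J} syl cs (z j) (z i₀)` (reciprocity; `z i₀` is different from the `z j`, and
from the `pr v` if `N₀` is larger than their degrees). The family `pr'` of the `pr v` with `α v i₀ ≠ 0` and of the `z j`, `j ∈ J`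
is a `Fam` (the `z j` are not among the `pr v`), not empty, and the sum of its degrees is at most
`∑ v, deg (pr v) + m * n i₀ ≤ C (n i₀ + 1)` with `C = ∑ v, deg (pr v) + m`. So by `S_Chs` (with `ε / 2`) the sum over all
`z i₀ ∈ irr F (n i₀)` of `fch pr' (z i₀)` has absolute value at most `ε / 2 * #(irr F (n i₀))`. The sum over the `z i₀` different
from all `z j` differs from it by at most `m` terms of absolute value `≤ 1` (the `z i₀ ∈ {z j | j ≠ i₀}`), and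
`m ≤ ε / 2 * #(irr F (n i₀))` for large `N₀` (`S_Nir`). Sum over the `z j`, `j ≠ i₀` (`sum_pi_split` in PpSpec.lean may help). -/
def S_Tup : Prop :=
  ∀ (F : Type) [Field F] [Finite F], 4 ∣ Nat.card F - 1 → ∀ (T : Type) [Fintype T]
    (pr : T → F[X]), Fam pr → ∀ (m : ℕ) (ε : ℝ), 0 < ε → ∃ N₀ : ℕ, ∀ n : Fin m → ℕ,
    (∀ i, N₀ ≤ n i) → ∀ Z : Finset (Fin m → F[X]),
    (∀ z, z ∈ Z ↔ (∀ i, z i ∈ irr F (n i)) ∧ Function.Injective z) →
    ∀ (α : T → Fin m → ZMod 2) (β : Fin m → Fin m → ZMod 2),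
    ((∃ v i, α v i ≠ 0) ∨ ∃ i j, i < j ∧ β i j ≠ 0) →
    |∑ z ∈ Z, sgn (bch α β (fun v i => syl cs (z i) (pr v)) fun i j => syl cs (z j) (z i))| ≤
      ε * ∏ i, (#(irr F (n i)) : ℝ)

/-- **Eqz** (150 lines, uses `S_Sym`, `S_Tup`). The symbols of the tuples are equidistributed.

Proof. `T = TT D`, `pr v = pi v`, a `Fam` (`Arith.mi`, `inj`). Let `N₀` be as in `S_Tup` and larger than the degrees of the
`pi v`, `v ∈ D.S` (also of `pi D.inf`) and than `0`. For `n ≥ N₀` the map `pi` is a bijection from `Irr n` to `irr F n`: if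
`v ∈ Irr n` then `v ∉ D.S`, so `v ≠ ∞` (`infS`) and `pi v` is monic, irreducible, of degree `n` (`mem_mon`, `irr`);
conversely `Q ∈ irr F n` is `pi v` with `v ≠ ∞` (`sur`), and `v ∉ D.S` because of the degree. So `z ↦ pi ∘ z` is a bijection
from `tupF Irr n` to the set `Z` of `S_Tup`, and `Az D z v i = syl cs (pi (z i)) (pi v)`,
`Bz D z i j = syl cs (pi (z j)) (pi (z i))` for `i ≠ j` (`Arith.sym`). `sym`: `S_Sym`. `card`: `#(tupF Irr n) ≤ ∏ #(Irr (n i))`. -/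
def S_Eqz : Prop :=
  ∀ {G N P F : Type} [Group G] [TopologicalSpace G] [AddCommGroup N] [DistribMulAction G N]
    [Field F] [Finite F] (D : Dat G N P) (pi : P → F[X]) (Irr : ℕ → Finset P), Ax D →
    Arith D pi Irr → 4 ∣ Nat.card F - 1 → ∀ (m : ℕ) (ε : ℝ), 0 < ε → ∃ N₀ : ℕ,
    ∀ n : Fin m → ℕ, (∀ i, N₀ ≤ n i) →
      Eqd (tupF Irr n) (Az D) (Bz D) (∏ i, (#(Irr (n i)) : ℝ)) ε

/-- **Nrr** (60 lines, uses `S_Nir`). The number of the places of degree `n`.

Proof. For `n` larger than the degrees of the `pi v`, `v ∈ D.S`, `pi` is a bijection from `Irr n` to `irr F n` (see `S_Eqz`). -/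
def S_Nrr : Prop :=
  ∀ {G N P F : Type} [Group G] [TopologicalSpace G] [AddCommGroup N] [DistribMulAction G N]
    [Field F] [Finite F] (D : Dat G N P) (pi : P → F[X]) (Irr : ℕ → Finset P), Ax D →
    Arith D pi Irr → ∀ M : ℕ, ∃ n₀, ∀ n, n₀ ≤ n → M ≤ #(Irr n)

/-- **Ksy** (150 lines, uses the following statements of `Sm/D/Spec.lean`: `S_Lf`, `S_Lc`, `S_Ln`, `S_Cs`, `S_QG`, `S_Rt`,
`S_Rq`, `S_Km`). The quadratic symbols in terms of the Frobenius elements.

Proof. `w = some R`, `v = A.av`, `Q = q ^ deg R` (odd), `e = A.eQ`, `φ = A.rQ A.f`, `x ∈ Qf F` with `x ^ 2 = f` (`S_QG` (4)); `v f = 1`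
since `R ∤ f` (`IsPl`). By `S_Lc` (7) there is `c ∈ K_v` with `c ^ Q = c` and `‖f - c‖ < 1`, so `‖c‖ = 1`, `c ≠ 0`. Let `c₁ ^ 2 = c` in
`Kvs v` (separably closed, `2 ≠ 0`), a constant by `S_Cs` (5) (`c` is a constant); `s = e x / c₁`,
`s ^ 2 = f / c = 1 + y`, `‖y‖ < 1`. By `S_Rt` (3) (`m = 1`) there is a constant `z`, `z ^ 2 = 1`, `nm (s - z) < 1`, `z = ± 1`;
replace `c₁` by `z c₁`, so that `nm (s - 1) < 1`. `s ^ 2 ∈ K_v` is fixed by `A.f`, so `A.f s = s` (`S_Rt` (4)). So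
`A.f (e x) = A.f c₁ * s = c₁ ^ Q * s = c₁ ^ (Q - 1) * e x = c ^ ((Q - 1) / 2) * e x`, and `e (φ x) = A.f (e x)` (`S_Rq` (1)). So
`φ x = x` iff `c ^ ((Q - 1) / 2) = 1` (`x ≠ 0`), and this is the condition `hK f φ = 0` (`S_Km` (2)). As
`(c ^ ((Q - 1) / 2)) ^ 2 = c ^ (Q - 1) = 1`, `c ^ ((Q - 1) / 2) = ± 1`, and it is `1` iff `‖c ^ ((Q - 1) / 2) - 1‖ < 1`
(`‖2‖ = 1`), iff `‖f ^ ((Q - 1) / 2) - 1‖ < 1` (`‖f - c‖ < 1`), iff `R ∣ f ^ ((Q - 1) / 2) - 1` (`S_Lc` (1), `IsPl`), iff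
`mk R f` is a square in the field `AdjoinRoot R` with `Q` elements (Euler's criterion, `FiniteField.isSquare_iff`). -/
def S_Ksy : Prop :=
  ∀ (F : Type) [Field F] [Finite F], (2 : F) ≠ 0 → ∀ (R : F[X]), R.Monic → Irreducible R →
    ∀ A : D.Lcd F, A.Ok (some R) → ∀ f : F[X], ¬ R ∣ f →
    (D.hK (algebraMap F[X] (RatFunc F) f) (A.rQ A.f) = 0 ↔ IsSquare (AdjoinRoot.mk R f))

end Pool.Agent.MP72S.Lv
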