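import Pool.Agent.Lib.MP_72e2e6_nt.Sm.G.SpecA
import Pool.Agent.Lib.MP_72e2e6_nt.Sm.G.SpecB
import Pool.Agent.Lib.MP_72e2e6_nt.Sm.A.Spec3

/-!
# MP_72e2e6_nt, `Sm`, block G, statements with proofs, part C (the group `Dk z 1`)

Every module proves one of the propositions `S_X` below: file `Sm/G/X.lean` (import this file only)
with `theorem tX : S_X` or `theorem tX (h1 : S_Y) (h2 : S_Z) .. : S_X` (the used statements in the order of the
docstring), namespace `Pool.Agent.MP72S.Lv`, all other declarations `private`. The complete proofs are in the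
docstrings. `S_Msa`, `S_Hom`, `S_Inj`, `S_Tin`, `S_Tai`, `S_TyU`, `S_Sym`, `S_Sy1`, `S_Dk1`, `S_Bas` are statements of `Sm/A` (namespace
`Pool.Agent.MP72S`; most of them are proved, see `Sm/A/*.lean`). `V` is the group `VN N` of the elements of order
two; `-x = x` there. `∞` is `D.inf`.
-/

set_option autoImplicit false

namespace Pool.Agent.MP72S.Lv

open Finset Polynomial MP72e2e6

/-- **Mop** (200 lines, uses `S_Msa`). The operators on the elements of order two.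

Proof. (1) `Ax.four`. (2) The bilinear form `(x, y) ↦ D.e x.v y.v` (`e_add`, `e_sym` give additivity in both variables; an
additive map between `ZMod 2`-modules is linear: `AddMonoidHom.toZModLinearMap`). `e_alt`, `e_nd`. (3) For `x : VN N` let
`Q` be a half of `x.v` (`dvs`), `4 Q = 0`. `tw χ g Q - Q` is of order two and does not depend on `Q` (`S_Msa`); additive in
`x`. (4) `S_Msa` (last part). (5) There is a half for every `x`. (6) `tw χ (g h) Q = tw χ g (tw χ h Q)`, and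
`tw χ h Q = Q + (L' x).v`, `tw χ g (Q + u) = tw χ g Q + u` for `u` of order two (`S_Msa`, `tw_two`). (7) `a = 0` clear; `a = 1`:
`tw χ' g Q = - tw χ g Q`, `- tw χ g Q - Q = - (tw χ g Q - Q) - 2 Q`, and elements of order two are equal to their
negatives. (8) `tw χ g Q = Q` iff `(L x).v = 0` for `2 Q = x.v`; if `2 ^ k Q = 0` with `2 Q ≠ 0` let `k` be minimal, `k ≥ 2`, and
`Q' = 2 ^ (k - 2) Q`, `x = 2 Q' ≠ 0` of order two, `L x = 0`. Conversely let `L x = 0`, `2 Q = x.v` (`dvs`): then `tw χ g Q = Q`, so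
`2 Q = 0`. -/
def S_Mop : Prop :=
  ∀ {G N P : Type} [Group G] [TopologicalSpace G] [AddCommGroup N] [DistribMulAction G N]
    (D : Dat G N P), Ax D → Nat.card (VN N) = 4 ∧ (∃ f, IsF D f) ∧
    (∀ (χ : G → ZMod 2) (g : G), ∃ L, IsMo (N := N) χ g L) ∧
    (∀ f, IsF D f → ∀ (χ : G → ZMod 2) (g : G) L, IsMo χ g L → ∀ x y, f x (L y) = f (L x) y) ∧
    (∀ (χ : G → ZMod 2) (g : G) (L L' : Module.End (ZMod 2) (VN N)), IsMo χ g L → IsMo χ g L' →
      L = L') ∧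
    (∀ (χ : G → ZMod 2) (g h : G) (L L' : Module.End (ZMod 2) (VN N)),
      χ (g * h) = χ g + χ h → IsMo χ g L → IsMo χ h L' → IsMo χ (g * h) (L + L')) ∧
    (∀ (χ χ' : G → ZMod 2) (g : G) (a : ZMod 2) (L : Module.End (ZMod 2) (VN N)),
      χ' g = χ g + a → IsMo χ g L → IsMo χ' g (L + a • (1 : Module.End (ZMod 2) (VN N)))) ∧
    ∀ (χ : G → ZMod 2) (g : G) (L : Module.End (ZMod 2) (VN N)), IsMo χ g L →
      ((∀ Q : N, tw χ g Q = Q → 2 • Q = 0) ↔ ∀ x, L x = 0 → x = 0)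

/-- **Cmm** (150 lines, uses `S_Msa`). Inertia and Frobenius operators commute.

Proof. Write `a = tw χ g`, `b = tw χ h` (additive; they are trivial on the elements of order two; `a (Q) = Q + (L x).v` if
`2 Q = x.v`). Let `x : VN N`, `2 Q = x.v`, `2 R = Q`. Let `P = a R - R`, `P' = b R - R`; `2 P = a Q - Q = (L x).v`,
`2 P' = (L' x).v`. `b (a R) = b R + b P = R + P' + P + (L' (L x)).v`. `a P = P + (L (L x)).v`, so
`a (a R) = R + 2 P + (L (L x)).v = R + u` with `u` of order two, and `a ^ 4 R = R`; so `a ^ q R = a R = R + P` (`q % 4 = 1`).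
`a P' = P' + (L (L' x)).v`, `a (a P') = P'`, so `a ^ q P' = P' + (L (L' x)).v` (`q` is odd). As `h g = g ^ q h` and `χ` is additive
(so `tw χ` is an action: `tw_mul`), `b (a R) = a ^ q (b R) = a ^ q R + a ^ q P' = R + P + P' + (L (L' x)).v`. Compare. -/
def S_Cmm : Prop :=
  ∀ {G N P : Type} [Group G] [TopologicalSpace G] [AddCommGroup N] [DistribMulAction G N]
    (D : Dat G N P), Ax D → ∀ (χ : G → ZMod 2), (∀ σ τ, χ (σ * τ) = χ σ + χ τ) → ∀ (g h : G) (q : ℕ),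
    q % 4 = 1 → h * g = g ^ q * h → ∀ L L' : Module.End (ZMod 2) (VN N), IsMo χ g L →
    IsMo χ h L' → ∀ x, L (L' x) = L' (L x)

/-- **Exp** (200 lines, uses `S_Hom`, `S_Mop`). Expansions in terms of the quadratic characters.

Proof. (1) `rcp` for `f = ch v`, `g = cst`: at `v` the term is `1 * cst (φ_v) + ch v (φ_v) * cst (τ_v) = cst (φ_v)`, at `∞` it is
`ch v (τ_∞) * 1 + 0`, at the other places it is `0` (`ch_tau'`, `cst_tau`); `finsum` with at most two nonzero terms. (2) `θ` has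
values of order two; the right side (with `[a = 1] u` for `if a = 0 then 0 else u`) is a function of the same kind
(`IsHo`), and the two have the same values at the `τ_v`, `v ≠ ∞` (`v ∈ A` and `v ∉ A`; `ch_tau`, `ch_tau'`, `cst_tau`) and at `φ_∞`
(`ch_inf`, `cst_inf`). The difference `ρ` vanishes at all `τ_v`, `v ≠ ∞`, and at `φ_∞`; also at `τ_∞`: for `s` of order two the
character `f = e (ρ ·) s` satisfies by `rcp` (with `g = cst`) `∑ᶠ v, f (τ_v) cst (φ_v) = 0`, i.e. `f (τ_∞) = 0`; use `e_nd`. So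
`ρ = 0` by `S_Hom` (1). (3) There is `S` with these operators (`S_Mop` (3)). (4) Let `x : VN N`, `2 Q = x.v`, and
`θ g = tw ch0 g Q - Q`: by `S_Mop` (6), (3) it is additive in `g`, of order two, locally constant (`act`, `ch0c`), so `IsHo`;
`θ (τ_v) = 0` for `v ∉ D.S` (`unr`, `ch0_tau`). Apply (2) with `A = D.S` without `∞`; the sum over `TT D`. -/
def S_Exp : Prop :=
  ∀ {G N P : Type} [Group G] [TopologicalSpace G] [AddCommGroup N] [DistribMulAction G N]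
    (D : Dat G N P), Ax D → (∀ v, v ≠ D.inf → D.cst (D.phi v) = D.ch v (D.tau D.inf)) ∧
    (∀ (A : Finset P) (θ : G → N), D.inf ∉ A → IsHo θ →
      (∀ v, v ∉ A → v ≠ D.inf → θ (D.tau v) = 0) → ∀ σ,
      θ σ = ∑ v ∈ A, (if D.ch v σ = 0 then 0 else θ (D.tau v)) +
        if D.cst σ = 0 then 0 else θ (D.phi D.inf)) ∧
    (∃ S, IsSy D S) ∧
    ∀ S, IsSy D S → ∀ (g : G) (L : Module.End (ZMod 2) (VN N)), IsMo D.ch0 g L → ∀ x,
      L x = ∑ v, D.ch v.1 g • S.σ v x + D.cst g • S.Λ x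

/-- **Lnk** (300 lines, uses `S_Hom`, `S_Inj`, `S_Tai`, `S_Sym`, `S_Mop`, `S_Exp`). The group `Dk z 1` is the set of
the solutions.

Proof. `(D.Dk z 1)` is `{t ∈ D.Z z | 2 • t = 0}` (`2 ^ 0 • t = t`). Write `χ = D.chi z = ch0 + ∑ ch (z i)`. By `S_Mop` (7) the operator of
`(χ, g)` is `L_g + ∑ i, ch (z i) g`, where `L_g` is the one of `(ch0, g)`, given by `S_Exp` (4): so `L (τ_v) = S.σ v`,
`L (φ_∞) = S.Λ` and `L (φ_v) = ∑ v', S.l v v' • S.σ v' + S.d v • S.Λ` for `v : TT D` (`S_Exp` (1)),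
`L (τ_∞) = ∑ v, S.d v • S.σ v`, `L (φ_(z i)) = ∑ v, Az v i • S.σ v + nz i • S.Λ`, `L (τ_(z i)) = 0`. `χ (τ_v) = ch0 (τ_v)` for
`v : TT D`, `χ (φ_∞) = ch0 (φ_∞)`, `χ (τ_(z i)) = 1` (`S_Tai`), `ch (z i) (φ_v) = Az v i` (`S_Sym`), `ch (z i) (φ_(z i)) = 0`.
(a) `Lo z v Q ψ` for `2 Q = x.v`, `x : VN N`, says that `ψ (τ_v)`, `ψ (φ_v)` are the values of the operators of `(χ, τ_v)`, `(χ, φ_v)` at `x`. (b)
Let `t = typ D x`, `x = (c, c₀, s)`. A homomorphism `ψ` (`IsHo`) which is unramified outside `S` and the `z i` is by `S_Exp` (2)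
(`A` = the fixed finite places and the `z i`) `∑ v, [ch v] ψ (τ_v) + ∑ i, [ch (z i)] ψ (τ_(z i)) + [cst] ψ (φ_∞)`. It satisfies the
local conditions of the type `t` at the `τ_v`, `τ_(z i)`, `φ_∞` iff `ψ (τ_v) = S.σ v (c v)`, `ψ (τ_(z i)) = s i`, `ψ (φ_∞) = S.Λ c₀`, and
then the conditions at `φ_v`, `φ_(z i)`, `τ_∞` are the equations `bad`, `good`, `Inf` (compute the values of `ψ` with the
expansion; e.g. at `φ_v`: `∑ v', S.l v v' • S.σ v' (c v') + ∑ i, Az v i • s i + S.d v • S.Λ c₀ =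
∑ v', S.l v v' • S.σ v' (c v) + S.d v • S.Λ (c v) + ∑ i, Az v i • c v`). (→) Let `t ∈ Dk z 1`, `ψ` with `IsZ z t ψ`. `2 ψ` is of type
`2 t = 0`, so `2 ψ = 0` (`S_Inj`), and `ψ` is a homomorphism (`tw_two`): `IsHo`. Every `t` with `2 • t = 0` is `typ D x` for a
unique `x`. (←) `S_Hom` (2) gives `ψ` with the prescribed values; `IsZ z t ψ`. (2) `typ` is injective, and additive. -/
def S_Lnk : Prop :=
  ∀ {G N P : Type} [Group G] [TopologicalSpace G] [AddCommGroup N] [DistribMulAction G N]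
    (D : Dat G N P), Ax D → ∀ S, IsSy D S → ∀ (m : ℕ) (z : Fin m → P), D.Ok z →
    (∀ t : D.J (Fin m) → N, t ∈ D.Dk z 1 ↔
      ∃ x : Unk (TT D) (VN N) m, t = typ D x ∧ S.Sol (nz D z) (Az D z) (Bz D z) x) ∧
    Function.Injective (typ D : Unk (TT D) (VN N) m → D.J (Fin m) → N) ∧
    (∀ x y : Unk (TT D) (VN N) m, typ D (x + y) = typ D x + typ D y) ∧
    Nat.card (D.Dk z 1) =
      Nat.card {x : Unk (TT D) (VN N) m // S.Sol (nz D z) (Az D z) (Bz D z) x}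

/-- **Tmz** (120 lines, uses `S_Tai`, `S_Mop`, `S_Exp`). Tameness in terms of the operators.

Proof. The operator of `(D.chi z, τ_v)` is `S.σ v` for `v : TT D` (`chi z (τ_v) = ch0 (τ_v)` by `ch_tau'`), and the one of
`(D.chi z, τ_∞)` is `∑ v, S.d v • S.σ v + (∑ i, nz D z i) • 1` (`S_Exp` (4), `cst_tau`, `S_Mop` (7)). Use `S_Mop` (8). -/
def S_Tmz : Prop :=
  ∀ {G N P : Type} [Group G] [TopologicalSpace G] [AddCommGroup N] [DistribMulAction G N]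
    (D : Dat G N P), Ax D → ∀ S, IsSy D S → ∀ (m : ℕ) (z : Fin m → P), D.Ok z → Tms D z →
    S.Tm (nz D z)

/-- **Dnz** (80 lines, uses `S_Mop`, `S_Dns`). Density.

Proof. `S_Dns` for `V = VN N`, the form of `S_Mop` (2), self-adjoint by `S_Mop` (4). Let `x ≠ 0`, `2 Q = x.v`; by `Ird` there is
`v : TT D` with `τ_v Q ∉ {Q, -Q}`. `S.σ v x = τ_v Q - Q` or `-τ_v Q - Q = (τ_v Q - Q) + x` (elements of order two) according to
`ch0 (τ_v)`. If `τ_v Q - Q = 0` or `τ_v Q - Q = x = 2 Q = -2 Q`, then `τ_v Q = Q` or `τ_v Q = -Q`. So `τ_v Q - Q ∉ {0, x}` and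
`S.σ v x ∉ {0, x}`. -/
def S_Dnz : Prop :=
  ∀ {G N P : Type} [Group G] [TopologicalSpace G] [AddCommGroup N] [DistribMulAction G N]
    (D : Dat G N P), Ax D → Ird D → ∀ S, IsSy D S → ∀ k, S.Dns k

/-- **Lg3** (150 lines, uses `S_Sym`, `S_Mop`, `S_Cmm`, `S_Exp`, `S_Lnk`, `S_Tmz`, `S_Fct`). The order is a power of four.

Proof. `S_Fct` for `V = VN N`, the form of `S_Mop` (2), `n = nz D z`, `A = Az D z`, `B = Bz D z`. Self-adjoint: `S_Mop` (4). Symmetry: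
`S_Sym`. The first commutation: `S_Cmm` for `χ = ch0`, `g = τ_v`, `h = φ_v` and `S_Exp` (4): the operator of `φ_v` is
`∑ v', S.l v v' • S.σ v' + S.d v • S.Λ` (`S_Exp` (1)); the scalar `∑ A v i` commutes with everything. The second one: the
same for `g = τ_∞`, `h = φ_∞`: the operator of `τ_∞` is `∑ v, S.d v • S.σ v`. -/
def S_Lg3 : Prop :=
  ∀ {G N P : Type} [Group G] [TopologicalSpace G] [AddCommGroup N] [DistribMulAction G N]
    (D : Dat G N P), Ax D → ∀ (m : ℕ) (z : Fin m → P), D.Ok z → Tms D z →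
    ∃ s : ℕ, Nat.card (D.Dk z 1) = 4 ^ (s + 1)

/-- **Pbd** (200 lines, uses `S_Tin`, `S_Lnk`, `S_Pwc`). Missing patterns give bad solutions.

Proof. `T = D.T (Fin m)` has four elements and is contained in `Δ = D.Dk z 1` (`S_Tin`; or: the constant `x` are solutions).
`Δ` is an elementary abelian group (`2 • t = 0`), finite; so `Δ` has `4 * 2 ^ k` elements, `2 ^ k` being the order of `Δ / T`:
(1). (2) There are `ν_1, …, ν_k ∈ Δ` whose classes are a basis of `Δ / T` over `F_2` (`Module.finBasis` for the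
quotient of `Δ` by `T`, a `ZMod 2`-module): every `ν ∈ Δ` is `∑ j, β j ν_j + t`, `t ∈ T`, and `∑ j, β j ν_j ∈ T` only for `β = 0`.
Let `ν_j = typ D x_j` (`S_Lnk`) and `x = (c, c₀, s)` with `c v j = (x_j).1 v` etc.; it is a solution of `S.pow k` (`S_Pwc`). `Bad.ind`:
if the two sums vanish for `β`, then `∑ j, β j x_j` is constant (all its entries are `∑ j, β j • c₀ j`), so `∑ β j ν_j ∈ T` and
`β = 0`. `Bad.few`: let `c' = c` be a map against `Pat` (additive on `Δ`, `0` on `T`, `2 c' = 0`) such that there is no `I` with `L`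
elements; `w j = c' (ν_j)` (an element of `VN N`). If `{i | i ≠ b ∧ s i = s b + w}` had at least `L` elements, let `I` be a
subset with `L` elements: for `i ∈ I`, `ν_j (inr i) = ν_j (inr b) + c' (ν_j)` for all `j`, so by additivity
`ν (inr i) = ν (inr b) + c' ν` for all `ν ∈ Δ` (for `t ∈ T` it is clear), a contradiction. -/
def S_Pbd : Prop :=
  ∀ {G N P : Type} [Group G] [TopologicalSpace G] [AddCommGroup N] [DistribMulAction G N]
    (D : Dat G N P), Ax D → ∀ S, IsSy D S → ∀ (m : ℕ) (z : Fin m → P), D.Ok z →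
    (∃ k : ℕ, Nat.card (D.Dk z 1) = 4 * 2 ^ k) ∧
    ∀ k : ℕ, Nat.card (D.Dk z 1) = 4 * 2 ^ k → ∀ (b : Fin m) (L : ℕ), ¬ D.Pat (D.Dk z 1) b L →
      ∃ x : Unk (TT D) (Fin k → VN N) m, (S.pow k).Sol (nz D z) (Az D z) (Bz D z) x ∧ Bad k b L x

/-- **Lg1** (120 lines, uses `S_Mop`, `S_Exp`, `S_Eqz`, `S_Lnk`, `S_Mom`). The average order of `Dk z 1`.

Proof. Let `S` with `IsSy D S`, `t = |TT D|`; `|VN N| = 4`. `C = 4 ^ (t + 1) * 2 ^ 16 + 1`. Given `m`, let `ε = 4 ^ -(t + 1 + m)` and `N₀`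
from `S_Eqz`. Then (`S_Lnk`) the sum is `∑_z #{x | S.Sol (nz D z) (Az D z) (Bz D z) x}`, where `nz D z = (n i mod 2)` does not
depend on `z` (`Arith.deg`, `Arith.irr`); `S_Mom` for `W = VN N`. (`tup` is the set of the elements of `tupF`; the `finsum` is a
`Finset.sum`.) -/
def S_Lg1 : Prop :=
  ∀ {G N P F : Type} [Group G] [TopologicalSpace G] [AddCommGroup N] [DistribMulAction G N]
    [Field F] [Finite F] (D : Dat G N P) (pi : P → F[X]) (Irr : ℕ → Finset P), Ax D →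
    Arith D pi Irr → 4 ∣ Nat.card F - 1 → ∃ C : ℝ, ∀ m : ℕ, ∃ N₀ : ℕ, ∀ n : Fin m → ℕ,
    (∀ i, N₀ ≤ n i) → (∀ z ∈ tup fun i => Irr (n i), D.Ok z) →
    (∑ᶠ z ∈ tup fun i => Irr (n i), (Nat.card (D.Dk z 1) : ℝ)) ≤ C * ∏ i, (#(Irr (n i)) : ℝ)

/-- **Lg2a** (150 lines, uses `S_Mop`, `S_Exp`, `S_Eqz`, `S_Lnk`, `S_Mom`, `S_Pwc`). Large groups `Dk z 1` are rare.

Proof. Let `S` with `IsSy D S`, `t = |TT D|`. `#(Dk z 1) ^ 2` is the number of the solutions of `S.pow 2` (`S_Lnk`, `S_Pwc`),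
`W = Fin 2 → VN N`, `|W| = 16`. By `S_Mom` for `S.pow 2` and `S_Eqz` (with `ε' = 16 ^ -(t + 1 + m)`) the sum of the `#(Dk z 1) ^ 2` is
at most `C₂ ∏`, `C₂ = 16 ^ (t + 1) * 2 ^ 256 + 1`. So the sum of the `#(Dk z 1)` over the `z` with `#(Dk z 1) ≥ K` is at most
`C₂ / K ∏`; take `K ≥ C₂ / ε`. -/
def S_Lg2a : Prop :=
  ∀ {G N P F : Type} [Group G] [TopologicalSpace G] [AddCommGroup N] [DistribMulAction G N]
    [Field F] [Finite F] (D : Dat G N P) (pi : P → F[X]) (Irr : ℕ → Finset P), Ax D →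
    Arith D pi Irr → 4 ∣ Nat.card F - 1 → ∀ ε : ℝ, 0 < ε → ∃ K : ℕ, ∀ m : ℕ, ∃ N₀ : ℕ,
    ∀ n : Fin m → ℕ, (∀ i, N₀ ≤ n i) → (∀ z ∈ tup fun i => Irr (n i), D.Ok z) →
    (∑ᶠ z ∈ {z ∈ tup fun i => Irr (n i) | K ≤ Nat.card (D.Dk z 1)},
      (Nat.card (D.Dk z 1) : ℝ)) ≤ ε * ∏ i, (#(Irr (n i)) : ℝ)

/-- **Lg2b** (200 lines, uses `S_Mop`, `S_Exp`, `S_Eqz`, `S_Tmz`, `S_Dnz`, `S_Mbd`, `S_Bin`, `S_Pbd`). Missing patterns
are rare for a given order of `Dk z 1`.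

Proof. Let `S` with `IsSy D S`, `t = |TT D|`, `N' = 4 ^ k`. By `S_Bin` there is `m₀` with
`N' ^ (t + 1) * 2 ^ (N' ^ 2) * N' * few N' L m / N' ^ m ≤ ε / 2` for `m ≥ m₀`. Given `m ≥ m₀` take `ε' = ε / 2 * N' ^ -(t + 1 + m)` and `N₀`
from `S_Eqz`. Every `z` in the set has a solution of `S.pow k` which is `Bad` (`S_Pbd`), so its cardinality is at most the sum
in `S_Mbd` (`S.Tm (nz D z)`: `S_Tmz`; `nz D z = (n i mod 2)` does not depend on `z`; if `tup` is empty nothing is to be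
shown; `S.Dns k`: `S_Dnz`). -/
def S_Lg2b : Prop :=
  ∀ {G N P F : Type} [Group G] [TopologicalSpace G] [AddCommGroup N] [DistribMulAction G N]
    [Field F] [Finite F] (D : Dat G N P) (pi : P → F[X]) (Irr : ℕ → Finset P), Ax D → Ird D →
    Arith D pi Irr → 4 ∣ Nat.card F - 1 → ∀ (k L : ℕ) (ε : ℝ), 0 < ε → ∃ m₀ : ℕ, ∀ m : ℕ,
    m₀ ≤ m → ∃ N₀ : ℕ, ∀ n : Fin m → ℕ, (∀ i, N₀ ≤ n i) →
    (∀ z ∈ tup fun i => Irr (n i), D.Ok z ∧ Tms D z) → ∀ b : Fin m,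
    ({z ∈ tup fun i => Irr (n i) | Nat.card (D.Dk z 1) = 4 * 2 ^ k ∧
      ¬ D.Pat (D.Dk z 1) b L}.ncard : ℝ) ≤ ε * ∏ i, (#(Irr (n i)) : ℝ)

/-- **Lg2** (150 lines, uses `S_Pbd`, `S_Lg2a`, `S_Lg2b`). Missing patterns are rare.

Proof. Let `K` be as in `S_Lg2a` for `ε / 2`. Every `#(Dk z 1)` is `4 * 2 ^ k` (`S_Pbd` (1)). The sum over the `z` without `Pat` is at
most the sum over the `z` with `#(Dk z 1) ≥ K` plus `∑_{k ≤ K} 4 * 2 ^ k * #{z | #(Dk z 1) = 4 * 2 ^ k, ¬ Pat}` (`2 ^ k < K` gives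
`k < K`); use `S_Lg2b` for the finitely many `k ≤ K` with `ε / (2 (K + 1) 4 * 2 ^ K)`, the maxima of the `m₀`, `N₀`. -/
def S_Lg2 : Prop :=
  ∀ {G N P F : Type} [Group G] [TopologicalSpace G] [AddCommGroup N] [DistribMulAction G N]
    [Field F] [Finite F] (D : Dat G N P) (pi : P → F[X]) (Irr : ℕ → Finset P), Ax D → Ird D →
    Arith D pi Irr → 4 ∣ Nat.card F - 1 → ∀ (L : ℕ) (ε : ℝ), 0 < ε → ∃ m₀ : ℕ, ∀ m : ℕ,
    m₀ ≤ m → ∃ N₀ : ℕ, ∀ n : Fin m → ℕ, (∀ i, N₀ ≤ n i) →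
    (∀ z ∈ tup fun i => Irr (n i), D.Ok z ∧ Tms D z) → ∀ b : Fin m,
    (∑ᶠ z ∈ {z ∈ tup fun i => Irr (n i) | ¬ D.Pat (D.Dk z 1) b L},
      (Nat.card (D.Dk z 1) : ℝ)) ≤ ε * ∏ i, (#(Irr (n i)) : ℝ)

/-- **Lvg** (60 lines, uses `S_Nrr`, `S_Lg1`, `S_Lg2`, `S_Lg3`). What block G delivers for the structure `Lvl`.

Proof. `inf` is `S_Nrr`; `g1`, `g2`, `g3` are `S_Lg1`, `S_Lg2` for `m = r + 1`, `b = Fin.last r` (`r₀ = m₀`), and `S_Lg3`. -/
def S_Lvg : Prop :=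
  ∀ {G N P F : Type} [Group G] [TopologicalSpace G] [AddCommGroup N] [DistribMulAction G N]
    [Field F] [Finite F] (D : Dat G N P) (pi : P → F[X]) (Irr : ℕ → Finset P)
    (Adm : ∀ r : ℕ, (Fin (r + 1) → ℕ) → Prop), Ax D → Ird D → Arith D pi Irr →
    4 ∣ Nat.card F - 1 →
    (∀ r n, Adm r n → ∀ z ∈ tup fun i => Irr (n i), D.Ok z ∧ Tms D z) →
    (∀ m : ℕ, ∃ n₀, ∀ n, n₀ ≤ n → m ≤ #(Irr n)) ∧
    (∃ C : ℝ, ∀ r, ∃ N₀, ∀ n, Adm r n → (∀ i, N₀ ≤ n i) →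
      (∑ᶠ z ∈ tup fun i => Irr (n i), (Nat.card (D.Dk z 1) : ℝ)) ≤
        C * ∏ i, (#(Irr (n i)) : ℝ)) ∧
    (∀ (L₀ : ℕ) (ε : ℝ), 0 < ε → ∃ r₀, ∀ r, r₀ ≤ r → ∃ N₀, ∀ n, Adm r n → (∀ i, N₀ ≤ n i) →
      (∑ᶠ z ∈ {z ∈ tup fun i => Irr (n i) | ¬ D.Pat (D.Dk z 1) (Fin.last r) L₀},
        (Nat.card (D.Dk z 1) : ℝ)) ≤ ε * ∏ i, (#(Irr (n i)) : ℝ)) ∧
    ∀ r n, Adm r n → ∀ z ∈ tup fun i => Irr (n i), ∃ s : ℕ, Nat.card (D.Dk z 1) = 4 ^ s

end Pool.Agent.MP72S.Lv
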